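import Pool.Agent.Lib.MP_4ba111_an.Per

/-! The correlation function is Lipschitz. -/

set_option autoImplicit false

open MeasureTheory Filter Topology

namespace MP4ba111

theorem corb_int {F : ℝ → ℝ} (hm : Measurable F) (C : ℝ) (hb : ∀ x, |F x| ≤ C) (a b : ℝ) :
    IntervalIntegrable F volume a b := by
  have hc : IntervalIntegrable (fun _ : ℝ => C) volume a b := intervalIntegrable_const
  refine hc.mono_fun hm.aestronglyMeasurable ?_
  filter_upwards with x
  rw [Real.norm_eq_abs, Real.norm_eq_abs]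
  exact (hb x).trans (le_abs_self C)

theorem corb_zi {q : ℕ} (hq : 1 ≤ q) (x : ℝ) : zi q x = (⌊x⌋ : ℝ) - ⌊x - 1 / (q : ℝ)⌋ := by
  have hq' : (1 : ℝ) ≤ q := by exact_mod_cast hq
  have h1 : 0 < 1 / (q : ℝ) := by positivity
  have h2 : 1 / (q : ℝ) ≤ 1 := by
    rw [div_le_one (by linarith)]
    exact hq'
  have h3 := Int.fract_nonneg x
  have h4 := Int.fract_lt_one x
  have h5 : Int.fract x = x - ⌊x⌋ := rfl
  unfold zi
  split_ifs with h
  · have e1 : ⌊x - 1 / (q : ℝ)⌋ = ⌊x⌋ - 1 := by
      rw [Int.floor_eq_iff]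
      push_cast
      constructor <;> linarith
    rw [e1]
    push_cast
    ring
  · push Not at h
    have e1 : ⌊x - 1 / (q : ℝ)⌋ = ⌊x⌋ := by
      rw [Int.floor_eq_iff]
      constructor <;> linarith
    rw [e1]
    ring

theorem corb_key {q : ℕ} (hq : 1 ≤ q) {u v : ℝ} (h : v ≤ u) (x : ℝ) :
    |zi q (x + u) - zi q (x + v)| ≤ 2 * (u - v) - Int.fract (x + u) + Int.fract (x + v) -
      Int.fract (x + (u - 1 / (q : ℝ))) + Int.fract (x + (v - 1 / (q : ℝ))) := by
  rw [corb_zi hq, corb_zi hq]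
  have e1 : Int.fract (x + u) = x + u - ⌊x + u⌋ := rfl
  have e2 : Int.fract (x + v) = x + v - ⌊x + v⌋ := rfl
  have e3 : Int.fract (x + (u - 1 / (q : ℝ))) = x + u - 1 / (q : ℝ) - ⌊x + u - 1 / (q : ℝ)⌋ := by
    rw [← add_sub_assoc]
    rfl
  have e4 : Int.fract (x + (v - 1 / (q : ℝ))) = x + v - 1 / (q : ℝ) - ⌊x + v - 1 / (q : ℝ)⌋ := by
    rw [← add_sub_assoc]
    rfl
  have h1 : (⌊x + v⌋ : ℝ) ≤ ⌊x + u⌋ := by
    exact_mod_cast Int.floor_le_floor (by linarith)
  have h2 : (⌊x + v - 1 / (q : ℝ)⌋ : ℝ) ≤ ⌊x + u - 1 / (q : ℝ)⌋ := by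
    exact_mod_cast Int.floor_le_floor (by linarith)
  rw [e1, e2, e3, e4, abs_le]
  constructor <;> linarith

theorem corb_fract_int (a b c : ℝ) :
    IntervalIntegrable (fun x => Int.fract (x + c)) volume a b := by
  apply corb_int (measurable_fract.comp (measurable_id.add_const c)) 1
  intro x
  rw [abs_of_nonneg (Int.fract_nonneg _)]
  exact (Int.fract_lt_one _).le

theorem corb_le {q : ℕ} (hq : 1 ≤ q) {u v : ℝ} (h : v ≤ u) : |CC q u - CC q v| ≤ 2 * (u - v) := by
  have hm : ∀ w, Measurable fun x => phi q x * phi q (x + w) := fun w =>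
    (phi_meas q).mul ((phi_meas q).comp (measurable_id.add_const w))
  have hb : ∀ w x, |phi q x * phi q (x + w)| ≤ 1 := by
    intro w x
    rw [abs_mul]
    exact mul_le_one₀ (abs_phi_le hq x) (abs_nonneg _) (abs_phi_le hq _)
  have hi : ∀ w, IntervalIntegrable (fun x => phi q x * phi q (x + w)) volume 0 1 := fun w =>
    corb_int (hm w) 1 (hb w) 0 1
  have e1 : CC q u - CC q v =
      ∫ x in (0 : ℝ)..1, (phi q x * phi q (x + u) - phi q x * phi q (x + v)) := by
    unfold CC
    rw [intervalIntegral.integral_sub (hi u) (hi v)]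
  rw [e1]
  have hint1 := (corb_fract_int 0 1 u)
  have hint2 := (corb_fract_int 0 1 v)
  have hint3 := (corb_fract_int 0 1 (u - 1 / (q : ℝ)))
  have hint4 := (corb_fract_int 0 1 (v - 1 / (q : ℝ)))
  have hc : IntervalIntegrable (fun _ : ℝ => 2 * (u - v)) volume 0 1 := intervalIntegrable_const
  have hg : IntervalIntegrable (fun x => 2 * (u - v) - Int.fract (x + u) + Int.fract (x + v) -
      Int.fract (x + (u - 1 / (q : ℝ))) + Int.fract (x + (v - 1 / (q : ℝ)))) volume 0 1 :=
    (((hc.sub hint1).add hint2).sub hint3).add hint4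
  have e2 : ∫ x in (0 : ℝ)..1, (2 * (u - v) - Int.fract (x + u) + Int.fract (x + v) -
      Int.fract (x + (u - 1 / (q : ℝ))) + Int.fract (x + (v - 1 / (q : ℝ)))) = 2 * (u - v) := by
    rw [intervalIntegral.integral_add (((hc.sub hint1).add hint2).sub hint3) hint4,
      intervalIntegral.integral_sub ((hc.sub hint1).add hint2) hint3,
      intervalIntegral.integral_add (hc.sub hint1) hint2,
      intervalIntegral.integral_sub hc hint1]
    have hper : Function.Periodic (Int.fract : ℝ → ℝ) 1 := fun x => Int.fract_add_one x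
    rw [int_shift hper, int_shift hper, int_shift hper, int_shift hper]
    rw [intervalIntegral.integral_const]
    simp
  rw [← e2]
  refine (intervalIntegral.abs_integral_le_integral_abs zero_le_one).trans ?_
  apply intervalIntegral.integral_mono_on zero_le_one ((hi u).sub (hi v)).abs hg
  intro x _
  rw [← mul_sub, abs_mul]
  have h1 : phi q (x + u) - phi q (x + v) = zi q (x + u) - zi q (x + v) := by
    unfold phi
    ring
  rw [h1]
  calc |phi q x| * |zi q (x + u) - zi q (x + v)| ≤ 1 * |zi q (x + u) - zi q (x + v)| :=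
        mul_le_mul_of_nonneg_right (abs_phi_le hq x) (abs_nonneg _)
    _ ≤ _ := by
      rw [one_mul]
      exact corb_key hq h x

/-- PROOF. `|CC u - CC v| ≤ ∫_0^1 |phi (x+u) - phi (x+v)| dx = ∫_0^1 |zi (x+h) - zi x| dx` with
`h = u - v` (`abs_phi_le`, shift by periodicity). For `|h| ≥ 1/2` bound by `1 ≤ 2|h|`. For
`0 ≤ h < 1/2` the integrand (on `[0, 1)`) is nonzero only for `x` in two intervals of total length at
most `2h` (`zi` jumps only at integers and at `1/q` modulo `1`: if `zi (x + h) ≠ zi x` then one of the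
points `⌊x⌋ + 1/q`, `⌊x⌋ + 1` lies in `(x, x+h]`); symmetric for `h < 0`. -/
theorem CC_lip {q : ℕ} (hq : 1 ≤ q) (u v : ℝ) : |CC q u - CC q v| ≤ 2 * |u - v| := by
  rcases le_total v u with h | h
  · rw [abs_of_nonneg (show 0 ≤ u - v by linarith)]
    exact corb_le hq h
  · rw [abs_sub_comm, abs_sub_comm u v, abs_of_nonneg (show 0 ≤ v - u by linarith)]
    exact corb_le hq h

end MP4ba111
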