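import Pool.Agent.Lib.MP_4ba111_an.Cor
import Pool.Agent.Lib.MP_4ba111_an.CorB

/-! Averages of the correlation function along a rotation by a small angle. -/

set_option autoImplicit false

open MeasureTheory Filter Topology

namespace MP4ba111

theorem avg_cont {q : ℕ} (hq : 1 ≤ q) : Continuous (CC q) := by
  have h : LipschitzWith 2 (CC q) := by
    refine LipschitzWith.of_dist_le_mul (fun u v => ?_)
    rw [Real.dist_eq, Real.dist_eq]
    have h2 := CC_lip hq u v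
    simpa using h2
  exact h.continuous

theorem avg_int_le {q : ℕ} (hq : 1 ≤ q) (y : ℝ) : |∫ u in (0 : ℝ)..y, CC q u| ≤ 1 := by
  have hc := avg_cont hq
  have hi : ∀ a b : ℝ, IntervalIntegrable (CC q) volume a b := fun a b =>
    hc.intervalIntegrable a b
  have h1 : ∫ u in (0 : ℝ)..(⌊y⌋ : ℝ), CC q u = 0 := by
    have h := (CC_periodic q).intervalIntegral_add_zsmul_eq ⌊y⌋ 0 hi
    rw [zero_add, zero_add, int_CC hq, smul_zero] at h
    simpa using h
  have h2 : ∫ u in (0 : ℝ)..y, CC q u =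
      (∫ u in (0 : ℝ)..(⌊y⌋ : ℝ), CC q u) + ∫ u in (⌊y⌋ : ℝ)..y, CC q u :=
    (intervalIntegral.integral_add_adjacent_intervals (hi _ _) (hi _ _)).symm
  rw [h2, h1, zero_add]
  have h3 : ‖∫ u in (⌊y⌋ : ℝ)..y, CC q u‖ ≤ 1 * |y - ⌊y⌋| := by
    refine intervalIntegral.norm_integral_le_of_norm_le_const (fun x _ => ?_)
    rw [Real.norm_eq_abs]
    exact abs_CC_le hq x
  rw [Real.norm_eq_abs] at h3
  have h4 : |y - ⌊y⌋| ≤ 1 := by
    have h5 := Int.floor_le y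
    have h6 := (Int.lt_floor_add_one y).le
    rw [abs_of_nonneg (by linarith)]
    linarith
  linarith

theorem avg_scaled {q : ℕ} (hq : 1 ≤ q) {w : ℝ} (hw : w ≠ 0) (y : ℝ) :
    |∫ t in (0 : ℝ)..y, CC q (t * w)| ≤ 1 / |w| := by
  have h1 : ∫ t in (0 : ℝ)..y, CC q (t * w) = w⁻¹ * ∫ u in (0 : ℝ)..(y * w), CC q u := by
    rw [intervalIntegral.integral_comp_mul_right (fun u => CC q u) hw, zero_mul, smul_eq_mul]
  rw [h1, abs_mul, abs_inv, one_div]
  have h2 := avg_int_le hq (y * w)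
  have h3 : (0 : ℝ) ≤ |w|⁻¹ := by positivity
  calc |w|⁻¹ * |∫ u in (0 : ℝ)..(y * w), CC q u| ≤ |w|⁻¹ * 1 :=
        mul_le_mul_of_nonneg_left h2 h3
    _ = |w|⁻¹ := mul_one _

theorem avg_step {q : ℕ} (hq : 1 ≤ q) (w : ℝ) (k : ℕ) :
    |CC q ((k + 1 : ℕ) * w) - ∫ t in (k : ℝ)..((k + 1 : ℕ) : ℝ), CC q (t * w)| ≤ 2 * |w| := by
  have hc := avg_cont hq
  have hcw : Continuous (fun t : ℝ => CC q (t * w)) := hc.comp (continuous_id.mul continuous_const)
  have h1 : CC q ((k + 1 : ℕ) * w) - ∫ t in (k : ℝ)..((k + 1 : ℕ) : ℝ), CC q (t * w) =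
      ∫ t in (k : ℝ)..((k + 1 : ℕ) : ℝ), (CC q ((k + 1 : ℕ) * w) - CC q (t * w)) := by
    rw [intervalIntegral.integral_sub (intervalIntegrable_const) (hcw.intervalIntegrable _ _),
      intervalIntegral.integral_const]
    have h : (((k + 1 : ℕ) : ℝ) - (k : ℝ)) = 1 := by push_cast; ring
    rw [h, one_smul]
  rw [h1]
  have h2 : ‖∫ t in (k : ℝ)..((k + 1 : ℕ) : ℝ), (CC q ((k + 1 : ℕ) * w) - CC q (t * w))‖ ≤
      (2 * |w|) * |((k + 1 : ℕ) : ℝ) - (k : ℝ)| := by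
    refine intervalIntegral.norm_integral_le_of_norm_le_const (fun x hx => ?_)
    rw [Real.norm_eq_abs]
    have hle : (k : ℝ) ≤ ((k + 1 : ℕ) : ℝ) := by push_cast; linarith
    rw [Set.uIoc_of_le hle] at hx
    have h3 := CC_lip hq (((k + 1 : ℕ) : ℝ) * w) (x * w)
    have h4 : |((k + 1 : ℕ) : ℝ) * w - x * w| ≤ |w| := by
      rw [← sub_mul, abs_mul]
      have h5 : |((k + 1 : ℕ) : ℝ) - x| ≤ 1 := by
        obtain ⟨h6, h7⟩ := hx
        rw [abs_of_nonneg (by linarith)]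
        push_cast
        linarith
      calc |((k + 1 : ℕ) : ℝ) - x| * |w| ≤ 1 * |w| :=
            mul_le_mul_of_nonneg_right h5 (abs_nonneg w)
        _ = |w| := one_mul _
    linarith
  have h : (((k + 1 : ℕ) : ℝ) - (k : ℝ)) = 1 := by push_cast; ring
  rw [h, abs_one, mul_one, Real.norm_eq_abs] at h2
  exact h2

theorem avg_diff {q : ℕ} (hq : 1 ≤ q) (w : ℝ) (K : ℕ) :
    |(∑ k ∈ Finset.Icc 1 K, CC q (k * w)) - ∫ t in (0 : ℝ)..(K : ℝ), CC q (t * w)| ≤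
      2 * K * |w| := by
  have hc := avg_cont hq
  have hcw : Continuous (fun t : ℝ => CC q (t * w)) := hc.comp (continuous_id.mul continuous_const)
  induction K with
  | zero => simp
  | succ K ih =>
    have hI : Finset.Icc 1 (K + 1) = insert (K + 1) (Finset.Icc 1 K) := by
      ext x
      simp only [Finset.mem_Icc, Finset.mem_insert]
      omega
    have hn : (K + 1) ∉ Finset.Icc 1 K := by
      simp only [Finset.mem_Icc]
      omega
    rw [hI, Finset.sum_insert hn]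
    have h2 : ∫ t in (0 : ℝ)..((K + 1 : ℕ) : ℝ), CC q (t * w) =
        (∫ t in (0 : ℝ)..(K : ℝ), CC q (t * w)) +
          ∫ t in (K : ℝ)..((K + 1 : ℕ) : ℝ), CC q (t * w) :=
      (intervalIntegral.integral_add_adjacent_intervals (hcw.intervalIntegrable _ _)
        (hcw.intervalIntegrable _ _)).symm
    rw [h2]
    have h3 := avg_step hq w K
    have h4 : CC q (((K + 1 : ℕ) : ℝ) * w) + ∑ k ∈ Finset.Icc 1 K, CC q (k * w) -
        ((∫ t in (0 : ℝ)..(K : ℝ), CC q (t * w)) +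
          ∫ t in (K : ℝ)..((K + 1 : ℕ) : ℝ), CC q (t * w)) =
        ((∑ k ∈ Finset.Icc 1 K, CC q (k * w)) - ∫ t in (0 : ℝ)..(K : ℝ), CC q (t * w)) +
        (CC q (((K + 1 : ℕ) : ℝ) * w) - ∫ t in (K : ℝ)..((K + 1 : ℕ) : ℝ), CC q (t * w)) := by
      ring
    rw [h4]
    refine (abs_add_le _ _).trans ?_
    have h5 : 2 * ((K + 1 : ℕ) : ℝ) * |w| = 2 * (K : ℝ) * |w| + 2 * |w| := by
      push_cast
      ring
    rw [h5]
    exact add_le_add ih h3

/-- PROOF. `CC q` is continuous (`CC_lip`), periodic, `|CC| ≤ 1`, mean zero, so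
`|∫_0^y CC| ≤ 1` for all real `y` (`y = ⌊y⌋ + fract y`; the integral over `[0, ⌊y⌋]` vanishes).
`∑_{k=1}^K CC (k w) = ∑_k ∫_{k-1}^k CC (k w) dt`, and `|CC (k w) - CC (t w)| ≤ 2 |w|` for
`t ∈ [k-1, k]`, so the sum differs from `∫_0^K CC (t w) dt = (1/w) ∫_0^{K w} CC` by at most
`2 K |w|`. -/
theorem avg_CC {q : ℕ} (hq : 1 ≤ q) {w : ℝ} (hw : w ≠ 0) (K : ℕ) :
    |∑ k ∈ Finset.Icc 1 K, CC q (k * w)| ≤ 2 * K * |w| + 1 / |w| := by
  have h1 := avg_diff hq w K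
  have h2 := avg_scaled hq hw (K : ℝ)
  have h3 : ∑ k ∈ Finset.Icc 1 K, CC q (k * w) =
      ((∑ k ∈ Finset.Icc 1 K, CC q (k * w)) - ∫ t in (0 : ℝ)..(K : ℝ), CC q (t * w)) +
        ∫ t in (0 : ℝ)..(K : ℝ), CC q (t * w) := by ring
  rw [h3]
  exact (abs_add_le _ _).trans (add_le_add h1 h2)

end MP4ba111
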