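import Pool.Agent.Lib.MP_4ba111_an.Defs

/-! Bohr sets of integers have positive density, uniformly in the frequencies. -/

set_option autoImplicit false

open Filter Topology

namespace MP4ba111

open Classical in
/-- PROOF. Let `R : ℕ` with `1/R ≤ η`, `R ≥ 1`, `Q = R^{N'}`. Colour `k ∈ [1, K]` by
`n ↦ ⌊R * fract (k y_n)⌋ ∈ {0..R-1}`, `n ∈ [1, N']`; some colour class `S` has at least `K/Q`
elements (pigeonhole `Finset.exists_le_card_fiber_of_mul_le_card_of_maps_to` or via sums). Let `k0` be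
its least element. For `k ∈ S`, `k > k0`: `k - k0 ∈ [1, K]` and
`dz ((k - k0) y_n) ≤ |fract (k y_n) - fract (k0 y_n)| ≤ 1/R ≤ η` (the difference
`(k - k0) y_n - (fract (k y_n) - fract (k0 y_n))` is an integer; `dz` is at most the distance to any
integer: `round_le`). So the set has at least `K/Q - 1 ≥ K/(2Q)` elements if `K ≥ 2Q`. -/
theorem bohr (N' : ℕ) {η : ℝ} (hη : 0 < η) : ∃ c : ℝ, 0 < c ∧ ∃ K0 : ℕ, ∀ (y : ℕ → ℝ) (K : ℕ),
    K0 ≤ K → c * K ≤ ((Finset.Icc 1 K).filter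
      (fun k : ℕ => ∀ n ∈ Finset.Icc 1 N', dz ((k : ℝ) * y n) ≤ η)).card := by
  obtain ⟨R, hR⟩ := exists_nat_gt (1 / η)
  have hRpos : (0 : ℝ) < R := lt_of_le_of_lt (by positivity) hR
  have hR0 : 0 < R := by exact_mod_cast hRpos
  have hRη : 1 / (R : ℝ) ≤ η := by
    rw [div_le_iff₀ hRpos]
    rw [div_lt_iff₀ hη] at hR
    linarith
  have hQ : 0 < R ^ N' := pow_pos hR0 _
  have hQr : (0 : ℝ) < (R ^ N' : ℕ) := by exact_mod_cast hQ
  refine ⟨1 / (2 * (R ^ N' : ℕ)), by positivity, 4 * R ^ N', fun y K hK => ?_⟩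
  obtain ⟨T, hT⟩ : ∃ T : Finset ℕ, T = @Finset.filter ℕ
      (fun k : ℕ => ∀ n ∈ Finset.Icc 1 N', dz ((k : ℝ) * y n) ≤ η)
      (fun _ => Classical.propDecidable _) (Finset.Icc 1 K) := ⟨_, rfl⟩
  rw [← hT]
  have hmT : ∀ k : ℕ, k ∈ T ↔ k ∈ Finset.Icc 1 K ∧ ∀ n ∈ Finset.Icc 1 N', dz ((k : ℝ) * y n) ≤ η := by
    intro k
    rw [hT]
    exact @Finset.mem_filter _ _ (fun _ => Classical.propDecidable _) _ _
  have hfl : ∀ x : ℝ, ⌊(R : ℝ) * Int.fract x⌋₊ < R := fun x => by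
    rw [Nat.floor_lt (mul_nonneg hRpos.le (Int.fract_nonneg x))]
    calc (R : ℝ) * Int.fract x < R * 1 := mul_lt_mul_of_pos_left (Int.fract_lt_one x) hRpos
      _ = R := mul_one _
  let col : ℕ → (Fin N' → Fin R) := fun k i => ⟨⌊(R : ℝ) * Int.fract ((k : ℝ) * y (i + 1))⌋₊, hfl _⟩
  have hne : (Finset.univ : Finset (Fin N' → Fin R)).Nonempty :=
    ⟨fun _ => ⟨0, hR0⟩, Finset.mem_univ _⟩
  obtain ⟨q, -, hq⟩ := Finset.exists_le_card_fiber_of_mul_le_card_of_maps_to
    (s := Finset.Icc 1 K) (t := (Finset.univ : Finset (Fin N' → Fin R))) (f := col)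
    (n := K / R ^ N') (fun _ _ => Finset.mem_univ _) hne (by
      rw [Finset.card_univ, Fintype.card_fun, Fintype.card_fin, Fintype.card_fin, Nat.card_Icc,
        Nat.add_sub_cancel]
      exact Nat.mul_div_le _ _)
  have hKQ : 4 ≤ K / R ^ N' := (Nat.le_div_iff_mul_le hQ).2 hK
  set S : Finset ℕ := (Finset.Icc 1 K).filter fun x => col x = q with hS
  have hSne : S.Nonempty := Finset.card_pos.1 (by omega)
  set k0 := S.min' hSne with hk0
  have hk0S : k0 ∈ S := Finset.min'_mem _ _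
  have hcard : (S.erase k0).card ≤ T.card := by
    refine Finset.card_le_card_of_injOn (fun k => k - k0) ?_ ?_
    · intro k hk
      have hk' : k ∈ S.erase k0 := hk
      rw [Finset.mem_erase] at hk'
      obtain ⟨hkne, hkS⟩ := hk'
      have hle : k0 ≤ k := Finset.min'_le _ _ hkS
      have hlt : k0 < k := lt_of_le_of_ne hle (Ne.symm hkne)
      have h1 := (Finset.mem_filter.1 hkS)
      have h2 := (Finset.mem_filter.1 hk0S)
      have h3 := Finset.mem_Icc.1 h1.1
      have h4 := Finset.mem_Icc.1 h2.1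
      show k - k0 ∈ T
      rw [hmT, Finset.mem_Icc]
      refine ⟨⟨by omega, by omega⟩, fun n hn => ?_⟩
      rw [Finset.mem_Icc] at hn
      have h5 : col k = col k0 := h1.2.trans h2.2.symm
      have h6 := congrArg Fin.val (congrFun h5 ⟨n - 1, by omega⟩)
      simp only [col] at h6
      rw [show n - 1 + 1 = n by omega] at h6
      set a := Int.fract ((k : ℝ) * y n) with ha
      set b := Int.fract ((k0 : ℝ) * y n) with hb
      have ha0 : 0 ≤ (R : ℝ) * a := mul_nonneg hRpos.le (Int.fract_nonneg _)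
      have hb0 : 0 ≤ (R : ℝ) * b := mul_nonneg hRpos.le (Int.fract_nonneg _)
      have h7 := Nat.floor_le ha0
      have h8 := Nat.lt_floor_add_one ((R : ℝ) * a)
      have h9 := Nat.floor_le hb0
      have h10 := Nat.lt_floor_add_one ((R : ℝ) * b)
      rw [h6] at h7 h8
      have h11 : |a - b| ≤ 1 / (R : ℝ) := by
        rw [abs_le, neg_le, neg_sub, le_div_iff₀ hRpos, le_div_iff₀ hRpos]
        constructor <;> linarith
      have h12 : dz (((k - k0 : ℕ) : ℝ) * y n) ≤ |a - b| := by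
        have h13 := round_le (((k - k0 : ℕ) : ℝ) * y n) (⌊(k : ℝ) * y n⌋ - ⌊(k0 : ℝ) * y n⌋)
        have h14 : ((k - k0 : ℕ) : ℝ) * y n - ((⌊(k : ℝ) * y n⌋ - ⌊(k0 : ℝ) * y n⌋ : ℤ) : ℝ) =
            a - b := by
          rw [ha, hb, Int.fract, Int.fract, Nat.cast_sub hle]
          push_cast
          ring
        rw [h14] at h13
        exact h13
      exact h12.trans (h11.trans hRη)
    · intro k hk l hl hkl
      have hk' : k ∈ S.erase k0 := hk
      have hl' : l ∈ S.erase k0 := hl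
      have h1 : k0 ≤ k := Finset.min'_le _ _ (Finset.mem_of_mem_erase hk')
      have h2 : k0 ≤ l := Finset.min'_le _ _ (Finset.mem_of_mem_erase hl')
      have h3 : k - k0 = l - k0 := hkl
      omega
  have hc1 : K / R ^ N' - 1 ≤ T.card := by
    rw [Finset.card_erase_of_mem hk0S] at hcard
    omega
  have hc2 : K / R ^ N' ≤ T.card + 1 := by omega
  have hc3 : K < R ^ N' * (K / R ^ N' + 1) := Nat.lt_mul_div_succ K hQ
  have hc4 : (K : ℝ) < (R ^ N' : ℕ) * ((T.card : ℝ) + 2) := by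
    have h1 : (K : ℝ) < (R ^ N' : ℕ) * (((K / R ^ N' : ℕ) : ℝ) + 1) := by exact_mod_cast hc3
    have h2 : (((K / R ^ N' : ℕ) : ℝ)) ≤ (T.card : ℝ) + 1 := by
      exact_mod_cast hc2
    refine h1.trans_le (mul_le_mul_of_nonneg_left (by linarith) hQr.le)
  have hc5 : (4 : ℝ) * (R ^ N' : ℕ) ≤ K := by exact_mod_cast hK
  rw [div_mul_eq_mul_div, one_mul, div_le_iff₀ (by positivity)]
  nlinarith

end MP4ba111
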