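import Pool.Agent.Lib.MP_4ba111_an.DUnion

/-! The section was met in the past. -/

set_option autoImplicit false

open MeasureTheory Filter Topology
open scoped ENNReal

namespace MP4ba111

variable {X : Type} [MeasurableSpace X] {μ : Measure X} {T : ℝ → X → X}

/-- PROOF. Let `P = {x ∈ X1 | ∀ s : ℚ, 0 ≤ s → T (-s) x ∉ D}`, measurable. If `T 1 x ∈ P` then
`x ∈ P` (`x ∈ X1` by invariance), so `(T n)⁻¹ P` decreases in `n : ℕ`; all have measure `μ P`; and the
intersection is empty, since for `x ∈ X1` there is a real `t` with `T t x ∈ D` (`hD.hit`), so a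
rational one (`hD.opn`), and for `n ≥ t` the point `T n x` is not in `P`. So `μ P = 0`
(`tendsto_measure_iInter_atTop` or `tendsto_measure_iInter_le`). -/
theorem past (hT : IsFlow μ T) (hμ : IsProbabilityMeasure μ) {X1 : Set X} {H : ℝ} {D : Set X}
    (hD : IsSec T X1 H D) (hinv : ∀ x ∈ X1, ∀ t, T t x ∈ X1) (hfull : μ X1ᶜ = 0)
    (hmX : MeasurableSet X1) : μ {x | ∀ s : ℚ, (0 : ℝ) ≤ s → T (-(s : ℝ)) x ∉ D} = 0 := by
  set P0 : Set X := {x | ∀ s : ℚ, (0 : ℝ) ≤ s → T (-(s : ℝ)) x ∉ D} with hP0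
  have hmP0 : MeasurableSet P0 := by
    have h1 : P0 = ⋂ s : ℚ, ⋂ _ : (0 : ℝ) ≤ s, (T (-(s : ℝ))) ⁻¹' Dᶜ := by
      ext x
      simp [hP0]
    rw [h1]
    exact MeasurableSet.iInter fun s => MeasurableSet.iInter fun _ =>
      (hT.pres _).measurable hD.meas.compl
  set P : Set X := P0 ∩ X1 with hP
  have hmP : MeasurableSet P := hmP0.inter hmX
  have hstep : ∀ x, T 1 x ∈ P → x ∈ P := by
    intro x hx
    refine ⟨?_, ?_⟩
    · intro s hs hd
      have h1 := hx.1 (s + 1) (by push_cast; linarith)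
      have h2 : T (-((s + 1 : ℚ) : ℝ)) (T 1 x) = T (-(s : ℝ)) x := by
        rw [← hT.add]
        congr 1
        push_cast
        ring
      exact h1 (h2 ▸ hd)
    · have h1 := hinv _ hx.2 (-1)
      rwa [← hT.add, neg_add_cancel, hT.zero] at h1
  set A : ℕ → Set X := fun n => (T (n : ℝ)) ⁻¹' P with hA
  have hmA : ∀ n, μ (A n) = μ P := fun n =>
    (hT.pres _).measure_preimage hmP.nullMeasurableSet
  have hanti : Antitone A := by
    refine antitone_nat_of_succ_le fun n x hx => ?_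
    have h1 : T ((n + 1 : ℕ) : ℝ) x = T 1 (T (n : ℝ) x) := by
      rw [← hT.add]
      congr 1
      push_cast
      ring
    have h2 : T ((n + 1 : ℕ) : ℝ) x ∈ P := hx
    rw [h1] at h2
    exact hstep _ h2
  have hemp : ⋂ n, A n = ∅ := by
    rw [Set.eq_empty_iff_forall_notMem]
    intro x hx
    rw [Set.mem_iInter] at hx
    have hx1 : x ∈ X1 := by
      have h1 : T ((0 : ℕ) : ℝ) x ∈ P := hx 0
      rw [Nat.cast_zero, hT.zero] at h1
      exact h1.2
    obtain ⟨t, ht⟩ := hD.hit x hx1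
    obtain ⟨δ, hδ, hop⟩ := hD.opn _ (hinv x hx1 t) ht
    obtain ⟨q, hq1, hq2⟩ := exists_rat_btwn (show t < t + δ by linarith)
    have hq : T (q : ℝ) x ∈ D := by
      have h1 := hop ((q : ℝ) - t) (by rw [abs_lt]; constructor <;> linarith)
      rwa [← hT.add, sub_add_cancel] at h1
    obtain ⟨n, hn⟩ := exists_nat_ge (q : ℝ)
    have h1 : T (n : ℝ) x ∈ P := hx n
    have h2 := h1.1 ((n : ℚ) - q) (by push_cast; linarith)
    refine h2 ?_
    have h3 : T (-(((n : ℚ) - q : ℚ) : ℝ)) (T (n : ℝ) x) = T (q : ℝ) x := by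
      rw [← hT.add]
      congr 1
      push_cast
      ring
    rw [h3]
    exact hq
  have hP00 : μ P = 0 := by
    have h1 := tendsto_measure_iInter_atTop (μ := μ) (s := A)
      (fun n => ((hT.pres (n : ℝ)).measurable hmP).nullMeasurableSet) hanti
      ⟨0, measure_ne_top μ _⟩
    rw [hemp, measure_empty] at h1
    have h2 : (μ ∘ A) = fun _ => μ P := by
      funext n
      exact hmA n
    rw [h2] at h1
    exact tendsto_nhds_unique tendsto_const_nhds h1
  have h3 : P0 ⊆ P ∪ X1ᶜ := by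
    intro x hx
    by_cases h : x ∈ X1
    · exact Or.inl ⟨hx, h⟩
    · exact Or.inr h
  exact measure_mono_null h3 (measure_union_null hP00 hfull)

end MP4ba111
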