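import Pool.Agent.Lib.MP_4ba111_an.DSmall
import Pool.Agent.Lib.MP_4ba111_an.DPast

/-! The clock lemma. -/

set_option autoImplicit false

open MeasureTheory Filter Topology
open scoped ENNReal

namespace MP4ba111

variable {X : Type} [MeasurableSpace X] {μ : Measure X} {T : ℝ → X → X}

/-- the rational times at which the section was met in the past -/
def clock_S (T : ℝ → X → X) (D : Set X) (x : X) : Set ℝ :=
  {s : ℝ | ∃ r : ℚ, s = (r : ℝ) ∧ (0 : ℝ) ≤ (r : ℝ) ∧ T (-(r : ℝ)) x ∈ D}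

omit [MeasurableSpace X] in
theorem clock_bdd (D : Set X) (x : X) : BddBelow (clock_S T D x) :=
  ⟨0, by rintro s ⟨r, rfl, hr, -⟩; exact hr⟩

theorem clock_le (hT : IsFlow μ T) {X1 : Set X} {H : ℝ} {D : Set X} (hD : IsSec T X1 H D)
    (hinv : ∀ x ∈ X1, ∀ t, T t x ∈ X1) {y : X} (hy : y ∈ X1) {a : ℝ} (ha : 0 ≤ a)
    (h : T (-a) y ∈ D) : (clock_S T D y).Nonempty ∧ sInf (clock_S T D y) ≤ a := by
  obtain ⟨δ, hδ, hδ'⟩ := hD.opn _ (hinv y hy (-a)) h
  have key : ∀ ε : ℝ, 0 < ε → ∃ s ∈ clock_S T D y, s < a + ε := by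
    intro ε hε
    obtain ⟨r, hr1, hr2⟩ := exists_rat_btwn (show a < a + min δ ε by
      have := lt_min hδ hε
      linarith)
    have h1 := min_le_left δ ε
    have h2 := min_le_right δ ε
    refine ⟨(r : ℝ), ⟨r, rfl, by linarith, ?_⟩, by linarith⟩
    have h3 := hδ' (-((r : ℝ) - a)) (by
      rw [abs_neg, abs_of_pos (by linarith)]
      linarith)
    rw [← hT.add] at h3
    have e : -((r : ℝ) - a) + -a = -(r : ℝ) := by ring
    rwa [e] at h3
  refine ⟨?_, ?_⟩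
  · obtain ⟨s, hs, -⟩ := key 1 one_pos
    exact ⟨s, hs⟩
  · refine le_of_forall_pos_le_add fun ε hε => ?_
    obtain ⟨s, hs, hs'⟩ := key ε hε
    exact (csInf_le (clock_bdd D y) hs).trans hs'.le

theorem clock_meas (hT : IsFlow μ T) {X1 : Set X} {H : ℝ} {D : Set X} (hD : IsSec T X1 H D) :
    MeasurableSet {x | ∀ s : ℚ, (0 : ℝ) ≤ s → T (-(s : ℝ)) x ∉ D} ∧
      Measurable fun x => sInf (clock_S T D x) := by
  have h1 : ∀ r : ℚ, MeasurableSet {x | T (-(r : ℝ)) x ∈ D} := fun r =>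
    (hT.pres _).measurable hD.meas
  have hP : MeasurableSet {x | ∀ s : ℚ, (0 : ℝ) ≤ s → T (-(s : ℝ)) x ∉ D} := by
    have e : {x | ∀ s : ℚ, (0 : ℝ) ≤ s → T (-(s : ℝ)) x ∉ D} =
        ⋂ s : ℚ, ⋂ _ : (0 : ℝ) ≤ s, {x | T (-(s : ℝ)) x ∈ D}ᶜ := by
      ext x
      simp only [Set.mem_ofPred_eq, Set.mem_iInter, Set.mem_compl_iff]
    rw [e]
    exact MeasurableSet.iInter fun s => MeasurableSet.iInter fun _ => (h1 s).compl
  refine ⟨hP, measurable_of_Iio fun c => ?_⟩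
  have e : (fun x => sInf (clock_S T D x)) ⁻¹' Set.Iio c =
      ({x | ∀ s : ℚ, (0 : ℝ) ≤ s → T (-(s : ℝ)) x ∉ D} ∩ {_x : X | 0 < c}) ∪
        ⋃ r : ℚ, ⋃ _ : (0 : ℝ) ≤ r ∧ (r : ℝ) < c, {x | T (-(r : ℝ)) x ∈ D} := by
    ext x
    simp only [Set.mem_preimage, Set.mem_Iio, Set.mem_union, Set.mem_inter_iff,
      Set.mem_ofPred_eq, Set.mem_iUnion, exists_prop]
    by_cases hne : (clock_S T D x).Nonempty
    · rw [csInf_lt_iff (clock_bdd D x) hne]
      constructor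
      · rintro ⟨s, ⟨r, rfl, hr, hD'⟩, hs⟩
        exact Or.inr ⟨r, ⟨hr, hs⟩, hD'⟩
      · rintro (⟨h2, -⟩ | ⟨r, ⟨hr, hs⟩, hD'⟩)
        · obtain ⟨s, r, rfl, hr, hD'⟩ := hne
          exact absurd hD' (h2 r hr)
        · exact ⟨(r : ℝ), ⟨r, rfl, hr, hD'⟩, hs⟩
    · have h0 : clock_S T D x = ∅ := Set.not_nonempty_iff_eq_empty.1 hne
      rw [h0, Real.sInf_empty]
      constructor
      · intro hc
        refine Or.inl ⟨fun s hs hs' => hne ⟨(s : ℝ), s, rfl, hs, hs'⟩, hc⟩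
      · rintro (⟨-, hc⟩ | ⟨r, ⟨hr, hs⟩, hD'⟩)
        · exact hc
        · exact absurd ⟨(r : ℝ), r, rfl, hr, hD'⟩ hne
  rw [e]
  refine MeasurableSet.union (hP.inter (MeasurableSet.const _)) ?_
  exact MeasurableSet.iUnion fun r => MeasurableSet.iUnion fun _ => h1 r

/-- A clock: a measurable `ρ` which advances with speed one during `[0, L]`, off a small set `W`.

PROOF. Take `K` with `1/K ≤ η`, `H = K (L+1)`, `D` from `exists_sep`, `exists_sec`, and
`ρ x = sInf {s : ℝ | ∃ r : ℚ, s = r ∧ 0 ≤ r ∧ T (-r) x ∈ D}`; measurable: `{ρ < c}` is a countable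
union (the values of the infimum of the empty set are `0`, on a measurable set). `W` = `WW T D L` union
`X1ᶜ` union the null set of `past`. For `x ∉ W` and `t ∈ [0, L]`: no `s ∈ [0, L]` has `T s x ∈ D`
(`mem_WW`). By `hD.opn` the infimum over rational `r` is the infimum over real `r ≥ 0` with
`T (-r) x ∈ D`; for `T t x` it is the infimum of the real `r ≥ 0` with `T (t - r) x ∈ D`, which forces
`r > t`, so it is `t + ρ x`. -/
theorem clock (h : Sys μ T) {L : ℝ} (hL : 0 < L) {η : ℝ} (hη : 0 < η) :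
    ∃ (ρ : X → ℝ) (W : Set X), Measurable ρ ∧ MeasurableSet W ∧ μ W ≤ ENNReal.ofReal η ∧
      ∀ x, x ∉ W → ∀ t ∈ Set.Icc 0 L, ρ (T t x) = ρ x + t := by
  have hT := h.flow
  obtain ⟨g, X1, hS⟩ := exists_sep h
  obtain ⟨K, hK1, hK⟩ : ∃ K : ℕ, 1 ≤ K ∧ (1 : ℝ) / K ≤ η := by
    obtain ⟨n, hn⟩ := exists_nat_one_div_lt hη
    exact ⟨n + 1, by omega, by push_cast; exact hn.le⟩
  have hK0 : (0 : ℝ) < K := by exact_mod_cast hK1
  have hH : 0 < (K : ℝ) * (L + 1) := by positivity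
  obtain ⟨D, hD⟩ := exists_sec hT hS hH
  have hinv := hS.inv
  obtain ⟨hPm, hρm⟩ := clock_meas hT hD
  refine ⟨fun x => sInf (clock_S T D x),
    WW T D L ∪ X1ᶜ ∪ {x | ∀ s : ℚ, (0 : ℝ) ≤ s → T (-(s : ℝ)) x ∉ D}, hρm,
    ((WW_meas hT hD L).union hS.mX.compl).union hPm, ?_, ?_⟩
  · have h1 := WW_small hT h.prob hD hinv hS.full hS.mX hL hK1 le_rfl
    have h2 := past hT h.prob hD hinv hS.full hS.mX
    calc μ (WW T D L ∪ X1ᶜ ∪ {x | ∀ s : ℚ, (0 : ℝ) ≤ s → T (-(s : ℝ)) x ∉ D})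
        ≤ μ (WW T D L) + μ X1ᶜ + μ {x | ∀ s : ℚ, (0 : ℝ) ≤ s → T (-(s : ℝ)) x ∉ D} :=
          (measure_union_le _ _).trans (add_le_add (measure_union_le _ _) le_rfl)
      _ = μ (WW T D L) := by rw [hS.full, h2, add_zero, add_zero]
      _ ≤ ENNReal.ofReal (1 / K) := h1
      _ ≤ ENNReal.ofReal η := ENNReal.ofReal_le_ofReal hK
  · intro x hx t ht
    rw [Set.mem_union, Set.mem_union, not_or, not_or] at hx
    obtain ⟨⟨hxW, hxX⟩, hxP⟩ := hx
    have hxX : x ∈ X1 := not_not.1 hxX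
    have hne : (clock_S T D x).Nonempty := by
      by_contra hcon
      exact hxP fun s hs hs' => hcon ⟨(s : ℝ), s, rfl, hs, hs'⟩
    -- upper bound
    have hup : ∀ s ∈ clock_S T D x,
        (clock_S T D (T t x)).Nonempty ∧ sInf (clock_S T D (T t x)) ≤ s + t := by
      rintro s ⟨r, rfl, hr, hrD⟩
      refine clock_le hT hD hinv (hinv x hxX t) (add_nonneg hr ht.1) ?_
      rw [← hT.add]
      have e : -((r : ℝ) + t) + t = -(r : ℝ) := by ring
      rw [e]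
      exact hrD
    obtain ⟨s0, hs0⟩ := hne
    have hne' := (hup s0 hs0).1
    have h1 : sInf (clock_S T D (T t x)) - t ≤ sInf (clock_S T D x) :=
      le_csInf ⟨s0, hs0⟩ fun s hs => by
        have := (hup s hs).2
        linarith
    have h2 : sInf (clock_S T D x) + t ≤ sInf (clock_S T D (T t x)) := by
      refine le_csInf hne' ?_
      rintro s ⟨r, rfl, hr, hrD⟩
      rw [← hT.add] at hrD
      have hrt : t < (r : ℝ) := by
        by_contra hcon
        push Not at hcon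
        refine hxW (mem_WW hT hD hinv hL hxX (s := -(r : ℝ) + t) ⟨by linarith, ?_⟩ hrD)
        have := ht.2
        linarith
      have h3 := (clock_le hT hD hinv hxX (a := (r : ℝ) - t) (by linarith) (by
        have e : -((r : ℝ) - t) = -(r : ℝ) + t := by ring
        rw [e]
        exact hrD)).2
      linarith
    show sInf (clock_S T D (T t x)) = sInf (clock_S T D x) + t
    linarith

end MP4ba111
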