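import Pool.Agent.Lib.MP_4ba111_an.Per

/-! The correlation function: bounded, periodic, Lipschitz, mean zero. -/

set_option autoImplicit false

open MeasureTheory Filter Topology

namespace MP4ba111

theorem abs_CC_le {q : ℕ} (hq : 1 ≤ q) (u : ℝ) : |CC q u| ≤ 1 := by
  have h := intervalIntegral.norm_integral_le_of_norm_le_const (a := (0 : ℝ)) (b := 1) (C := 1)
    (f := fun x => phi q x * phi q (x + u)) (fun x _ => by
      rw [norm_mul, Real.norm_eq_abs, Real.norm_eq_abs]
      exact mul_le_one₀ (abs_phi_le hq x) (abs_nonneg _) (abs_phi_le hq (x + u)))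
  rw [sub_zero, abs_one, mul_one, Real.norm_eq_abs] at h
  exact h

theorem CC_periodic (q : ℕ) : Function.Periodic (CC q) 1 := by
  intro u
  unfold CC
  refine intervalIntegral.integral_congr fun x _ => ?_
  show phi q x * phi q (x + (u + 1)) = phi q x * phi q (x + u)
  rw [← add_assoc, phi_periodic q (x + u)]

/-- PROOF. Fubini: `∫_0^1 CC = ∫_0^1 phi x (∫_0^1 phi (x+u) du) dx = 0` by `int_shift`, `int_phi`. -/
theorem int_CC {q : ℕ} (hq : 1 ≤ q) : ∫ u in (0 : ℝ)..1, CC q u = 0 := by
  have hswap : ∫ u in (0 : ℝ)..1, CC q u =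
      ∫ x in (0 : ℝ)..1, ∫ u in (0 : ℝ)..1, phi q x * phi q (x + u) := by
    unfold CC
    simp only [intervalIntegral.integral_of_le zero_le_one]
    refine MeasureTheory.integral_integral_swap ?_
    have hm : Measurable (Function.uncurry fun u x : ℝ => phi q x * phi q (x + u)) :=
      ((phi_meas q).comp measurable_snd).mul
        ((phi_meas q).comp (measurable_snd.add measurable_fst))
    refine Integrable.of_bound hm.aestronglyMeasurable 1 ?_
    filter_upwards with p
    show ‖phi q p.2 * phi q (p.2 + p.1)‖ ≤ 1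
    rw [norm_mul, Real.norm_eq_abs, Real.norm_eq_abs]
    exact mul_le_one₀ (abs_phi_le hq _) (abs_nonneg _) (abs_phi_le hq _)
  rw [hswap]
  have h0 : ∀ x : ℝ, ∫ u in (0 : ℝ)..1, phi q x * phi q (x + u) = 0 := by
    intro x
    rw [intervalIntegral.integral_const_mul]
    have h1 := int_shift (phi_periodic q) x
    simp only [add_comm _ x] at h1
    rw [h1, int_phi hq, mul_zero]
  simp only [h0]
  simp

end MP4ba111
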