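import Pool.Agent.Lib.MP_4ba111_an.DUnion

/-! The section is rarely met, and it was met in the past. -/

set_option autoImplicit false

open MeasureTheory Filter Topology
open scoped ENNReal

namespace MP4ba111

variable {X : Type} [MeasurableSpace X] {μ : Measure X} {T : ℝ → X → X}

/-- The points which meet `D` at a rational time in `[0, L]`. -/
def WW (T : ℝ → X → X) (D : Set X) (L : ℝ) : Set X :=
  {x | ∃ s : ℚ, (0 : ℝ) ≤ s ∧ (s : ℝ) ≤ L ∧ T s x ∈ D}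

/-- PROOF. Countable union. -/
theorem WW_meas (hT : IsFlow μ T) {X1 : Set X} {H : ℝ} {D : Set X} (hD : IsSec T X1 H D) (L : ℝ) :
    MeasurableSet (WW T D L) := by
  have h : WW T D L = ⋃ s : ℚ, ({x | (0 : ℝ) ≤ s} ∩ ({x | (s : ℝ) ≤ L} ∩ (T s) ⁻¹' D)) := by
    ext x
    simp only [WW, Set.mem_setOf_eq, Set.mem_iUnion, Set.mem_inter_iff, Set.mem_preimage]
  rw [h]
  refine MeasurableSet.iUnion fun s => ?_
  exact (MeasurableSet.const _).inter
    ((MeasurableSet.const _).inter ((hT.pres s).measurable hD.meas))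

/-- A rational number of `[0, L]` close to a real number of `[0, L]`. -/
theorem dsmall_rat {L : ℝ} (hL : 0 < L) {s : ℝ} (hs : s ∈ Set.Icc 0 L) {δ : ℝ} (hδ : 0 < δ) :
    ∃ q : ℚ, (0 : ℝ) ≤ q ∧ (q : ℝ) ≤ L ∧ |(q : ℝ) - s| < δ := by
  obtain ⟨h0, h1⟩ := hs
  rcases lt_or_eq_of_le h1 with h | h
  · obtain ⟨q, hq1, hq2⟩ := exists_rat_btwn (show s < min (s + δ) L from lt_min (by linarith) h)
    have h3 : (q : ℝ) < s + δ := lt_of_lt_of_le hq2 (min_le_left _ _)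
    have h4 : (q : ℝ) < L := lt_of_lt_of_le hq2 (min_le_right _ _)
    refine ⟨q, by linarith, h4.le, ?_⟩
    rw [abs_lt]
    constructor <;> linarith
  · obtain ⟨q, hq1, hq2⟩ := exists_rat_btwn (show max (s - δ) 0 < s from
      max_lt (by linarith) (by linarith))
    have h3 : s - δ < (q : ℝ) := lt_of_le_of_lt (le_max_left _ _) hq1
    have h4 : (0 : ℝ) < q := lt_of_le_of_lt (le_max_right _ _) hq1
    refine ⟨q, h4.le, by linarith, ?_⟩
    rw [abs_lt]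
    constructor <;> linarith

/-- PROOF. `hD.opn` at `T s x` and density of `ℚ` in `[0, L]` (`L > 0`). -/
theorem mem_WW (hT : IsFlow μ T) {X1 : Set X} {H : ℝ} {D : Set X} (hD : IsSec T X1 H D)
    (hinv : ∀ x ∈ X1, ∀ t, T t x ∈ X1) {L : ℝ} (hL : 0 < L) {x : X} (hx : x ∈ X1) {s : ℝ}
    (hs : s ∈ Set.Icc 0 L) (h : T s x ∈ D) : x ∈ WW T D L := by
  obtain ⟨δ, hδ, hopn⟩ := hD.opn (T s x) (hinv x hx s) h
  obtain ⟨q, hq0, hqL, hq⟩ := dsmall_rat hL hs hδ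
  refine ⟨q, hq0, hqL, ?_⟩
  have h2 := hopn ((q : ℝ) - s) hq
  rw [← hT.add] at h2
  rwa [sub_add_cancel] at h2

/-- PROOF. The sets `W_k = (T (k (L+1)))⁻¹ (WW) ∩ X1`, `k < K`, are disjoint: if `x ∈ W_k ∩ W_k'`,
`k < k'`, then `T (k(L+1)+s) x, T (k'(L+1)+s') x ∈ D` with `s, s' ∈ [0, L]`, and the time difference
`d = (k'-k)(L+1) + s' - s` lies in `[1, K(L+1)] ⊆ [1, H+1]`, against `hD.sep` for the second point.
All have the same measure as `WW` (`hT.pres`, `X1` conull), so `K * μ WW ≤ 1`. -/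
theorem dsmall_disj (hT : IsFlow μ T) {X1 : Set X} {H : ℝ} {D : Set X}
    (hD : IsSec T X1 H D) (hinv : ∀ x ∈ X1, ∀ t, T t x ∈ X1) {L : ℝ} {K : ℕ}
    (hKH : (K : ℝ) * (L + 1) ≤ H) (hL : 0 < L) {x : X} (hx : x ∈ X1) {k k' : ℕ} (hkk : k < k')
    (hk' : k' < K) (h1 : T (k * (L + 1)) x ∈ WW T D L) (h2 : T (k' * (L + 1)) x ∈ WW T D L) :
    False := by
  obtain ⟨s, hs0, hsL, hs⟩ := h1
  obtain ⟨s', hs0', hsL', hs'⟩ := h2
  rw [← hT.add] at hs hs'
  have hk1 : (k : ℝ) + 1 ≤ k' := by exact_mod_cast hkk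
  have hk2 : (k' : ℝ) + 1 ≤ K := by exact_mod_cast hk'
  have hk0 : (0 : ℝ) ≤ k := Nat.cast_nonneg k
  set d : ℝ := ((s' : ℝ) + k' * (L + 1)) - ((s : ℝ) + k * (L + 1)) with hd
  have hd1 : 1 ≤ d := by
    have : (k' : ℝ) * (L + 1) ≥ (k + 1) * (L + 1) := mul_le_mul_of_nonneg_right hk1 (by linarith)
    rw [hd]
    linarith
  have hd2 : d ≤ H + 1 := by
    have h3 : ((k' : ℝ) + 1) * (L + 1) ≤ K * (L + 1) := mul_le_mul_of_nonneg_right hk2 (by linarith)
    have h4 : 0 ≤ (k : ℝ) * (L + 1) := mul_nonneg hk0 (by linarith)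
    rw [hd]
    linarith
  apply hD.sep _ (hinv x hx ((s' : ℝ) + k' * (L + 1))) hs' d ⟨hd1, hd2⟩
  rw [← hT.add]
  have : -d + ((s' : ℝ) + k' * (L + 1)) = (s : ℝ) + k * (L + 1) := by rw [hd]; ring
  rw [this]
  exact hs

/-- PROOF. The sets `W_k = (T (k (L+1)))⁻¹ (WW) ∩ X1`, `k < K`, are disjoint: if `x ∈ W_k ∩ W_k'`,
`k < k'`, then `T (k(L+1)+s) x, T (k'(L+1)+s') x ∈ D` with `s, s' ∈ [0, L]`, and the time difference
`d = (k'-k)(L+1) + s' - s` lies in `[1, K(L+1)] ⊆ [1, H+1]`, against `hD.sep` for the second point.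
All have the same measure as `WW` (`hT.pres`, `X1` conull), so `K * μ WW ≤ 1`. -/
theorem WW_small (hT : IsFlow μ T) (hμ : IsProbabilityMeasure μ) {X1 : Set X} {H : ℝ} {D : Set X}
    (hD : IsSec T X1 H D) (hinv : ∀ x ∈ X1, ∀ t, T t x ∈ X1) (hfull : μ X1ᶜ = 0)
    (hmX : MeasurableSet X1) {L : ℝ} (hL : 0 < L) {K : ℕ} (hK : 1 ≤ K)
    (hKH : (K : ℝ) * (L + 1) ≤ H) : μ (WW T D L) ≤ ENNReal.ofReal (1 / K) := by
  classical
  have hWm : MeasurableSet (WW T D L) := WW_meas hT hD L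
  let W : ℕ → Set X := fun k => (T (k * (L + 1))) ⁻¹' (WW T D L) ∩ X1
  have hWmeas : ∀ k, MeasurableSet (W k) := fun k =>
    ((hT.pres _).measurable hWm).inter hmX
  have hWμ : ∀ k, μ (W k) = μ (WW T D L) := by
    intro k
    have h1 : μ (W k) = μ ((T (k * (L + 1))) ⁻¹' (WW T D L)) :=
      measure_inter_conull hfull
    rw [h1]
    exact (hT.pres _).measure_preimage hWm.nullMeasurableSet
  have hdisj : Set.PairwiseDisjoint (↑(Finset.range K)) W := by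
    intro i hi j hj hij
    have hi' : i < K := Finset.mem_range.mp (Finset.mem_coe.mp hi)
    have hj' : j < K := Finset.mem_range.mp (Finset.mem_coe.mp hj)
    change Disjoint (W i) (W j)
    rw [Set.disjoint_left]
    intro x hxi hxj
    rcases lt_or_gt_of_ne hij with h | h
    · exact dsmall_disj hT hD hinv hKH hL hxi.2 h hj' hxi.1 hxj.1
    · exact dsmall_disj hT hD hinv hKH hL hxi.2 h hi' hxj.1 hxi.1
  have hsum : μ (⋃ k ∈ Finset.range K, W k) = ∑ k ∈ Finset.range K, μ (W k) :=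
    measure_biUnion_finset hdisj fun k _ => hWmeas k
  have hle : (K : ℝ≥0∞) * μ (WW T D L) ≤ 1 := by
    have h1 : ∑ k ∈ Finset.range K, μ (W k) = (K : ℝ≥0∞) * μ (WW T D L) := by
      rw [Finset.sum_congr rfl fun k _ => hWμ k, Finset.sum_const, Finset.card_range,
        nsmul_eq_mul]
    rw [← h1, ← hsum]
    exact prob_le_one
  have hK0 : (K : ℝ≥0∞) ≠ 0 := by
    have : K ≠ 0 := by omega
    exact_mod_cast this
  have hKt : (K : ℝ≥0∞) ≠ ∞ := ENNReal.natCast_ne_top K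
  have hKr : (0 : ℝ) < K := by exact_mod_cast (by omega : 0 < K)
  have h2 : ENNReal.ofReal (1 / K) = (K : ℝ≥0∞)⁻¹ := by
    rw [one_div, ENNReal.ofReal_inv_of_pos hKr, ENNReal.ofReal_natCast]
  rw [h2]
  rw [ENNReal.le_inv_iff_mul_le, mul_comm]
  exact hle

end MP4ba111
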