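import Pool.Agent.Lib.MP_4ba111_an.DsetB

/-! One measurable set met by all orbits, open and separated along the orbits. -/

set_option autoImplicit false

open MeasureTheory Filter Topology
open scoped ENNReal

namespace MP4ba111

variable {X : Type} [MeasurableSpace X] {μ : Measure X} {T : ℝ → X → X}

/-- The properties of the section. -/
structure IsSec (T : ℝ → X → X) (X1 : Set X) (H : ℝ) (D : Set X) : Prop where
  meas : MeasurableSet D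
  opn : ∀ x ∈ X1, x ∈ D → ∃ δ : ℝ, 0 < δ ∧ ∀ h : ℝ, |h| < δ → T h x ∈ D
  sep : ∀ x ∈ X1, x ∈ D → ∀ s ∈ Set.Icc (1 : ℝ) (H + 1), T (-s) x ∉ D
  hit : ∀ x ∈ X1, ∃ t : ℝ, T t x ∈ D

/-- `x` has a rational time with `T s x ∈ S`. -/
def dunion_Z (T : ℝ → X → X) (S : Set X) : Set X := {x | ∃ s : ℚ, T (s : ℝ) x ∈ S}

theorem dunion_Z_meas (hT : IsFlow μ T) {S : Set X} (hS : MeasurableSet S) :
    MeasurableSet (dunion_Z T S) := by
  have e : dunion_Z T S = ⋃ s : ℚ, (T (s : ℝ)) ⁻¹' S := by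
    ext x
    simp [dunion_Z]
  rw [e]
  exact MeasurableSet.iUnion fun s => (hT.pres (s : ℝ)).measurable hS

/-- For points of `X1` rational times and real times are the same. -/
theorem dunion_Z_iff (hT : IsFlow μ T) {X1 S : Set X} (inv : ∀ x ∈ X1, ∀ t, T t x ∈ X1)
    (opn : ∀ x ∈ X1, x ∈ S → ∃ δ : ℝ, 0 < δ ∧ ∀ h : ℝ, |h| < δ → T h x ∈ S) {x : X} (hx : x ∈ X1) :
    x ∈ dunion_Z T S ↔ ∃ t : ℝ, T t x ∈ S := by
  constructor
  · rintro ⟨s, hs⟩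
    exact ⟨s, hs⟩
  · rintro ⟨t, ht⟩
    obtain ⟨δ, hδ, h⟩ := opn _ (inv x hx t) ht
    obtain ⟨q, hq1, hq2⟩ := exists_rat_btwn (show t < t + δ by linarith)
    refine ⟨q, ?_⟩
    have h1 := h ((q : ℝ) - t) (by rw [abs_lt]; constructor <;> linarith)
    rw [← hT.add, sub_add_cancel] at h1
    exact h1

theorem dunion_Z_inv (hT : IsFlow μ T) {X1 S : Set X} (inv : ∀ x ∈ X1, ∀ t, T t x ∈ X1)
    (opn : ∀ x ∈ X1, x ∈ S → ∃ δ : ℝ, 0 < δ ∧ ∀ h : ℝ, |h| < δ → T h x ∈ S) {x : X} (hx : x ∈ X1)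
    (t : ℝ) : T t x ∈ dunion_Z T S ↔ x ∈ dunion_Z T S := by
  rw [dunion_Z_iff hT inv opn hx, dunion_Z_iff hT inv opn (inv x hx t)]
  constructor
  · rintro ⟨u, hu⟩
    refine ⟨u + t, ?_⟩
    rw [hT.add]
    exact hu
  · rintro ⟨u, hu⟩
    refine ⟨u - t, ?_⟩
    rw [← hT.add, sub_add_cancel]
    exact hu

/-- The set glued from countably many sets `D j`. -/
theorem dunion_glue (hT : IsFlow μ T) {X1 : Set X} (inv : ∀ x ∈ X1, ∀ t, T t x ∈ X1) {H : ℝ}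
    (D : ℕ → Set X) (hm : ∀ j, MeasurableSet (D j))
    (opn : ∀ j, ∀ x ∈ X1, x ∈ D j → ∃ δ : ℝ, 0 < δ ∧ ∀ h : ℝ, |h| < δ → T h x ∈ D j)
    (sep : ∀ j, ∀ x ∈ X1, x ∈ D j → ∀ s ∈ Set.Icc (1 : ℝ) (H + 1), T (-s) x ∉ D j)
    (cov : ∀ x ∈ X1, ∃ j, x ∈ D j) : ∃ E : Set X, IsSec T X1 H E := by
  classical
  let Z : ℕ → Set X := fun j => dunion_Z T (D j)
  have hZm : ∀ j, MeasurableSet (Z j) := fun j => dunion_Z_meas hT (hm j)
  have hZi : ∀ j, ∀ x ∈ X1, ∀ t, (T t x ∈ Z j ↔ x ∈ Z j) := fun j x hx t =>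
    dunion_Z_inv hT inv (opn j) hx t
  let Y : ℕ → Set X := fun j => Z j ∩ ⋂ i : ℕ, ⋂ _ : i < j, (Z i)ᶜ
  have hY : ∀ j x, x ∈ Y j ↔ x ∈ Z j ∧ ∀ i < j, x ∉ Z i := by
    intro j x
    simp [Y]
  have hYm : ∀ j, MeasurableSet (Y j) := fun j =>
    (hZm j).inter (MeasurableSet.iInter fun i => MeasurableSet.iInter fun _ => (hZm i).compl)
  have hYi : ∀ j, ∀ x ∈ X1, ∀ t, (T t x ∈ Y j ↔ x ∈ Y j) := by
    intro j x hx t
    rw [hY, hY, hZi j x hx t]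
    constructor
    · rintro ⟨h1, h2⟩
      exact ⟨h1, fun i hi h3 => h2 i hi ((hZi i x hx t).2 h3)⟩
    · rintro ⟨h1, h2⟩
      exact ⟨h1, fun i hi h3 => h2 i hi ((hZi i x hx t).1 h3)⟩
  have hYd : ∀ i j x, x ∈ Y i → x ∈ Y j → i = j := by
    intro i j x hi hj
    rw [hY] at hi hj
    rcases lt_trichotomy i j with h | h | h
    · exact absurd hi.1 (hj.2 i h)
    · exact h
    · exact absurd hj.1 (hi.2 j h)
  refine ⟨⋃ j, D j ∩ Y j, ?_, ?_, ?_, ?_⟩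
  · exact MeasurableSet.iUnion fun j => (hm j).inter (hYm j)
  · intro x hx hD
    obtain ⟨j, hj1, hj2⟩ := Set.mem_iUnion.1 hD
    obtain ⟨δ, hδ, h⟩ := opn j x hx hj1
    exact ⟨δ, hδ, fun u hu => Set.mem_iUnion.2 ⟨j, h u hu, (hYi j x hx u).2 hj2⟩⟩
  · intro x hx hD s hs hE
    obtain ⟨j, hj1, hj2⟩ := Set.mem_iUnion.1 hD
    obtain ⟨i, hi1, hi2⟩ := Set.mem_iUnion.1 hE
    have hij : i = j := hYd i j x ((hYi i x hx (-s)).1 hi2) hj2
    subst hij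
    exact sep i x hx hj1 s hs hi1
  · intro x hx
    have hex : ∃ j, x ∈ Z j := by
      obtain ⟨j, hj⟩ := cov x hx
      refine ⟨j, (dunion_Z_iff hT inv (opn j) hx).2 ⟨0, ?_⟩⟩
      rw [hT.zero]
      exact hj
    have h1 : x ∈ Y (Nat.find hex) := by
      rw [hY]
      exact ⟨Nat.find_spec hex, fun i hi => Nat.find_min hex hi⟩
    obtain ⟨t, ht⟩ := (dunion_Z_iff hT inv (opn (Nat.find hex)) hx).1 (Nat.find_spec hex)
    exact ⟨t, Set.mem_iUnion.2 ⟨Nat.find hex, ht, (hYi _ x hx t).2 h1⟩⟩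

/-- PROOF. Enumerate the countable family of all `Dset T g H F c e` (`F : Finset ℕ`, `c : ℕ →₀ ℚ`,
`e : ℚ`) as `D j`, `j : ℕ`. Let `Y j = {x | (∃ s : ℚ, T s x ∈ D j) ∧ ∀ i < j, ∀ s : ℚ, T s x ∉ D i}`
and `D = ⋃ j, D j ∩ Y j`, measurable. For `x ∈ X1` the conditions with rational `s` are equivalent to
those with real `s` (`Dset_open` at the point `T s x ∈ X1`), so `x ∈ Y j ↔ T t x ∈ Y j`; each
`x ∈ X1` lies in `Y j` for exactly one `j` (`Nat.find`, `Dset_cover`), and then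
`T t x ∈ D ↔ T t x ∈ D j`. -/
theorem exists_sec (hT : IsFlow μ T) {g : ℕ → X → ℝ} {X1 : Set X} (hS : SepData μ T g X1) {H : ℝ}
    (hH : 0 < H) : ∃ D : Set X, IsSec T X1 H D := by
  obtain ⟨σ, hσ⟩ := exists_surjective_nat (Finset ℕ × (ℕ →₀ ℚ) × ℚ)
  refine dunion_glue hT hS.inv (H := H)
    (fun j => Dset T g H (σ j).1 (fun i => (σ j).2.1 i) (σ j).2.2)
    (fun j => Dset_meas hT hS H _ _ _)
    (fun j x hx hD => Dset_open hT hS H _ _ _ x hx hD)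
    (fun j x hx hD s hs => Dset_sep hT hS hH _ _ _ x hx hD s hs) ?_
  intro x hx
  obtain ⟨F, c, e, h⟩ := Dset_cover hT hS hH x hx
  obtain ⟨j, hj⟩ := hσ (F, c, e)
  refine ⟨j, ?_⟩
  show x ∈ Dset T g H (σ j).1 (fun i => (σ j).2.1 i) (σ j).2.2
  rw [hj]
  exact h

end MP4ba111
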