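import Mathlib

/-!
Ergodic averages along `n ^ α` (MP_4ba111_an): definitions.
-/

set_option autoImplicit false

open MeasureTheory Filter Topology
open scoped ENNReal

namespace MP4ba111

variable {X : Type}

/-- There is a measurable real valued function which is injective off a null set. -/
def Separated [MeasurableSpace X] (μ : Measure X) : Prop :=
  ∃ f : X → ℝ, Measurable f ∧ ∃ X0 : Set X, μ X0ᶜ = 0 ∧ Set.InjOn f X0

/-- `(T_t)` is a measurable flow that preserves `μ`. -/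
structure IsFlow [MeasurableSpace X] (μ : Measure X) (T : ℝ → X → X) : Prop where
  zero : ∀ x, T 0 x = x
  add : ∀ s t x, T (s + t) x = T s (T t x)
  meas : NullMeasurable (fun p : X × ℝ => T p.2 p.1) (μ.prod volume)
  pres : ∀ t, MeasurePreserving (T t) μ μ

/-- The flow is aperiodic: `μ {x : T_t x = T_s x for some t ≠ s} = 0`. -/
def Aperiodic [MeasurableSpace X] (μ : Measure X) (T : ℝ → X → X) : Prop :=
  μ {x | ∃ s t : ℝ, s ≠ t ∧ T s x = T t x} = 0

/-- A complete probability space with a measurable function injective off a null set, and an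
aperiodic measure preserving flow on it. -/
structure Sys [MeasurableSpace X] (μ : Measure X) (T : ℝ → X → X) : Prop where
  prob : IsProbabilityMeasure μ
  complete : μ.IsComplete
  sep : Separated μ
  flow : IsFlow μ T
  aper : Aperiodic μ T

/-- The averages `A_N f (x) = (1/N) ∑_{n=1}^N f (T_{s_n} x)`. -/
noncomputable def A (T : ℝ → X → X) (s : ℕ → ℝ) (f : X → ℝ) (N : ℕ) (x : X) : ℝ :=
  (∑ n ∈ Finset.Icc 1 N, f (T (s n) x)) / N

/-- Strong sweeping out, in the strong form with `limsup = 1` and `liminf = 0`. -/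
def StrongSweepingOut (s : ℕ → ℝ) : Prop :=
  ∀ (X : Type) [MeasurableSpace X] (μ : Measure X) (T : ℝ → X → X), Sys μ T →
    ∀ ε : ℝ≥0∞, 0 < ε → ∃ E : Set X, MeasurableSet E ∧ μ E < ε ∧
      ∀ᵐ x ∂μ, limsup (fun N => A T s (E.indicator 1) N x) atTop = 1 ∧
        liminf (fun N => A T s (E.indicator 1) N x) atTop = 0

/-- `(s_n)` is universally bad in `L^p`. -/
def UniversallyBad (p : ℝ≥0∞) (s : ℕ → ℝ) : Prop :=
  ∀ (X : Type) [MeasurableSpace X] (μ : Measure X) (T : ℝ → X → X), Sys μ T →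
    ∃ f : X → ℝ, MemLp f p μ ∧
      ∀ᵐ x ∂μ, ¬ ∃ l : ℝ, Tendsto (fun N => A T s f N x) atTop (𝓝 l)

/-- The distance to the nearest integer. -/
noncomputable def dz (x : ℝ) : ℝ := |x - round x|

/-- The number of `m ∈ [1, n]` with `r + s_m ∈ B`. -/
noncomputable def hits (s : ℕ → ℝ) (B : Set ℝ) (n : ℕ) (r : ℝ) : ℝ :=
  ∑ m ∈ Finset.Icc 1 n, B.indicator 1 (r + s m)

/-- The number of `m ∈ [1, n]` with `T_{s_m} x ∈ E`. -/
noncomputable def hitsX (T : ℝ → X → X) (s : ℕ → ℝ) (E : Set X) (n : ℕ) (x : X) : ℝ :=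
  ∑ m ∈ Finset.Icc 1 n, E.indicator 1 (T (s m) x)

/-- The property on the real line: there are sets `B`, `G` of small density such that each point
outside `G` sees `B` for almost all `m ≤ n`, for some `n` between `N0` and `N1`. -/
def RProp (s : ℕ → ℝ) : Prop :=
  ∀ ε : ℝ, 0 < ε → ∀ N0 : ℕ, ∃ (B G : Set ℝ) (L : ℝ) (N1 : ℕ), MeasurableSet B ∧ MeasurableSet G ∧
    0 < L ∧ (∀ a : ℝ, volume (B ∩ Set.Icc a (a + L)) ≤ ENNReal.ofReal (ε * L)) ∧
    (∀ a : ℝ, volume (G ∩ Set.Icc a (a + L)) ≤ ENNReal.ofReal (ε * L)) ∧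
    ∀ r, r ∉ G → ∃ n : ℕ, 1 ≤ n ∧ N0 ≤ n ∧ n ≤ N1 ∧ (1 - ε) * n ≤ hits s B n r

/-- The stage property for one flow. -/
def StageProp [MeasurableSpace X] (μ : Measure X) (T : ℝ → X → X) (s : ℕ → ℝ) : Prop :=
  ∀ ε : ℝ, 0 < ε → ∀ N0 : ℕ, ∃ (E : Set X) (N1 : ℕ), MeasurableSet E ∧
    μ E ≤ ENNReal.ofReal ε ∧
    μ {x | ∀ n : ℕ, 1 ≤ n → N0 ≤ n → n ≤ N1 → hitsX T s E n x < (1 - ε) * n} ≤
      ENNReal.ofReal ε

end MP4ba111
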