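import Pool.Agent.Lib.MP_4ba111_an.Defs

/-! The measure of `ρ⁻¹ B` for a clock `ρ`. -/

set_option autoImplicit false

open MeasureTheory Filter Topology
open scoped ENNReal

namespace MP4ba111

variable {X : Type} [MeasurableSpace X] {μ : Measure X} {T : ℝ → X → X}

/-- PROOF. For every `t` we have `μ (ρ⁻¹ B) = μ {x | ρ (T t x) ∈ B}` (`h.flow.pres t`), so
`L * μ (ρ⁻¹ B) = ∫⁻ t in Icc 0 L, μ {x | ρ (T t x) ∈ B} = ∫⁻ x, volume {t ∈ Icc 0 L | ρ (T t x) ∈ B} ∂μ`
(Tonelli for the function `(x, t) ↦ indicator (ρ⁻¹ B) 1 (T t x)`, which is `AEMeasurable` for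
`μ.prod (volume.restrict (Icc 0 L))` by `h.flow.meas`; `lintegral_prod`/`lintegral_lintegral_swap`).
For `x ∉ W` the inner measure is `volume {t ∈ Icc 0 L | ρ x + t ∈ B} = volume (B ∩ Icc (ρ x) (ρ x + L))
≤ ε L` (translation), for `x ∈ W` it is at most `L`. So `L μ (ρ⁻¹ B) ≤ ε L + L η`. -/
theorem dens (h : Sys μ T) {ρ : X → ℝ} {W : Set X} (hρ : Measurable ρ) (hW : MeasurableSet W)
    {L' L η ε : ℝ} (hL : 0 < L) (hLL : L ≤ L') (hη : 0 ≤ η) (hε : 0 ≤ ε)
    (hμW : μ W ≤ ENNReal.ofReal η) (hc : ∀ x, x ∉ W → ∀ t ∈ Set.Icc 0 L', ρ (T t x) = ρ x + t)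
    {B : Set ℝ} (hB : MeasurableSet B)
    (hd : ∀ a : ℝ, volume (B ∩ Set.Icc a (a + L)) ≤ ENNReal.ofReal (ε * L)) :
    μ (ρ ⁻¹' B) ≤ ENNReal.ofReal (ε + η) := by
  have := h.prob
  set S : Set X := ρ ⁻¹' B with hSdef
  have hS : MeasurableSet S := hρ hB
  set ν : Measure ℝ := volume.restrict (Set.Icc 0 L) with hν
  have hνu : ν Set.univ = ENNReal.ofReal L := by
    rw [hν, Measure.restrict_apply_univ, Real.volume_Icc, sub_zero]
  have : IsFiniteMeasure ν := ⟨by rw [hνu]; exact ENNReal.ofReal_lt_top⟩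
  have hnull : NullMeasurableSet {p : X × ℝ | T p.2 p.1 ∈ S} (μ.prod ν) := by
    have h1 : NullMeasurableSet {p : X × ℝ | T p.2 p.1 ∈ S} (μ.prod volume) := h.flow.meas hS
    have h2 : μ.prod ν = (μ.prod volume).restrict (Set.univ ×ˢ Set.Icc 0 L) := by
      rw [← Measure.prod_restrict, Measure.restrict_univ]
    rw [h2]
    exact h1.mono Measure.restrict_le_self
  have hae : AEMeasurable (Function.uncurry fun (x : X) (t : ℝ) =>
      ({p : X × ℝ | T p.2 p.1 ∈ S}).indicator (fun _ => (1 : ℝ≥0∞)) (x, t)) (μ.prod ν) :=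
    (aemeasurable_const (b := (1 : ℝ≥0∞))).indicator₀ hnull
  have hswap := lintegral_lintegral_swap hae
  have hR : ∫⁻ t, ∫⁻ x, ({p : X × ℝ | T p.2 p.1 ∈ S}).indicator (fun _ => (1 : ℝ≥0∞)) (x, t) ∂μ ∂ν
      = μ S * ENNReal.ofReal L := by
    have h1 : ∀ t : ℝ, ∫⁻ x, ({p : X × ℝ | T p.2 p.1 ∈ S}).indicator
        (fun _ => (1 : ℝ≥0∞)) (x, t) ∂μ = μ S := by
      intro t
      have h2 : (fun x => ({p : X × ℝ | T p.2 p.1 ∈ S}).indicator (fun _ => (1 : ℝ≥0∞)) (x, t)) =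
          (T t ⁻¹' S).indicator (fun _ => (1 : ℝ≥0∞)) := by
        funext x
        by_cases hx : T t x ∈ S
        · rw [Set.indicator_of_mem (show (x, t) ∈ {p : X × ℝ | T p.2 p.1 ∈ S} from hx),
            Set.indicator_of_mem (show x ∈ T t ⁻¹' S from hx)]
        · rw [Set.indicator_of_notMem (show (x, t) ∉ {p : X × ℝ | T p.2 p.1 ∈ S} from hx),
            Set.indicator_of_notMem (show x ∉ T t ⁻¹' S from hx)]
      rw [h2, lintegral_indicator_const ((h.flow.pres t).measurable hS), one_mul]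
      exact (h.flow.pres t).measure_preimage hS.nullMeasurableSet
    simp only [h1]
    rw [lintegral_const, hνu]
  have hL1 : ∀ x : X, ∫⁻ t, ({p : X × ℝ | T p.2 p.1 ∈ S}).indicator (fun _ => (1 : ℝ≥0∞)) (x, t) ∂ν
      ≤ ENNReal.ofReal (ε * L) + W.indicator (fun _ => ENNReal.ofReal L) x := by
    intro x
    by_cases hx : x ∈ W
    · rw [Set.indicator_of_mem hx]
      calc ∫⁻ t, ({p : X × ℝ | T p.2 p.1 ∈ S}).indicator (fun _ => (1 : ℝ≥0∞)) (x, t) ∂ν
          ≤ ∫⁻ _, (1 : ℝ≥0∞) ∂ν := lintegral_mono fun t =>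
            Set.indicator_le_self' (fun _ _ => zero_le) (x, t)
        _ = ENNReal.ofReal L := by rw [lintegral_const, one_mul, hνu]
        _ ≤ _ := le_add_self
    · rw [Set.indicator_of_notMem hx, add_zero]
      have h1 : ∫⁻ t, ({p : X × ℝ | T p.2 p.1 ∈ S}).indicator (fun _ => (1 : ℝ≥0∞)) (x, t) ∂ν =
          ∫⁻ t, ((fun t => ρ x + t) ⁻¹' B).indicator (fun _ => (1 : ℝ≥0∞)) t ∂ν := by
        rw [hν]
        refine setLIntegral_congr_fun measurableSet_Icc ?_
        intro t ht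
        have h2 : ρ (T t x) = ρ x + t := hc x hx t ⟨ht.1, ht.2.trans hLL⟩
        by_cases hb : ρ x + t ∈ B
        · have h4 : T t x ∈ S := by
            change ρ (T t x) ∈ B
            rw [h2]
            exact hb
          change ({p : X × ℝ | T p.2 p.1 ∈ S}).indicator (fun _ => (1 : ℝ≥0∞)) (x, t) =
            ((fun t => ρ x + t) ⁻¹' B).indicator (fun _ => (1 : ℝ≥0∞)) t
          rw [Set.indicator_of_mem (show (x, t) ∈ {p : X × ℝ | T p.2 p.1 ∈ S} from h4),
            Set.indicator_of_mem (show t ∈ (fun t => ρ x + t) ⁻¹' B from hb)]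
        · have h4 : T t x ∉ S := by
            intro h5
            change ρ (T t x) ∈ B at h5
            rw [h2] at h5
            exact hb h5
          change ({p : X × ℝ | T p.2 p.1 ∈ S}).indicator (fun _ => (1 : ℝ≥0∞)) (x, t) =
            ((fun t => ρ x + t) ⁻¹' B).indicator (fun _ => (1 : ℝ≥0∞)) t
          rw [Set.indicator_of_notMem (show (x, t) ∉ {p : X × ℝ | T p.2 p.1 ∈ S} from h4),
            Set.indicator_of_notMem (show t ∉ (fun t => ρ x + t) ⁻¹' B from hb)]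
      have hm : MeasurableSet ((fun t => ρ x + t) ⁻¹' B) := (measurable_const_add (ρ x)) hB
      rw [h1, lintegral_indicator_const hm, one_mul, hν, Measure.restrict_apply hm]
      have h3 : (fun t => ρ x + t) ⁻¹' B ∩ Set.Icc 0 L =
          (fun t => ρ x + t) ⁻¹' (B ∩ Set.Icc (ρ x) (ρ x + L)) := by
        ext t
        simp only [Set.mem_inter_iff, Set.mem_preimage, Set.mem_Icc]
        constructor
        · rintro ⟨a, b, c⟩
          exact ⟨a, by linarith, by linarith⟩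
        · rintro ⟨a, b, c⟩
          exact ⟨a, by linarith, by linarith⟩
      rw [h3, measure_preimage_add]
      exact hd (ρ x)
  have hLHS : ∫⁻ x, ∫⁻ t, ({p : X × ℝ | T p.2 p.1 ∈ S}).indicator
      (fun _ => (1 : ℝ≥0∞)) (x, t) ∂ν ∂μ ≤ ENNReal.ofReal (ε + η) * ENNReal.ofReal L := by
    calc ∫⁻ x, ∫⁻ t, ({p : X × ℝ | T p.2 p.1 ∈ S}).indicator
          (fun _ => (1 : ℝ≥0∞)) (x, t) ∂ν ∂μ
        ≤ ∫⁻ x, (ENNReal.ofReal (ε * L) + W.indicator (fun _ => ENNReal.ofReal L) x) ∂μ :=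
          lintegral_mono hL1
      _ = ENNReal.ofReal (ε * L) + ENNReal.ofReal L * μ W := by
          rw [lintegral_add_left measurable_const, lintegral_const, measure_univ, mul_one,
            lintegral_indicator_const hW]
      _ ≤ ENNReal.ofReal (ε * L) + ENNReal.ofReal L * ENNReal.ofReal η := by gcongr
      _ = ENNReal.ofReal (ε + η) * ENNReal.ofReal L := by
          rw [← ENNReal.ofReal_mul hL.le, ← ENNReal.ofReal_add (mul_nonneg hε hL.le)
            (mul_nonneg hL.le hη), ← ENNReal.ofReal_mul (add_nonneg hε hη)]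
          congr 1
          ring
  rw [hswap, hR] at hLHS
  have hLpos : ENNReal.ofReal L ≠ 0 := by
    rw [Ne, ENNReal.ofReal_eq_zero, not_le]
    exact hL
  exact (ENNReal.mul_le_mul_iff_left hLpos ENNReal.ofReal_ne_top).1 hLHS

end MP4ba111
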