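import Pool.Agent.Lib.MP_4ba111_an.Sep

/-! The sets `Dset`: measurable, open along orbits, separated along orbits. -/

set_option autoImplicit false

open MeasureTheory Filter Topology
open scoped ENNReal

namespace MP4ba111

variable {X : Type} [MeasurableSpace X] {μ : Measure X} {T : ℝ → X → X}

/-- Points in a box around `c` (in the coordinates `F`), whose orbit was away from the closed box at
all times in `[-(H+1), -1]`. -/
def Dset (T : ℝ → X → X) (g : ℕ → X → ℝ) (H : ℝ) (F : Finset ℕ) (c : ℕ → ℚ) (e : ℚ) : Set X :=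
  {x | (∀ i ∈ F, |g i x - c i| < e) ∧ ∃ k : ℕ, ∀ s : ℚ, (1 : ℝ) ≤ s → (s : ℝ) ≤ H + 1 →
    ∃ i ∈ F, (e : ℝ) + 1 / ((k : ℝ) + 1) ≤ |g i (T (-(s : ℝ)) x) - c i|}

/-- Small times do not change finitely many strict inequalities. -/
theorem dseta_near {g : ℕ → X → ℝ} {X1 : Set X} (hS : SepData μ T g X1) (F : Finset ℕ)
    (c : ℕ → ℚ) (e : ℚ) (x : X) (hx : x ∈ X1) (s : ℝ)
    (h0 : ∀ i ∈ F, |g i (T (-s) x) - c i| < e) :
    ∃ δ : ℝ, 0 < δ ∧ ∀ s' : ℝ, |s' - s| < δ → ∀ i ∈ F, |g i (T (-s') x) - c i| < e := by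
  have h1 : ∀ i ∈ F, ∀ᶠ s' in 𝓝 s, |g i (T (-s') x) - c i| < e := by
    intro i hi
    have h2 := h0 i hi
    rw [Metric.eventually_nhds_iff]
    refine ⟨(e - |g i (T (-s) x) - c i|) / 2, by linarith, fun s' hs' => ?_⟩
    rw [Real.dist_eq] at hs'
    have h3 := hS.lip i x hx (-s') (-s)
    have h4 : |(-s') - (-s)| = |s' - s| := by
      rw [← abs_neg]
      congr 1
      ring
    rw [h4] at h3
    have h5 : |g i (T (-s') x) - c i| ≤
        |g i (T (-s') x) - g i (T (-s) x)| + |g i (T (-s) x) - c i| := abs_sub_le _ _ _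
    linarith
  have h2 := (Filter.eventually_all_finset F).2 h1
  rw [Metric.eventually_nhds_iff] at h2
  obtain ⟨δ, hδ, h3⟩ := h2
  exact ⟨δ, hδ, fun s' hs' => h3 (by rwa [Real.dist_eq])⟩

/-- PROOF. Countable intersections and unions of measurable sets; `T (-s)` is measurable
(`hT.pres _`). -/
theorem Dset_meas (hT : IsFlow μ T) {g : ℕ → X → ℝ} {X1 : Set X} (hS : SepData μ T g X1) (H : ℝ)
    (F : Finset ℕ) (c : ℕ → ℚ) (e : ℚ) : MeasurableSet (Dset T g H F c e) := by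
  have h1 : Dset T g H F c e = (⋂ i ∈ F, {x | |g i x - c i| < e}) ∩
      ⋃ k : ℕ, ⋂ s : ℚ, ⋂ (_ : (1 : ℝ) ≤ s), ⋂ (_ : (s : ℝ) ≤ H + 1), ⋃ i ∈ F,
        {x | (e : ℝ) + 1 / ((k : ℝ) + 1) ≤ |g i (T (-(s : ℝ)) x) - c i|} := by
    ext x
    simp only [Dset, Set.mem_ofPred_eq, Set.mem_inter_iff, Set.mem_iInter, Set.mem_iUnion,
      exists_prop]
  rw [h1]
  refine MeasurableSet.inter ?_ ?_
  · refine Finset.measurableSet_biInter F fun i _ => ?_
    exact measurableSet_lt (continuous_abs.measurable.comp ((hS.meas i).sub_const _))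
      measurable_const
  · refine MeasurableSet.iUnion fun k => MeasurableSet.iInter fun s => MeasurableSet.iInter
      fun _ => MeasurableSet.iInter fun _ => Finset.measurableSet_biUnion F fun i _ => ?_
    exact measurableSet_le measurable_const (continuous_abs.measurable.comp
      (((hS.meas i).comp (hT.pres (-(s : ℝ))).measurable).sub_const _))

/-- PROOF. The first condition is open along the orbit (finitely many functions, `hS.lip`). Second:
if `e + 1/(k+1) ≤ |g i (T (-s) x) - c i|` then for `|h| ≤ 1/(4(k+1))`,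
`|g i (T (-s) (T h x)) - c i| ≥ e + 1/(k+1) - 2|h| ≥ e + 1/(2k+2)` (`hT.add`, `hS.lip`), so the
condition holds for `T h x` with `2k+1` in place of `k`. -/
theorem Dset_open (hT : IsFlow μ T) {g : ℕ → X → ℝ} {X1 : Set X} (hS : SepData μ T g X1) (H : ℝ)
    (F : Finset ℕ) (c : ℕ → ℚ) (e : ℚ) (x : X) (hx : x ∈ X1) (hD : x ∈ Dset T g H F c e) :
    ∃ δ : ℝ, 0 < δ ∧ ∀ h : ℝ, |h| < δ → T h x ∈ Dset T g H F c e := by
  obtain ⟨h1, k, h2⟩ := hD
  obtain ⟨δ, hδ, h3⟩ := dseta_near (μ := μ) hS F c e x hx 0 (by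
    intro i hi
    rw [neg_zero, hT.zero]
    exact h1 i hi)
  have hk : (0 : ℝ) < (k : ℝ) + 1 := by positivity
  refine ⟨min δ (1 / (4 * ((k : ℝ) + 1))), lt_min hδ (by positivity), fun h hh => ⟨?_, ?_⟩⟩
  · intro i hi
    have h4 := h3 (-h) (by
      rw [sub_zero, abs_neg]
      exact lt_of_lt_of_le hh (min_le_left _ _)) i hi
    rwa [neg_neg] at h4
  · refine ⟨2 * k + 1, fun s hs1 hs2 => ?_⟩
    obtain ⟨i, hi, h4⟩ := h2 s hs1 hs2
    refine ⟨i, hi, ?_⟩
    have h5 : T (-(s : ℝ)) (T h x) = T (-(s : ℝ) + h) x := (hT.add _ _ _).symm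
    rw [h5]
    have h6 := hS.lip i x hx (-(s : ℝ)) (-(s : ℝ) + h)
    have h7 : |-(s : ℝ) - (-(s : ℝ) + h)| = |h| := by
      rw [← abs_neg]
      congr 1
      ring
    rw [h7] at h6
    have h8 : |h| < 1 / (4 * ((k : ℝ) + 1)) := lt_of_lt_of_le hh (min_le_right _ _)
    have h9 : |g i (T (-(s : ℝ)) x) - c i| ≤
        |g i (T (-(s : ℝ)) x) - g i (T (-(s : ℝ) + h) x)| +
          |g i (T (-(s : ℝ) + h) x) - c i| := abs_sub_le _ _ _
    have h10 : 1 / (((2 * k + 1 : ℕ) : ℝ) + 1) = 2 * (1 / (4 * ((k : ℝ) + 1))) := by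
      push_cast
      field_simp
      ring
    have h11 : 1 / ((k : ℝ) + 1) = 4 * (1 / (4 * ((k : ℝ) + 1))) := by
      field_simp
    rw [h10]
    rw [h11] at h4
    linarith

/-- PROOF. `T (-s) x ∈ Dset` gives `|g i (T (-s) x) - c i| < e` for all `i ∈ F`. Take a rational `s'`
in `[1, H+1]` close to `s` (`H > 0`) such that still `|g i (T (-s') x) - c i| < e` (`hS.lip`), against
the second condition for `x` at `s'`. -/
theorem Dset_sep (hT : IsFlow μ T) {g : ℕ → X → ℝ} {X1 : Set X} (hS : SepData μ T g X1) {H : ℝ}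
    (hH : 0 < H) (F : Finset ℕ) (c : ℕ → ℚ) (e : ℚ) (x : X) (hx : x ∈ X1)
    (hD : x ∈ Dset T g H F c e) (s : ℝ) (hs : s ∈ Set.Icc (1 : ℝ) (H + 1)) :
    T (-s) x ∉ Dset T g H F c e := by
  rintro ⟨h1, -⟩
  obtain ⟨-, k, h2⟩ := hD
  obtain ⟨δ, hδ, h3⟩ := dseta_near (μ := μ) hS F c e x hx s h1
  obtain ⟨s', hs1, hs2, hs3⟩ : ∃ s' : ℚ, (1 : ℝ) ≤ s' ∧ (s' : ℝ) ≤ H + 1 ∧ |(s' : ℝ) - s| < δ := by
    rcases lt_or_ge s (H + 1) with h4 | h4
    · obtain ⟨q, hq1, hq2⟩ := exists_rat_btwn (lt_min (lt_add_of_pos_right s hδ) h4)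
      refine ⟨q, hs.1.trans hq1.le, hq2.le.trans (min_le_right _ _), ?_⟩
      have h5 := lt_of_lt_of_le hq2 (min_le_left _ _)
      rw [abs_of_pos (by linarith)]
      linarith
    · have h5 : max 1 (s - δ) < s := max_lt (by linarith) (by linarith)
      obtain ⟨q, hq1, hq2⟩ := exists_rat_btwn h5
      refine ⟨q, (le_max_left _ _).trans hq1.le, hq2.le.trans hs.2, ?_⟩
      have h6 := lt_of_le_of_lt (le_max_right _ _) hq1
      rw [abs_of_neg (by linarith)]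
      linarith
  obtain ⟨i, hi, h4⟩ := h2 s' hs1 hs2
  have h5 := h3 s' hs3 i hi
  have h6 : (0 : ℝ) < 1 / ((k : ℝ) + 1) := by positivity
  linarith

end MP4ba111
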