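import Pool.Agent.Lib.MP_4ba111_an.DsetA

/-! The sets `Dset` cover. -/

set_option autoImplicit false

open MeasureTheory Filter Topology
open scoped ENNReal

namespace MP4ba111

variable {X : Type} [MeasurableSpace X] {μ : Measure X} {T : ℝ → X → X}

/-- compactness: finitely many of the functions separate, uniformly -/
theorem dsetb_unif {g : ℕ → X → ℝ} {X1 : Set X} (hS : SepData μ T g X1) {H : ℝ} (x : X)
    (hx : x ∈ X1) : ∃ (F : Finset ℕ) (a : ℝ), 0 < a ∧ ∀ s ∈ Set.Icc (1 : ℝ) (H + 1),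
      ∃ i ∈ F, a ≤ |g i (T (-s) x) - g i x| := by
  classical
  refine isCompact_Icc.induction_on
    (p := fun S => ∃ (F : Finset ℕ) (a : ℝ), 0 < a ∧ ∀ s ∈ S,
      ∃ i ∈ F, a ≤ |g i (T (-s) x) - g i x|) ⟨∅, 1, one_pos, fun s hs => hs.elim⟩ ?_ ?_ ?_
  · rintro S S' hSS ⟨F, a, ha, h⟩
    exact ⟨F, a, ha, fun s hs => h s (hSS hs)⟩
  · rintro S S' ⟨F, a, ha, h⟩ ⟨F', a', ha', h'⟩
    refine ⟨F ∪ F', min a a', lt_min ha ha', fun s hs => ?_⟩
    rcases hs with hs | hs
    · obtain ⟨i, hi, h1⟩ := h s hs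
      exact ⟨i, Finset.mem_union_left _ hi, (min_le_left _ _).trans h1⟩
    · obtain ⟨i, hi, h1⟩ := h' s hs
      exact ⟨i, Finset.mem_union_right _ hi, (min_le_right _ _).trans h1⟩
  · intro s hs
    obtain ⟨i, hi⟩ := hS.sep x hx (-s) (by have := hs.1; intro h; linarith)
    have ha : 0 < |g i (T (-s) x) - g i x| := abs_pos.2 (sub_ne_zero.2 hi)
    set a := |g i (T (-s) x) - g i x| with hadef
    refine ⟨Metric.ball s (a / 4), mem_nhdsWithin_of_mem_nhds (Metric.ball_mem_nhds s (by linarith)),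
      {i}, a / 2, by linarith, fun s' hs' => ⟨i, Finset.mem_singleton_self i, ?_⟩⟩
    rw [Metric.mem_ball, Real.dist_eq] at hs'
    have h1 := hS.lip i x hx (-s) (-s')
    have h2 : |(-s) - (-s')| = |s' - s| := by
      congr 1
      ring
    rw [h2] at h1
    have h3 : |g i (T (-s) x) - g i x| ≤
        |g i (T (-s) x) - g i (T (-s') x)| + |g i (T (-s') x) - g i x| := abs_sub_le _ _ _
    rw [← hadef] at h3
    linarith

/-- PROOF. For each `s ∈ [1, H+1]` there are `i` and `a > 0` with `|g i (T (-s) x) - g i x| > a`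
(`hS.sep`), and this persists near `s` (`hS.lip`). By compactness of `[1, H+1]` there are a finite set
`F` and `a > 0` with: for each `s ∈ [1, H+1]` some `i ∈ F` has `|g i (T (-s) x) - g i x| > a`. Take a
rational `e` with `0 < e < a/4`, `c i` rational with `|g i x - c i| < e` for `i ∈ F` (and `c i = 0`
outside `F`), and `k` with `1/(k+1) < a/4`: then `|g i (T (-s) x) - c i| > a - e ≥ e + 1/(k+1)`. -/
theorem Dset_cover (hT : IsFlow μ T) {g : ℕ → X → ℝ} {X1 : Set X} (hS : SepData μ T g X1) {H : ℝ}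
    (hH : 0 < H) (x : X) (hx : x ∈ X1) :
    ∃ (F : Finset ℕ) (c : ℕ →₀ ℚ) (e : ℚ), x ∈ Dset T g H F (fun i => c i) e := by
  classical
  obtain ⟨F, a, ha, hF⟩ := dsetb_unif (μ := μ) hS (H := H) x hx
  obtain ⟨e, he1, he2⟩ := exists_rat_btwn (show (0 : ℝ) < a / 4 by linarith)
  have hq : ∀ i, ∃ q : ℚ, |g i x - q| < e := by
    intro i
    obtain ⟨q, hq1, hq2⟩ := exists_rat_btwn (show g i x - e < g i x + e by linarith)
    refine ⟨q, abs_lt.2 ⟨by linarith, by linarith⟩⟩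
  choose q hq using hq
  obtain ⟨k, hk⟩ := exists_nat_one_div_lt (show (0 : ℝ) < a / 4 by linarith)
  refine ⟨F, Finsupp.indicator F (fun i _ => q i), e, ?_, k, ?_⟩
  · intro i hi
    beta_reduce
    rw [Finsupp.indicator_of_mem hi]
    exact hq i
  · intro s hs1 hs2
    obtain ⟨i, hi, h1⟩ := hF s ⟨hs1, hs2⟩
    refine ⟨i, hi, ?_⟩
    beta_reduce
    rw [Finsupp.indicator_of_mem hi]
    have h2 : |g i (T (-(s : ℝ)) x) - g i x| ≤
        |g i (T (-(s : ℝ)) x) - q i| + |(q i : ℝ) - g i x| := abs_sub_le _ _ _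
    have h3 := hq i
    rw [abs_sub_comm] at h3
    linarith

end MP4ba111
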