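import Pool.Agent.Lib.MP_4ba111_an.GlueB

/-! Gluing the stages. -/

set_option autoImplicit false

open MeasureTheory Filter Topology
open scoped ENNReal

namespace MP4ba111

variable {X : Type} [MeasurableSpace X] {μ : Measure X} {T : ℝ → X → X}

/-- Bounds for the averages from the stages. -/
private lemma glue_ge {s : ℕ → ℝ} {E F : Set X} {n : ℕ} {x : X} (hn : 1 ≤ n) {c : ℝ}
    (h : c * n ≤ hitsX T s E n x) (hF : ∀ m ∈ Finset.Icc 1 n, T (s m) x ∈ E → T (s m) x ∈ F) :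
    c ≤ A T s (F.indicator 1) n x := by
  have hn0 : (0 : ℝ) < n := by exact_mod_cast hn
  unfold A
  rw [le_div_iff₀ hn0]
  refine h.trans ?_
  unfold hitsX
  refine Finset.sum_le_sum fun m hm => ?_
  by_cases h1 : T (s m) x ∈ E
  · rw [Set.indicator_of_mem h1, Set.indicator_of_mem (hF m hm h1)]
  · rw [Set.indicator_of_notMem h1]
    exact Set.indicator_nonneg (fun _ _ => zero_le_one) _

private lemma glue_le {s : ℕ → ℝ} {E F : Set X} {n : ℕ} {x : X} (hn : 1 ≤ n) {c : ℝ}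
    (h : (1 - c) * n ≤ hitsX T s E n x)
    (hF : ∀ m ∈ Finset.Icc 1 n, T (s m) x ∈ E → T (s m) x ∉ F) :
    A T s (F.indicator 1) n x ≤ c := by
  have hn0 : (0 : ℝ) < n := by exact_mod_cast hn
  unfold A
  rw [div_le_iff₀ hn0]
  have h1 : (∑ m ∈ Finset.Icc 1 n, F.indicator (1 : X → ℝ) (T (s m) x)) + hitsX T s E n x ≤ n := by
    unfold hitsX
    rw [← Finset.sum_add_distrib]
    calc (∑ m ∈ Finset.Icc 1 n, (F.indicator (1 : X → ℝ) (T (s m) x) +
          E.indicator (1 : X → ℝ) (T (s m) x))) ≤ ∑ m ∈ Finset.Icc 1 n, (1 : ℝ) := by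
          refine Finset.sum_le_sum fun m hm => ?_
          by_cases h1 : T (s m) x ∈ E
          · rw [Set.indicator_of_mem h1, Set.indicator_of_notMem (hF m hm h1), zero_add]
            exact le_of_eq rfl
          · rw [Set.indicator_of_notMem h1, add_zero]
            exact Set.indicator_le_self' (fun _ _ => zero_le_one) _
      _ = n := by simp
  linarith

/-- PROOF. `e = min ε 1` as a real number, positive; `exists_stages`, `ae_stages`. Let
`F = {x | ∃ k, Odd k ∧ x ∈ E k ∧ ∀ i, Even i → k < i → x ∉ E i}`; measurable, and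
`μ F ≤ ∑ μ (E k) ≤ ∑ e / 2 ^ (k + 2) = e / 2 < ε`. For a.e. `x` the conditions of `ae_stages` hold for
all large `k`. Given `δ`, `N0` take such `k ≥ N0` with `1 / 2 ^ k ≤ δ`, odd (even) for the first
(second) claim, and `n` from `ae_stages`. The points `T (s m) x`, `m ≤ n ≤ N k`, are in no `E i`,
`i > k`. If `k` is odd, each `T (s m) x ∈ E k` is in `F`, so `A ≥ (1/n) hitsX (E k) n x ≥ 1 - 1/2^k`. If
`k` is even, each `T (s m) x ∈ E k` is not in `F` (a `k' > k` is excluded by `T (s m) x ∉ E k'`, a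
`k' < k` by `k` itself, and `k' = k` by parity), so `A ≤ 1 - (1/n) hitsX (E k) n x ≤ 1/2^k`. -/
theorem glue (hT : IsFlow μ T) (hμ : IsProbabilityMeasure μ) {s : ℕ → ℝ} (h : StageProp μ T s)
    {ε : ℝ≥0∞} (hε : 0 < ε) : ∃ E : Set X, MeasurableSet E ∧ μ E < ε ∧ ∀ᵐ x ∂μ,
      (∀ δ : ℝ, 0 < δ → ∀ N0 : ℕ, ∃ n, N0 ≤ n ∧ 1 - δ ≤ A T s (E.indicator 1) n x) ∧
      (∀ δ : ℝ, 0 < δ → ∀ N0 : ℕ, ∃ n, N0 ≤ n ∧ A T s (E.indicator 1) n x ≤ δ) := by
  classical
  set e : ℝ := (min ε 1).toReal with he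
  have hmin : min ε 1 ≠ ⊤ := ne_of_lt (lt_of_le_of_lt (min_le_right _ _) ENNReal.one_lt_top)
  have hmin0 : min ε 1 ≠ 0 := (lt_min hε one_pos).ne'
  have he0 : 0 < e := ENNReal.toReal_pos hmin0 hmin
  have he1 : e ≤ 1 := by
    have := ENNReal.toReal_mono ENNReal.one_ne_top (min_le_right ε 1)
    simpa using this
  have heε : ENNReal.ofReal e ≤ ε := by
    rw [he, ENNReal.ofReal_toReal hmin]
    exact min_le_left _ _
  obtain ⟨E, N, hS⟩ := exists_stages h he0 he1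
  have hae := ae_stages hT he0 hS
  set F : Set X := {x | ∃ k, Odd k ∧ x ∈ E k ∧ ∀ i, Even i → k < i → x ∉ E i} with hF
  have hFeq : F = ⋃ k : ℕ, ⋃ _ : Odd k, (E k ∩ ⋂ i : ℕ, ⋂ _ : Even i, ⋂ _ : k < i, (E i)ᶜ) := by
    ext x
    simp only [hF, Set.mem_ofPred_eq, Set.mem_iUnion, Set.mem_inter_iff, Set.mem_iInter,
      Set.mem_compl_iff, exists_prop]
  refine ⟨F, ?_, ?_, ?_⟩
  · rw [hFeq]
    refine MeasurableSet.iUnion fun k => MeasurableSet.iUnion fun _ => (hS.meas k).inter ?_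
    exact MeasurableSet.iInter fun i => MeasurableSet.iInter fun _ => MeasurableSet.iInter fun _ =>
      (hS.meas i).compl
  · have h1 : F ⊆ ⋃ k, E k := by
      rintro x ⟨k, -, hk, -⟩
      exact Set.mem_iUnion.2 ⟨k, hk⟩
    have h2 : ∀ k : ℕ, e / 2 ^ (k + 2) = e / 2 / 2 / 2 ^ k := by
      intro k
      rw [pow_add]
      field_simp
    have h3 : ∑' k : ℕ, ENNReal.ofReal (e / 2 ^ (k + 2)) = ENNReal.ofReal (e / 2) := by
      rw [← ENNReal.ofReal_tsum_of_nonneg]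
      · congr 1
        simp_rw [h2]
        exact tsum_geometric_two' (e / 2)
      · intro k
        positivity
      · simp_rw [h2]
        exact summable_geometric_two' (e / 2)
    calc μ F ≤ μ (⋃ k, E k) := measure_mono h1
      _ ≤ ∑' k, μ (E k) := measure_iUnion_le _
      _ ≤ ∑' k : ℕ, ENNReal.ofReal (e / 2 ^ (k + 2)) := ENNReal.tsum_le_tsum hS.small
      _ = ENNReal.ofReal (e / 2) := h3
      _ < ENNReal.ofReal e := (ENNReal.ofReal_lt_ofReal_iff he0).2 (by linarith)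
      _ ≤ ε := heε
  · filter_upwards [hae] with x hx
    obtain ⟨K, hK⟩ := eventually_atTop.1 hx
    have key : ∀ δ : ℝ, 0 < δ → ∀ N0 : ℕ, ∃ M : ℕ, ∀ k, M ≤ k → K ≤ k ∧ N0 ≤ k ∧
        (1 : ℝ) / 2 ^ k ≤ δ := by
      intro δ hδ N0
      obtain ⟨j, hj⟩ := exists_pow_lt_of_lt_one hδ (show (1 / 2 : ℝ) < 1 by norm_num)
      refine ⟨max (max K N0) j, fun k hk => ⟨le_trans (le_trans (le_max_left _ _)
        (le_max_left _ _)) hk, le_trans (le_trans (le_max_right _ _) (le_max_left _ _)) hk, ?_⟩⟩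
      have hjk : j ≤ k := le_trans (le_max_right _ _) hk
      calc (1 : ℝ) / 2 ^ k = (1 / 2) ^ k := by rw [div_pow, one_pow]
        _ ≤ (1 / 2) ^ j := pow_le_pow_of_le_one (by norm_num) (by norm_num) hjk
        _ ≤ δ := hj.le
    refine ⟨fun δ hδ N0 => ?_, fun δ hδ N0 => ?_⟩
    · obtain ⟨M, hM⟩ := key δ hδ N0
      obtain ⟨k, hMk, hk⟩ : ∃ k, M ≤ k ∧ Odd k := ⟨2 * M + 1, by omega, ⟨M, rfl⟩⟩
      obtain ⟨hKk, hNk, hδk⟩ := hM k hMk
      obtain ⟨⟨n, n1, n2, n3, n4⟩, hout⟩ := hK k hKk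
      refine ⟨n, hNk.trans n2, ?_⟩
      refine le_trans (by linarith) (glue_ge (F := F) n1 n4 fun m hm hmE => ?_)
      refine ⟨k, hk, hmE, fun i _ hi => hout m ?_ i hi⟩
      rw [Finset.mem_Icc] at hm ⊢
      exact ⟨hm.1, hm.2.trans n3⟩
    · obtain ⟨M, hM⟩ := key δ hδ N0
      obtain ⟨k, hMk, hk⟩ : ∃ k, M ≤ k ∧ Even k := ⟨2 * M, by omega, ⟨M, by ring⟩⟩
      obtain ⟨hKk, hNk, hδk⟩ := hM k hMk
      obtain ⟨⟨n, n1, n2, n3, n4⟩, hout⟩ := hK k hKk
      refine ⟨n, hNk.trans n2, ?_⟩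
      refine le_trans (glue_le (F := F) n1 n4 fun m hm hmE => ?_) hδk
      rintro ⟨k', hk', hmE', hall⟩
      have hm' : m ∈ Finset.Icc 1 (N k) := by
        rw [Finset.mem_Icc] at hm ⊢
        exact ⟨hm.1, hm.2.trans n3⟩
      rcases lt_trichotomy k' k with h5 | h5 | h5
      · exact hall k hk h5 hmE
      · rw [h5] at hk'
        exact (Nat.not_even_iff_odd.2 hk') hk
      · exact hout m hm' k' h5 hmE'

end MP4ba111
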