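import Pool.Agent.Lib.MP_4ba111_an.Stage
import Pool.Agent.Lib.MP_4ba111_an.Glue

/-! Strong sweeping out and universal badness from the property on the line. -/

set_option autoImplicit false

open MeasureTheory Filter Topology
open scoped ENNReal

namespace MP4ba111

theorem fin_ind_bd {X : Type} (E : Set X) (y : X) :
    0 ≤ E.indicator (1 : X → ℝ) y ∧ E.indicator (1 : X → ℝ) y ≤ 1 := by
  by_cases h : y ∈ E
  · rw [Set.indicator_of_mem h]
    simp
  · rw [Set.indicator_of_notMem h]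
    simp

theorem fin_A_nonneg {X : Type} (T : ℝ → X → X) (s : ℕ → ℝ) (E : Set X) (x : X) (n : ℕ) :
    0 ≤ A T s (E.indicator 1) n x := by
  unfold A
  exact div_nonneg (Finset.sum_nonneg fun m _ => (fin_ind_bd E _).1) (Nat.cast_nonneg n)

theorem fin_A_le_one {X : Type} (T : ℝ → X → X) (s : ℕ → ℝ) (E : Set X) (x : X) (n : ℕ) :
    A T s (E.indicator 1) n x ≤ 1 := by
  unfold A
  refine div_le_one_of_le₀ ?_ (Nat.cast_nonneg n)
  calc ∑ m ∈ Finset.Icc 1 n, E.indicator (1 : X → ℝ) (T (s m) x)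
      ≤ ∑ m ∈ Finset.Icc 1 n, (1 : ℝ) := Finset.sum_le_sum fun m _ => (fin_ind_bd E _).2
    _ = n := by simp

theorem fin_bdd_above {X : Type} (T : ℝ → X → X) (s : ℕ → ℝ) (E : Set X) (x : X) :
    IsBoundedUnder (· ≤ ·) atTop (fun N => A T s (E.indicator 1) N x) :=
  isBoundedUnder_of ⟨1, fun n => fin_A_le_one T s E x n⟩

theorem fin_bdd_below {X : Type} (T : ℝ → X → X) (s : ℕ → ℝ) (E : Set X) (x : X) :
    IsBoundedUnder (· ≥ ·) atTop (fun N => A T s (E.indicator 1) N x) :=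
  isBoundedUnder_of ⟨0, fun n => fin_A_nonneg T s E x n⟩

/-- PROOF. `0 ≤ A ≤ 1` for an indicator. -/
theorem limsup_one {X : Type} {T : ℝ → X → X} {s : ℕ → ℝ} {E : Set X} {x : X}
    (h : ∀ δ : ℝ, 0 < δ → ∀ N0 : ℕ, ∃ n, N0 ≤ n ∧ 1 - δ ≤ A T s (E.indicator 1) n x) :
    limsup (fun N => A T s (E.indicator 1) N x) atTop = 1 := by
  refine le_antisymm ?_ ?_
  · exact limsup_le_of_le (fin_bdd_below T s E x).isCoboundedUnder_le
      (Eventually.of_forall fun n => fin_A_le_one T s E x n)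
  · refine le_of_forall_pos_sub_le fun δ hδ => ?_
    refine le_limsup_of_frequently_le ?_ (fin_bdd_above T s E x)
    rw [frequently_atTop]
    intro N0
    obtain ⟨n, h1, h2⟩ := h δ hδ N0
    exact ⟨n, h1, h2⟩

theorem liminf_zero {X : Type} {T : ℝ → X → X} {s : ℕ → ℝ} {E : Set X} {x : X}
    (h : ∀ δ : ℝ, 0 < δ → ∀ N0 : ℕ, ∃ n, N0 ≤ n ∧ A T s (E.indicator 1) n x ≤ δ) :
    liminf (fun N => A T s (E.indicator 1) N x) atTop = 0 := by
  refine le_antisymm ?_ ?_
  · refine le_of_forall_pos_le_add fun δ hδ => ?_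
    rw [zero_add]
    refine liminf_le_of_frequently_le ?_ (fin_bdd_below T s E x)
    rw [frequently_atTop]
    intro N0
    obtain ⟨n, h1, h2⟩ := h δ hδ N0
    exact ⟨n, h1, h2⟩
  · exact le_liminf_of_le (fin_bdd_above T s E x).isCoboundedUnder_ge
      (Eventually.of_forall fun n => fin_A_nonneg T s E x n)

/-- PROOF. `stage`, `glue`, `limsup_one`, `liminf_zero`. -/
theorem sso_of_RProp {s : ℕ → ℝ} (hs : ∀ n, 1 ≤ n → 0 < s n) (hR : RProp s) :
    StrongSweepingOut s := by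
  intro X _ μ T hS ε hε
  obtain ⟨E, hE, hμE, hae⟩ := glue hS.flow hS.prob (stage hS hs hR) hε
  refine ⟨E, hE, hμE, ?_⟩
  filter_upwards [hae] with x hx
  exact ⟨limsup_one hx.1, liminf_zero hx.2⟩

/-- PROOF. `sso_of_RProp` with `ε = 1`, `f = E.indicator 1`; a limit would be both `1` and `0`
(`Tendsto.limsup_eq`, `Tendsto.liminf_eq`). -/
theorem bad_of_sso {s : ℕ → ℝ} (h : StrongSweepingOut s) (p : ℝ≥0∞) : UniversallyBad p s := by
  intro X _ μ T hS
  obtain ⟨E, hE, -, hae⟩ := h X μ T hS 1 one_pos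
  have := hS.prob
  refine ⟨E.indicator 1, ?_, ?_⟩
  · exact (memLp_const (1 : ℝ)).indicator hE
  · filter_upwards [hae] with x hx
    rintro ⟨l, hl⟩
    have h1 := hl.limsup_eq
    have h2 := hl.liminf_eq
    rw [hx.1] at h1
    rw [hx.2] at h2
    rw [← h2] at h1
    exact one_ne_zero h1

end MP4ba111
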