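import Pool.Agent.Lib.MP_4ba111_an.Defs

/-! A sequence of stages. -/

set_option autoImplicit false

open MeasureTheory Filter Topology
open scoped ENNReal

namespace MP4ba111

variable {X : Type} [MeasurableSpace X] {μ : Measure X} {T : ℝ → X → X}

/-- The stages `(E k, N k)`. -/
structure Stages (μ : Measure X) (T : ℝ → X → X) (s : ℕ → ℝ) (e : ℝ) (E : ℕ → Set X) (N : ℕ → ℕ) :
    Prop where
  mono : StrictMono N
  meas : ∀ k, MeasurableSet (E k)
  small : ∀ k, μ (E k) ≤ ENNReal.ofReal (e / 2 ^ (k + 2))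
  small' : ∀ i k, k < i → μ (E i) ≤ ENNReal.ofReal (e / 2 ^ (i + 2) / (N k + 1))
  hit : ∀ k, μ {x | ∀ n : ℕ, 1 ≤ n → k ≤ n → n ≤ N k → hitsX T s (E k) n x < (1 - 1 / 2 ^ k) * n} ≤
    ENNReal.ofReal (e / 2 ^ (k + 2))

/-- PROOF. Recursion: with `P = N (k - 1)` (`P = 0` for `k = 0`) apply `StageProp` with
`ε_k = e / 2 ^ (k + 2) / (P + 1)` and `N0 = P + 1`; it gives `E k` and `N1`; put `N k = max N1 (P + 1)`.
(E.g. a function `F : ℕ → ℕ → Set X × ℕ` by choice, `F k P = (E, max N1 (P + 1))`, and `Nat.rec`.)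
`N` is strictly increasing, so `k ≤ N (k - 1) + 1`; `ε_k ≤ 1 / 2 ^ k` as `e ≤ 1`, so the set in `hit`
is contained in the exceptional set of `StageProp`. `small'`: `N k ≤ N (i - 1)`. -/
theorem exists_stages {s : ℕ → ℝ} (h : StageProp μ T s) {e : ℝ} (he : 0 < e) (he1 : e ≤ 1) :
    ∃ (E : ℕ → Set X) (N : ℕ → ℕ), Stages μ T s e E N := by
  have hpos : ∀ k P : ℕ, 0 < e / 2 ^ (k + 2) / ((P : ℝ) + 1) := fun k P => by positivity
  have hch : ∀ k P : ℕ, ∃ (E : Set X) (N1 : ℕ), MeasurableSet E ∧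
      μ E ≤ ENNReal.ofReal (e / 2 ^ (k + 2) / ((P : ℝ) + 1)) ∧
      μ {x | ∀ n : ℕ, 1 ≤ n → P + 1 ≤ n → n ≤ N1 →
        hitsX T s E n x < (1 - e / 2 ^ (k + 2) / ((P : ℝ) + 1)) * n} ≤
        ENNReal.ofReal (e / 2 ^ (k + 2) / ((P : ℝ) + 1)) :=
    fun k P => h _ (hpos k P) (P + 1)
  choose Ef Nf hm hs hx using hch
  obtain ⟨PP, hPs⟩ : ∃ PP : ℕ → ℕ, ∀ k, PP (k + 1) = max (Nf k (PP k)) (PP k + 1) :=
    ⟨fun k => Nat.rec 0 (fun k P => max (Nf k P) (P + 1)) k, fun k => rfl⟩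
  have hlt : ∀ k, PP k < PP (k + 1) := fun k => by
    rw [hPs k]
    exact lt_of_lt_of_le (Nat.lt_succ_self _) (le_max_right _ _)
  have hmono : StrictMono PP := strictMono_nat_of_lt_succ hlt
  have hid : ∀ k, k ≤ PP k := hmono.id_le
  have hle : ∀ k P : ℕ, e / 2 ^ (k + 2) / ((P : ℝ) + 1) ≤ e / 2 ^ (k + 2) := fun k P => by
    apply div_le_self (by positivity)
    have : (0 : ℝ) ≤ P := Nat.cast_nonneg P
    linarith
  refine ⟨fun k => Ef k (PP k), fun k => PP (k + 1), ⟨?_, ?_, ?_, ?_, ?_⟩⟩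
  · exact strictMono_nat_of_lt_succ fun k => hlt (k + 1)
  · exact fun k => hm k (PP k)
  · exact fun k => (hs k (PP k)).trans (ENNReal.ofReal_le_ofReal (hle k (PP k)))
  · intro i k hki
    refine (hs i (PP i)).trans (ENNReal.ofReal_le_ofReal ?_)
    have h1 : PP (k + 1) ≤ PP i := hmono.monotone hki
    have h2 : (PP (k + 1) : ℝ) ≤ (PP i : ℝ) := Nat.cast_le.2 h1
    have h3 : (0 : ℝ) ≤ (PP (k + 1) : ℝ) := Nat.cast_nonneg _
    exact div_le_div_of_nonneg_left (by positivity) (by linarith) (by linarith)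
  · intro k
    refine le_trans ?_ ((hx k (PP k)).trans (ENNReal.ofReal_le_ofReal (hle k (PP k))))
    refine measure_mono fun x hxk n hn1 hn2 hn3 => ?_
    have hk1 : k ≤ n := (hid k).trans (by omega)
    have hk2 : n ≤ PP (k + 1) := by
      rw [hPs k]
      exact hn3.trans (le_max_left _ _)
    refine lt_of_lt_of_le (hxk n hn1 hk1 hk2) ?_
    refine mul_le_mul_of_nonneg_right ?_ (Nat.cast_nonneg n)
    have h4 : e / 2 ^ (k + 2) / ((PP k : ℝ) + 1) ≤ 1 / 2 ^ k := by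
      refine (hle k (PP k)).trans ?_
      have h5 : (0 : ℝ) < 2 ^ k := by positivity
      rw [div_le_div_iff₀ (by positivity) h5, one_mul, pow_add]
      nlinarith
    linarith

end MP4ba111
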