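import Pool.Agent.Lib.MP_4ba111_an.GlueA

/-! Borel-Cantelli for the stages. -/

set_option autoImplicit false

open MeasureTheory Filter Topology
open scoped ENNReal

namespace MP4ba111

variable {X : Type} [MeasurableSpace X] {μ : Measure X} {T : ℝ → X → X}

theorem glueb_tsum {a : ℝ} (ha : 0 ≤ a) :
    ∑' j : ℕ, ENNReal.ofReal (a / 2 / 2 ^ j) = ENNReal.ofReal a := by
  rw [← ENNReal.ofReal_tsum_of_nonneg (fun n => by positivity) (hasSum_geometric_two' a).summable,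
    (hasSum_geometric_two' a).tsum_eq]

theorem glueb_bound (hT : IsFlow μ T) {s : ℕ → ℝ} {e : ℝ} (he : 0 < e) {E : ℕ → Set X} {N : ℕ → ℕ}
    (h : Stages μ T s e E N) (k : ℕ) :
    μ (⋃ m ∈ Finset.Icc 1 (N k), ⋃ j : ℕ, T (s m) ⁻¹' E (k + 1 + j)) ≤
      ENNReal.ofReal (e / 2 ^ (k + 2)) := by
  have hN : (0 : ℝ) ≤ N k := Nat.cast_nonneg _
  have h1 : ∀ m, μ (⋃ j : ℕ, T (s m) ⁻¹' E (k + 1 + j)) ≤
      ENNReal.ofReal (e / 2 ^ (k + 2) / (N k + 1)) := by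
    intro m
    calc μ (⋃ j : ℕ, T (s m) ⁻¹' E (k + 1 + j))
        ≤ ∑' j : ℕ, μ (T (s m) ⁻¹' E (k + 1 + j)) := measure_iUnion_le _
      _ ≤ ∑' j : ℕ, ENNReal.ofReal (e / 2 ^ (k + 2) / (N k + 1) / 2 / 2 ^ j) := by
        refine ENNReal.tsum_le_tsum fun j => ?_
        rw [(hT.pres (s m)).measure_preimage (h.meas _).nullMeasurableSet]
        refine (h.small' (k + 1 + j) k (by omega)).trans (le_of_eq ?_)
        congr 1
        rw [show k + 1 + j + 2 = (k + 2) + 1 + j by ring, pow_add, pow_add]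
        field_simp
      _ = ENNReal.ofReal (e / 2 ^ (k + 2) / (N k + 1)) := glueb_tsum (by positivity)
  calc μ (⋃ m ∈ Finset.Icc 1 (N k), ⋃ j : ℕ, T (s m) ⁻¹' E (k + 1 + j))
      ≤ ∑ m ∈ Finset.Icc 1 (N k), μ (⋃ j : ℕ, T (s m) ⁻¹' E (k + 1 + j)) :=
        measure_biUnion_finset_le _ _
    _ ≤ ∑ m ∈ Finset.Icc 1 (N k), ENNReal.ofReal (e / 2 ^ (k + 2) / (N k + 1)) :=
        Finset.sum_le_sum fun m _ => h1 m
    _ = ENNReal.ofReal (N k * (e / 2 ^ (k + 2) / (N k + 1))) := by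
        rw [Finset.sum_const, Nat.card_Icc, Nat.add_sub_cancel, nsmul_eq_mul,
          ENNReal.ofReal_mul hN, ENNReal.ofReal_natCast]
    _ ≤ ENNReal.ofReal (e / 2 ^ (k + 2)) := by
        apply ENNReal.ofReal_le_ofReal
        have h2 : 0 ≤ e / 2 ^ (k + 2) := by positivity
        rw [← mul_div_assoc, div_le_iff₀ (by positivity)]
        nlinarith

/-- PROOF. Let `Bad k` be the union of the exceptional set of `hit` (measure at most
`e / 2 ^ (k + 2)`) and of the sets `(T (s m))⁻¹ (E i)` over `m ∈ [1, N k]`, `i > k` (total measure at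
most `N k * ∑_{i > k} e / 2 ^ (i + 2) / (N k + 1) ≤ e / 2 ^ (k + 2)`, by `(hT.pres _).measure_preimage`).
So `∑ μ (Bad k) < ∞`, and `ae_eventually_notMem` (Borel-Cantelli) gives the claim. -/
theorem ae_stages (hT : IsFlow μ T) {s : ℕ → ℝ} {e : ℝ} (he : 0 < e) {E : ℕ → Set X} {N : ℕ → ℕ}
    (h : Stages μ T s e E N) : ∀ᵐ x ∂μ, ∀ᶠ k in atTop,
      (∃ n : ℕ, 1 ≤ n ∧ k ≤ n ∧ n ≤ N k ∧ (1 - 1 / 2 ^ k) * n ≤ hitsX T s (E k) n x) ∧
        ∀ m ∈ Finset.Icc 1 (N k), ∀ i, k < i → T (s m) x ∉ E i := by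
  have hsum : ∑' k : ℕ, ENNReal.ofReal (e / 2 ^ (k + 2)) ≠ ∞ := by
    have h1 : ∀ k : ℕ, ENNReal.ofReal (e / 2 ^ (k + 2)) = ENNReal.ofReal (e / 2 / 2 / 2 ^ k) := by
      intro k
      congr 1
      rw [pow_add]
      field_simp
    simp_rw [h1]
    rw [glueb_tsum (by positivity)]
    exact ENNReal.ofReal_ne_top
  have hA := ae_eventually_notMem (μ := μ) (s := fun k => {x | ∀ n : ℕ, 1 ≤ n → k ≤ n → n ≤ N k →
    hitsX T s (E k) n x < (1 - 1 / 2 ^ k) * n})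
    (ne_top_of_le_ne_top hsum (ENNReal.tsum_le_tsum fun k => h.hit k))
  have hB := ae_eventually_notMem (μ := μ)
    (s := fun k => ⋃ m ∈ Finset.Icc 1 (N k), ⋃ j : ℕ, T (s m) ⁻¹' E (k + 1 + j))
    (ne_top_of_le_ne_top hsum (ENNReal.tsum_le_tsum fun k => glueb_bound hT he h k))
  filter_upwards [hA, hB] with x hxA hxB
  filter_upwards [hxA, hxB] with k hkA hkB
  refine ⟨?_, ?_⟩
  · push Not at hkA
    obtain ⟨n, h1, h2, h3, h4⟩ := hkA
    exact ⟨n, h1, h2, h3, h4⟩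
  · intro m hm i hi hmem
    apply hkB
    simp only [Set.mem_iUnion, Set.mem_preimage]
    exact ⟨m, hm, i - (k + 1), by rwa [show k + 1 + (i - (k + 1)) = i by omega]⟩

end MP4ba111
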