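import Pool.Agent.Lib.MP_4ba111_an.RMain
import Pool.Agent.Lib.MP_4ba111_an.Fin

/-! The main theorem. -/

set_option autoImplicit false

open MeasureTheory Filter Topology
open scoped ENNReal

namespace MP4ba111

theorem main_seq {s : ℕ → ℝ} (hs : ∀ n, 1 ≤ n → 0 < s n) (hinj : Set.InjOn s (Set.Ici 1))
    (hlim : Tendsto s atTop (𝓝 0)) : StrongSweepingOut s ∧ ∀ p : ℝ≥0∞, UniversallyBad p s := by
  have h := sso_of_RProp hs (rprop_of_tendsto hs hinj hlim)
  exact ⟨h, fun p => bad_of_sso h p⟩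

theorem main_pow {α : ℝ} (hα : α < 0) : StrongSweepingOut (fun n : ℕ => (n : ℝ) ^ α) ∧
    ∀ p : ℝ≥0∞, UniversallyBad p (fun n : ℕ => (n : ℝ) ^ α) := by
  refine main_seq (fun n hn => ?_) (fun a ha b hb hab => ?_) ?_
  · have : (0 : ℝ) < n := by exact_mod_cast hn
    positivity
  · have ha' : (0 : ℝ) < a := by
      have : 1 ≤ a := ha
      exact_mod_cast this
    have hb' : (0 : ℝ) < b := by
      have : 1 ≤ b := hb
      exact_mod_cast this
    have h1 : (a : ℝ) ^ α = (b : ℝ) ^ α := hab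
    have h2 : ((a : ℝ) ^ α) ^ α⁻¹ = ((b : ℝ) ^ α) ^ α⁻¹ := by rw [h1]
    rw [← Real.rpow_mul ha'.le, ← Real.rpow_mul hb'.le, mul_inv_cancel₀ hα.ne, Real.rpow_one,
      Real.rpow_one] at h2
    exact_mod_cast h2
  · have h1 := tendsto_rpow_neg_atTop (y := -α) (by linarith)
    rw [neg_neg] at h1
    exact h1.comp tendsto_natCast_atTop_atTop

end MP4ba111
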