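import Pool.Agent.Lib.MP_4ba111_an.Per

/-! Periodic sets and neighbourhoods of the jumps. -/

set_option autoImplicit false

open MeasureTheory Filter Topology

namespace MP4ba111

/-- PROOF. `Icc a (a+1)` and `Ico 0 1` (up to an end point) are both fundamental domains of the
translations by integers; e.g. `lintegral` of the periodic indicator
(`Function.Periodic.intervalIntegral_add_eq` for the real indicator function, or
`isAddFundamentalDomain_Ioc`). -/
theorem per_window {B : Set ℝ} (hB : MeasurableSet B) (hp : ∀ r, r + 1 ∈ B ↔ r ∈ B) (a : ℝ) :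
    volume (B ∩ Set.Icc a (a + 1)) = volume (B ∩ Set.Ico (0 : ℝ) 1) := by
  have hz : ∀ (z : ℤ) (r : ℝ), r + z ∈ B ↔ r ∈ B := by
    intro z
    induction z using Int.induction_on with
    | zero => intro r; simp
    | succ i ih =>
      intro r
      push_cast
      rw [← add_assoc, hp]
      exact_mod_cast ih r
    | pred i ih =>
      intro r
      have h1 := hp (r + ((-(i : ℤ) - 1 : ℤ) : ℝ))
      have e : r + ((-(i : ℤ) - 1 : ℤ) : ℝ) + 1 = r + ((-(i : ℤ) : ℤ) : ℝ) := by push_cast; ring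
      rw [e] at h1
      rw [← h1]
      exact ih r
  have h1 := isAddFundamentalDomain_Ioc (zero_lt_one : (0 : ℝ) < 1) a volume
  have h2 := isAddFundamentalDomain_Ioc (zero_lt_one : (0 : ℝ) < 1) 0 volume
  have h3 := h1.measure_set_eq h2 hB (fun g => by
    ext x
    obtain ⟨g, z, rfl⟩ := g
    show z • (1 : ℝ) + x ∈ B ↔ x ∈ B
    rw [zsmul_one, add_comm]
    exact hz z x)
  rw [zero_add] at h3
  have e1 : volume (B ∩ Set.Icc a (a + 1)) = volume (B ∩ Set.Ioc a (a + 1)) :=
    measure_congr ((ae_eq_refl B).inter Ioc_ae_eq_Icc.symm)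
  have e2 : volume (B ∩ Set.Ico (0 : ℝ) 1) = volume (B ∩ Set.Ioc (0 : ℝ) 1) :=
    measure_congr ((ae_eq_refl B).inter Ico_ae_eq_Ioc)
  rw [e1, e2, h3]

theorem near_dz_meas : Measurable dz := by
  have e : dz = fun x : ℝ => |x - (⌊x + 1 / 2⌋ : ℤ)| := by
    funext x
    unfold dz
    rw [round_eq]
  rw [e]
  have h1 : Measurable fun x : ℝ => ((⌊x + 1 / 2⌋ : ℤ) : ℝ) :=
    (measurable_from_top (f := fun z : ℤ => (z : ℝ))).comp
      (Int.measurable_floor.comp (measurable_id.add_const _))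
  exact (measurable_id.sub h1).abs

theorem near_dz_add_one (x : ℝ) : dz (x + 1) = dz x := by
  unfold dz
  rw [round_add_one]
  push_cast
  congr 1
  ring

theorem near_ind {A : Set ℝ} (hA : MeasurableSet A) :
    ∫ x in (0 : ℝ)..1, A.indicator (fun _ => (1 : ℝ)) x = (volume (A ∩ Set.Ico 0 1)).toReal := by
  rw [intervalIntegral.integral_of_le zero_le_one]
  have h1 : ∫ x in Set.Ioc (0 : ℝ) 1, A.indicator (fun _ => (1 : ℝ)) x =
      (volume.restrict (Set.Ioc (0 : ℝ) 1)).real A := by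
    have := integral_indicator_one (μ := volume.restrict (Set.Ioc (0 : ℝ) 1)) hA
    exact this
  rw [h1, Measure.real, Measure.restrict_apply hA]
  congr 1
  exact measure_congr ((ae_eq_refl A).inter Ico_ae_eq_Ioc.symm)

/-- PROOF. By `int_mul` and `int_shift` for the indicator `F` of `{x | dz x ≤ η}` the measure equals
that of `{x ∈ [0,1) | dz x ≤ η}` (for `F (M r - a)`: `int_mul` for `x ↦ F (x - a)`), which is contained
in `[0, η] ∪ [1 - η, 1)`. -/
theorem near_meas {M : ℕ} (hM : 1 ≤ M) (a : ℝ) {η : ℝ} (hη : 0 ≤ η) :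
    volume {r | r ∈ Set.Ico (0 : ℝ) 1 ∧ dz ((M : ℝ) * r - a) ≤ η} ≤ ENNReal.ofReal (2 * η) := by
  have hA : MeasurableSet {x : ℝ | dz x ≤ η} := measurableSet_le near_dz_meas measurable_const
  have hAM : MeasurableSet {x : ℝ | dz ((M : ℝ) * x - a) ≤ η} :=
    measurableSet_le (near_dz_meas.comp ((measurable_const.mul measurable_id).sub_const a))
      measurable_const
  set F : ℝ → ℝ := Set.indicator {x : ℝ | dz x ≤ η} (fun _ => (1 : ℝ)) with hF
  have hFm : Measurable F := measurable_const.indicator hA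
  have hFp : Function.Periodic F 1 := by
    intro x
    simp only [hF, Set.indicator_apply, Set.mem_ofPred_eq, near_dz_add_one]
  have hF1p : Function.Periodic (fun x => F (x + -a)) 1 := by
    intro x
    show F (x + 1 + -a) = F (x + -a)
    rw [show x + 1 + -a = x + -a + 1 by ring]
    exact hFp _
  have hFi : ∀ c d : ℝ, IntervalIntegrable (fun x => F (x + -a)) volume c d := by
    intro c d
    rw [intervalIntegrable_iff]
    have e : (fun x => F (x + -a)) =
        Set.indicator {x : ℝ | dz (x + -a) ≤ η} (fun _ => (1 : ℝ)) := by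
      funext x
      simp only [hF, Set.indicator_apply, Set.mem_ofPred_eq]
    rw [e]
    have hm : MeasurableSet {x : ℝ | dz (x + -a) ≤ η} :=
      measurableSet_le (near_dz_meas.comp (measurable_id.add_const _)) measurable_const
    have : IsFiniteMeasure (volume.restrict (Set.uIoc c d)) := by
      unfold Set.uIoc
      infer_instance
    exact (integrable_const (1 : ℝ)).indicator hm
  have h1 := int_mul hF1p hFi hM
  rw [int_shift hFp (-a)] at h1
  have e1 : (∫ x in (0 : ℝ)..1, (fun x => F (x + -a)) ((M : ℝ) * x)) =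
      (volume ({x : ℝ | dz ((M : ℝ) * x - a) ≤ η} ∩ Set.Ico 0 1)).toReal := by
    rw [← near_ind hAM]
    congr 1
  rw [e1, hF, near_ind hA] at h1
  have f1 : volume ({x : ℝ | dz ((M : ℝ) * x - a) ≤ η} ∩ Set.Ico 0 1) ≠ ⊤ :=
    ne_top_of_le_ne_top (by simp) (measure_mono Set.inter_subset_right)
  have f2 : volume ({x : ℝ | dz x ≤ η} ∩ Set.Ico 0 1) ≠ ⊤ :=
    ne_top_of_le_ne_top (by simp) (measure_mono Set.inter_subset_right)
  have h2 := (ENNReal.toReal_eq_toReal_iff' f1 f2).1 h1
  have e2 : {r | r ∈ Set.Ico (0 : ℝ) 1 ∧ dz ((M : ℝ) * r - a) ≤ η} =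
      {x : ℝ | dz ((M : ℝ) * x - a) ≤ η} ∩ Set.Ico 0 1 := by
    ext x
    simp only [Set.mem_ofPred_eq, Set.mem_inter_iff]
    tauto
  rw [e2, h2]
  have h3 : {x : ℝ | dz x ≤ η} ∩ Set.Ico 0 1 ⊆ Set.Icc 0 η ∪ Set.Icc (1 - η) 1 := by
    rintro x ⟨hx1, hx2, hx3⟩
    have hx4 : |x - round x| ≤ η := hx1
    rw [abs_sub_round_eq_min, Int.fract_eq_self.2 ⟨hx2, hx3⟩] at hx4
    rcases min_le_iff.1 hx4 with h | h
    · exact Or.inl ⟨hx2, h⟩
    · exact Or.inr ⟨by linarith, hx3.le⟩
  calc volume ({x : ℝ | dz x ≤ η} ∩ Set.Ico 0 1)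
      ≤ volume (Set.Icc 0 η ∪ Set.Icc (1 - η) 1) := measure_mono h3
    _ ≤ volume (Set.Icc 0 η) + volume (Set.Icc (1 - η) 1) := measure_union_le _ _
    _ = ENNReal.ofReal (2 * η) := by
        rw [Real.volume_Icc, Real.volume_Icc, ← ENNReal.ofReal_add (by linarith) (by linarith)]
        congr 1
        ring

end MP4ba111
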