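import Pool.Agent.Lib.MP_4ba111_an.Per

/-! The indicator is constant away from its jumps. -/

set_option autoImplicit false

open MeasureTheory Filter Topology

namespace MP4ba111

theorem dz_add_int (x : ℝ) (n : ℤ) : dz (x + n) = dz x := by
  unfold dz
  rw [round_add_intCast]
  push_cast
  congr 1
  ring

/-- PROOF. Subtracting an integer from `h` we may assume `|h| ≤ η` (`zi_periodic`). If `zi` changed
between `x` and `x + h`, an integer `n` or `n + 1/q` would lie between `x` and `x + h` (end points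
included), at distance at most `η` from `x`, against `hx0` or `hx1` (`dz x ≤ |x - n|`: `round_le`). -/
theorem zi_shift {q : ℕ} (hq : 1 ≤ q) {x h η : ℝ} (hx0 : η < dz x) (hx1 : η < dz (x - 1 / q))
    (hh : dz h ≤ η) : zi q (x + h) = zi q x := by
  obtain ⟨g, hg⟩ : ∃ g : ℝ, g = h - round h := ⟨_, rfl⟩
  have hgη : |g| ≤ η := by rw [hg]; exact hh
  have e1 : x + h = x + g + ((round h : ℤ) : ℝ) := by rw [hg]; ring
  have e2 : Int.fract (x + h) = Int.fract (x + g) := by rw [e1, Int.fract_add_intCast]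
  have h1 : η < |x - (⌊x⌋ : ℝ)| := lt_of_lt_of_le hx0 (round_le x ⌊x⌋)
  have h2 : η < |x - ((⌊x⌋ + 1 : ℤ) : ℝ)| := lt_of_lt_of_le hx0 (round_le x (⌊x⌋ + 1))
  have h3 : η < |x - 1 / q - (⌊x⌋ : ℝ)| := lt_of_lt_of_le hx1 (round_le (x - 1 / q) ⌊x⌋)
  have e3 : x - (⌊x⌋ : ℝ) = Int.fract x := rfl
  have h4 := Int.fract_nonneg x
  have h5 := Int.fract_lt_one x
  rw [e3, abs_of_nonneg h4] at h1
  have e4 : x - ((⌊x⌋ + 1 : ℤ) : ℝ) = Int.fract x - 1 := by
    push_cast
    rw [← e3]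
    ring
  rw [e4, abs_of_neg (by linarith)] at h2
  have e5 : x - 1 / q - (⌊x⌋ : ℝ) = Int.fract x - 1 / q := by
    rw [← e3]
    ring
  rw [e5] at h3
  have h6 := abs_le.1 hgη
  have e6 : Int.fract (x + g) = Int.fract x + g := by
    rw [Int.fract_eq_iff]
    refine ⟨by linarith [h6.1], by linarith [h6.2], ⌊x⌋, ?_⟩
    rw [← e3]
    ring
  unfold zi
  rw [e2, e6]
  rcases lt_or_ge (Int.fract x) (1 / (q : ℝ)) with h7 | h7
  · rw [abs_of_neg (by linarith)] at h3
    rw [if_pos h7, if_pos (by linarith [h6.2])]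
  · rw [abs_of_nonneg (by linarith)] at h3
    rw [if_neg (not_lt.2 h7), if_neg (by linarith [h6.1])]

end MP4ba111
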