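import Pool.Agent.Lib.MP_4ba111_an.Per

/-! Orthogonality of the digits. -/

set_option autoImplicit false

open MeasureTheory Filter Topology

namespace MP4ba111

theorem orth_int {f : ℝ → ℝ} (hf : Measurable f) {C : ℝ} (hC : ∀ x, |f x| ≤ C) (a b : ℝ) :
    IntervalIntegrable f volume a b := by
  refine (intervalIntegrable_const (c := C) (μ := volume) (a := a) (b := b)).mono_fun
    hf.aestronglyMeasurable (Filter.Eventually.of_forall fun x => ?_)
  show |f x| ≤ |C|
  exact (hC x).trans (le_abs_self C)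

theorem orth_phi_mul {q : ℕ} (hq : 1 ≤ q) (a b : ℝ) (x : ℝ) :
    |phi q (a * x) * phi q (b * x)| ≤ 1 := by
  rw [abs_mul]
  have h1 := abs_phi_le hq (a * x)
  have h2 := abs_phi_le hq (b * x)
  exact mul_le_one₀ h1 (abs_nonneg _) h2

theorem orth_zi_zero {q : ℕ} (hq : 1 ≤ q) {x : ℝ} (h0 : 0 ≤ x) (h1 : x < 1 / q) : zi q x = 1 := by
  have hq' : (1 : ℝ) ≤ q := by exact_mod_cast hq
  have h2 : (1 : ℝ) / q ≤ 1 := by
    rw [div_le_one (by linarith)]
    exact hq'
  rw [zi, Int.fract_eq_self.2 ⟨h0, by linarith⟩, if_pos h1]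

theorem orth_zi_one {q : ℕ} {x : ℝ} (h0 : 1 / (q : ℝ) < x) (h1 : x < 1) : zi q x = 0 := by
  have h2 : (0 : ℝ) ≤ 1 / q := by positivity
  rw [zi, Int.fract_eq_self.2 ⟨by linarith, h1⟩, if_neg (by linarith)]

/-- PROOF. `M' = q M k` with `k ≥ 1`. `int_mul` for `F x = phi x * phi (q k x)` (1-periodic) gives
`∫_0^1 phi x * phi (q k x) dx`. On `[0, 1)`, `phi x = 1_{x < 1/q} - 1/q`, so this is
`∫_0^{1/q} phi (q k x) dx - (1/q) ∫_0^1 phi (q k x) dx`; the second integral is `0` (`int_mul`,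
`int_phi`), the first is `(1/q) ∫_0^1 phi (k y) dy = 0` (substitution `y = q x`, `int_mul`). -/
theorem orth {q : ℕ} (hq : 1 ≤ q) {M M' : ℕ} (hM : 1 ≤ M) (hM' : 1 ≤ M') (hd : q * M ∣ M') :
    ∫ r in (0 : ℝ)..1, phi q (M * r) * phi q (M' * r) = 0 := by
  obtain ⟨k, rfl⟩ := hd
  have hk : 1 ≤ k := by
    rcases Nat.eq_zero_or_pos k with h | h
    · rw [h, Nat.mul_zero] at hM'
      omega
    · exact h
  have hq' : (1 : ℝ) ≤ q := by exact_mod_cast hq
  have hq0 : (0 : ℝ) < q := by linarith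
  have hqk : 1 ≤ q * k := Nat.one_le_iff_ne_zero.2 (Nat.mul_ne_zero (by omega) (by omega))
  -- the function
  have hFm : Measurable fun x : ℝ => phi q x * phi q (((q * k : ℕ) : ℝ) * x) :=
    (phi_meas q).mul ((phi_meas q).comp (measurable_const_mul _))
  have hFp : Function.Periodic (fun x : ℝ => phi q x * phi q (((q * k : ℕ) : ℝ) * x)) 1 := by
    intro x
    have h1 : phi q (((q * k : ℕ) : ℝ) * (x + 1)) = phi q (((q * k : ℕ) : ℝ) * x) := by
      rw [mul_add, mul_one]
      have h2 := (phi_periodic q).nat_mul (q * k) (((q * k : ℕ) : ℝ) * x)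
      rw [mul_one] at h2
      exact h2
    show phi q (x + 1) * phi q (((q * k : ℕ) : ℝ) * (x + 1)) = _
    rw [h1, phi_periodic q x]
  have hFi : ∀ a b : ℝ, IntervalIntegrable (fun x : ℝ => phi q x * phi q (((q * k : ℕ) : ℝ) * x))
      volume a b := fun a b => orth_int hFm (C := 1) (fun x => by
        have h1 := orth_phi_mul hq 1 ((q * k : ℕ) : ℝ) x
        rwa [one_mul] at h1) a b
  have e1 : ∫ r in (0 : ℝ)..1, phi q (M * r) * phi q (((q * M * k : ℕ) : ℝ) * r) =
      ∫ x in (0 : ℝ)..1, phi q x * phi q (((q * k : ℕ) : ℝ) * x) := by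
    rw [← int_mul hFp hFi hM]
    refine intervalIntegral.integral_congr fun x _ => ?_
    show phi q (M * x) * phi q (((q * M * k : ℕ) : ℝ) * x) =
      phi q (M * x) * phi q (((q * k : ℕ) : ℝ) * (M * x))
    congr 2
    push_cast
    ring
  rw [e1]
  have hgm : Measurable fun x : ℝ => phi q (((q * k : ℕ) : ℝ) * x) :=
    (phi_meas q).comp (measurable_const_mul _)
  have hgi : ∀ a b : ℝ, IntervalIntegrable (fun x : ℝ => phi q (((q * k : ℕ) : ℝ) * x))
      volume a b := fun a b => orth_int hgm (C := 1) (fun x => abs_phi_le hq _) a b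
  have hzm : Measurable fun x : ℝ => zi q x * phi q (((q * k : ℕ) : ℝ) * x) :=
    (zi_meas q).mul hgm
  have hzi : ∀ a b : ℝ, IntervalIntegrable (fun x : ℝ => zi q x * phi q (((q * k : ℕ) : ℝ) * x))
      volume a b := fun a b => orth_int hzm (C := 1) (fun x => by
        rw [abs_mul]
        refine mul_le_one₀ ?_ (abs_nonneg _) (abs_phi_le hq _)
        rw [abs_of_nonneg (zi_nonneg q x)]
        exact zi_le_one q x) a b
  have e2 : ∫ x in (0 : ℝ)..1, phi q (((q * k : ℕ) : ℝ) * x) = 0 := by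
    rw [int_mul (phi_periodic q) (phi_int hq) hqk, int_phi hq]
  have e3 : ∫ x in (0 : ℝ)..1, phi q x * phi q (((q * k : ℕ) : ℝ) * x) =
      (∫ x in (0 : ℝ)..1, zi q x * phi q (((q * k : ℕ) : ℝ) * x)) -
        ∫ x in (0 : ℝ)..1, 1 / (q : ℝ) * phi q (((q * k : ℕ) : ℝ) * x) := by
    rw [← intervalIntegral.integral_sub (hzi 0 1) ((hgi 0 1).const_mul _)]
    refine intervalIntegral.integral_congr fun x _ => ?_
    show phi q x * phi q (((q * k : ℕ) : ℝ) * x) = _
    rw [phi, sub_mul]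
  rw [e3, intervalIntegral.integral_const_mul, e2, mul_zero, sub_zero]
  have hq1 : (1 : ℝ) / q ≤ 1 := by
    rw [div_le_one hq0]
    exact hq'
  have hq2 : (0 : ℝ) ≤ 1 / q := by positivity
  rw [← intervalIntegral.integral_add_adjacent_intervals (hzi 0 (1 / q)) (hzi (1 / q) 1)]
  have e4 : ∫ x in (0 : ℝ)..(1 / q), zi q x * phi q (((q * k : ℕ) : ℝ) * x) =
      ∫ x in (0 : ℝ)..(1 / q), phi q ((k : ℝ) * ((q : ℝ) * x)) := by
    refine intervalIntegral.integral_congr_Ioo_of_le hq2 fun x hx => ?_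
    show zi q x * phi q (((q * k : ℕ) : ℝ) * x) = phi q ((k : ℝ) * ((q : ℝ) * x))
    rw [orth_zi_zero hq hx.1.le hx.2, one_mul]
    congr 1
    push_cast
    ring
  have e5 : ∫ x in (1 / (q : ℝ))..1, zi q x * phi q (((q * k : ℕ) : ℝ) * x) =
      ∫ x in (1 / (q : ℝ))..1, (0 : ℝ) := by
    refine intervalIntegral.integral_congr_Ioo_of_le hq1 fun x hx => ?_
    show zi q x * phi q (((q * k : ℕ) : ℝ) * x) = 0
    rw [orth_zi_one hx.1 hx.2, zero_mul]
  rw [e4, e5, intervalIntegral.integral_zero, add_zero,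
    intervalIntegral.integral_comp_mul_left (fun y => phi q ((k : ℝ) * y)) hq0.ne', mul_zero,
    mul_one_div_cancel hq0.ne', int_mul (phi_periodic q) (phi_int hq) hk, int_phi hq, smul_zero]

theorem orth_sq {q : ℕ} (hq : 1 ≤ q) {M : ℕ} (hM : 1 ≤ M) :
    ∫ r in (0 : ℝ)..1, phi q (M * r) * phi q (M * r) ≤ 1 / q := by
  have hq' : (1 : ℝ) ≤ q := by exact_mod_cast hq
  have hq0 : (0 : ℝ) < q := by linarith
  have hFp : Function.Periodic (fun x : ℝ => phi q x * phi q x) 1 := by
    intro x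
    show phi q (x + 1) * phi q (x + 1) = _
    rw [phi_periodic q x]
  have hFi : ∀ a b : ℝ, IntervalIntegrable (fun x : ℝ => phi q x * phi q x) volume a b :=
    fun a b => orth_int ((phi_meas q).mul (phi_meas q)) (C := 1) (fun x => by
      have h1 := orth_phi_mul hq 1 1 x
      rwa [one_mul] at h1) a b
  have h1 := int_mul hFp hFi hM
  rw [h1]
  have h2 : ∀ x : ℝ, phi q x * phi q x = (1 - 2 / q) * phi q x + (1 / q - 1 / (q : ℝ) ^ 2) := by
    intro x
    have h3 : zi q x * zi q x = zi q x := by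
      unfold zi
      split_ifs <;> norm_num
    have h4 : phi q x * phi q x = zi q x * zi q x - 2 / q * zi q x + 1 / (q : ℝ) ^ 2 := by
      rw [phi]
      field_simp
      ring
    rw [h4, h3, phi]
    field_simp
    ring
  have h3 : ∫ x in (0 : ℝ)..1, phi q x * phi q x = 1 / q - 1 / (q : ℝ) ^ 2 := by
    rw [intervalIntegral.integral_congr (g := fun x =>
      (1 - 2 / q) * phi q x + (1 / q - 1 / (q : ℝ) ^ 2)) (fun x _ => h2 x)]
    rw [intervalIntegral.integral_add ((phi_int hq 0 1).const_mul _)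
      intervalIntegrable_const, intervalIntegral.integral_const_mul, int_phi hq,
      intervalIntegral.integral_const]
    simp
  rw [h3]
  have : (0 : ℝ) ≤ 1 / (q : ℝ) ^ 2 := by positivity
  linarith

/-- PROOF. Let `S r = ∑ i ∈ I, phi q (Mf i * r)`. By `orth` (the integrand is symmetric in `i, j`)
`∫_0^1 S² = ∑_i ∫_0^1 phi (Mf i r)² = |I| ∫_0^1 phi² ≤ |I| / q` (`∫_0^1 phi² = 1/q - 1/q²`). On the set
in question `S r = -|I|/q`, so `(|I|/q)² * volume ≤ |I|/q`. -/
theorem cheb {q : ℕ} (hq : 1 ≤ q) {I : Finset ℕ} (hI : I.Nonempty) {Mf : ℕ → ℕ}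
    (h1 : ∀ i, 1 ≤ Mf i) (hd : ∀ i j, i < j → q * Mf i ∣ Mf j) :
    volume {r | r ∈ Set.Ico (0 : ℝ) 1 ∧ ∀ i ∈ I, zi q ((Mf i : ℝ) * r) = 0} ≤
      ENNReal.ofReal (q / I.card) := by
  have hq' : (1 : ℝ) ≤ q := by exact_mod_cast hq
  have hq0 : (0 : ℝ) < q := by linarith
  have hN : 0 < (I.card : ℝ) := by exact_mod_cast hI.card_pos
  set S : ℝ → ℝ := fun r => ∑ i ∈ I, phi q ((Mf i : ℝ) * r) with hS
  have hSm : Measurable S := by
    refine Finset.measurable_sum I fun i _ => ?_
    exact (phi_meas q).comp (measurable_const_mul _)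
  have hSb : ∀ r, |S r| ≤ I.card := by
    intro r
    refine (Finset.abs_sum_le_sum_abs _ _).trans ?_
    calc ∑ i ∈ I, |phi q ((Mf i : ℝ) * r)| ≤ ∑ i ∈ I, (1 : ℝ) :=
          Finset.sum_le_sum fun i _ => abs_phi_le hq _
      _ = I.card := by simp
  have hSS : ∀ r, |S r * S r| ≤ I.card * I.card := by
    intro r
    rw [abs_mul]
    exact mul_le_mul (hSb r) (hSb r) (abs_nonneg _) hN.le
  have hpi : ∀ i j : ℕ, IntervalIntegrable
      (fun r : ℝ => phi q ((Mf i : ℝ) * r) * phi q ((Mf j : ℝ) * r)) volume 0 1 := fun i j =>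
    orth_int (((phi_meas q).comp (measurable_const_mul _)).mul
      ((phi_meas q).comp (measurable_const_mul _))) (C := 1) (fun x => orth_phi_mul hq _ _ x) 0 1
  have e1 : ∫ r in (0 : ℝ)..1, S r * S r ≤ I.card * (1 / q) := by
    have h2 : ∀ r, S r * S r = ∑ i ∈ I, ∑ j ∈ I,
        phi q ((Mf i : ℝ) * r) * phi q ((Mf j : ℝ) * r) := fun r => Finset.sum_mul_sum _ _ _ _
    rw [intervalIntegral.integral_congr (g := fun r => ∑ i ∈ I, ∑ j ∈ I,
      phi q ((Mf i : ℝ) * r) * phi q ((Mf j : ℝ) * r)) (fun r _ => h2 r)]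
    rw [intervalIntegral.integral_finsetSum fun i _ => ?_]
    · calc ∑ i ∈ I, ∫ r in (0 : ℝ)..1, ∑ j ∈ I,
            phi q ((Mf i : ℝ) * r) * phi q ((Mf j : ℝ) * r) ≤ ∑ i ∈ I, 1 / (q : ℝ) := by
            refine Finset.sum_le_sum fun i hi => ?_
            rw [intervalIntegral.integral_finsetSum fun j _ => hpi i j,
              Finset.sum_eq_single_of_mem i hi]
            · exact orth_sq hq (h1 i)
            · intro j _ hji
              rcases lt_or_gt_of_ne hji with h | h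
              · have h3 := orth hq (h1 j) (h1 i) (hd j i h)
                refine Eq.trans ?_ h3
                refine intervalIntegral.integral_congr fun x _ => ?_
                exact mul_comm _ _
              · exact orth hq (h1 i) (h1 j) (hd i j h)
        _ = I.card * (1 / q) := by simp
    · refine orth_int (C := ∑ _j ∈ I, (1 : ℝ)) (Finset.measurable_sum I fun j _ =>
        ((phi_meas q).comp (measurable_const_mul _)).mul
          ((phi_meas q).comp (measurable_const_mul _))) (fun x => ?_) 0 1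
      exact (Finset.abs_sum_le_sum_abs _ _).trans
        (Finset.sum_le_sum fun j _ => orth_phi_mul hq _ _ x)
  -- Markov
  set c : ℝ := (I.card / q) * (I.card / q) with hc
  have hc0 : 0 < c := by positivity
  have e2 : c * (volume.restrict (Set.Ioc (0 : ℝ) 1)).real {r | c ≤ S r * S r} ≤
      ∫ r in (0 : ℝ)..1, S r * S r := by
    rw [intervalIntegral.integral_of_le zero_le_one]
    refine mul_meas_ge_le_integral_of_nonneg
      (Filter.Eventually.of_forall fun r => mul_self_nonneg _) ?_ c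
    have h3 := orth_int (hSm.mul hSm) hSS 0 1
    rw [intervalIntegrable_iff_integrableOn_Ioc_of_le zero_le_one] at h3
    exact h3
  have e3 : (volume.restrict (Set.Ioc (0 : ℝ) 1)).real {r | c ≤ S r * S r} ≤ q / I.card := by
    have h3 := e2.trans e1
    have h4 : c * (q / I.card) = I.card * (1 / q) := by
      rw [hc]
      field_simp
    rw [← h4] at h3
    exact le_of_mul_le_mul_left h3 hc0
  have e4 : volume {r | r ∈ Set.Ico (0 : ℝ) 1 ∧ ∀ i ∈ I, zi q ((Mf i : ℝ) * r) = 0} ≤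
      volume.restrict (Set.Ioc (0 : ℝ) 1) {r | c ≤ S r * S r} := by
    have hme : MeasurableSet {r : ℝ | c ≤ S r * S r} :=
      measurableSet_le measurable_const (hSm.mul hSm)
    rw [Measure.restrict_apply hme]
    have h5 : {r | r ∈ Set.Ico (0 : ℝ) 1 ∧ ∀ i ∈ I, zi q ((Mf i : ℝ) * r) = 0} ⊆
        ({r : ℝ | c ≤ S r * S r} ∩ Set.Ioc 0 1) ∪ {0} := by
      rintro r ⟨hr, hz⟩
      rcases hr.1.eq_or_lt with h6 | h6
      · exact Or.inr h6.symm
      · refine Or.inl ⟨?_, h6, hr.2.le⟩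
        have h7 : S r = -(I.card / q) := by
          show ∑ i ∈ I, phi q ((Mf i : ℝ) * r) = _
          rw [Finset.sum_congr rfl (g := fun _ => -(1 / (q : ℝ))) (fun i hi => by
            rw [phi, hz i hi, zero_sub])]
          rw [Finset.sum_const, nsmul_eq_mul]
          ring
        show c ≤ S r * S r
        rw [h7, hc, neg_mul_neg]
    refine (measure_mono h5).trans ((measure_union_le _ _).trans ?_)
    rw [Real.volume_singleton, add_zero]
  refine e4.trans ?_
  have hfin : volume.restrict (Set.Ioc (0 : ℝ) 1) {r | c ≤ S r * S r} ≠ ⊤ := measure_ne_top _ _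
  rw [← ENNReal.ofReal_toReal hfin]
  exact ENNReal.ofReal_le_ofReal e3

end MP4ba111
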