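import Pool.Agent.Lib.MP_4ba111_an.Defs

/-! The indicator of an arc and its correlation function. -/

set_option autoImplicit false

open MeasureTheory Filter Topology

namespace MP4ba111

/-- indicator of `{x : fract x < 1/q}` -/
noncomputable def zi (q : ℕ) (x : ℝ) : ℝ := if Int.fract x < 1 / (q : ℝ) then 1 else 0

/-- the centred indicator -/
noncomputable def phi (q : ℕ) (x : ℝ) : ℝ := zi q x - 1 / q

/-- the correlation function -/
noncomputable def CC (q : ℕ) (u : ℝ) : ℝ := ∫ x in (0 : ℝ)..1, phi q x * phi q (x + u)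

theorem zi_periodic (q : ℕ) : Function.Periodic (zi q) 1 := by
  intro x
  simp [zi]

theorem phi_periodic (q : ℕ) : Function.Periodic (phi q) 1 := by
  intro x
  simp [phi, zi]

theorem zi_meas (q : ℕ) : Measurable (zi q) :=
  Measurable.ite (measurableSet_lt measurable_fract measurable_const) measurable_const
    measurable_const

theorem phi_meas (q : ℕ) : Measurable (phi q) := (zi_meas q).sub measurable_const

theorem zi_nonneg (q : ℕ) (x : ℝ) : 0 ≤ zi q x := by unfold zi; split_ifs <;> norm_num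

theorem zi_le_one (q : ℕ) (x : ℝ) : zi q x ≤ 1 := by unfold zi; split_ifs <;> norm_num

/-- PROOF. `0 ≤ zi ≤ 1`, `0 < 1/q ≤ 1`. -/
theorem abs_phi_le {q : ℕ} (hq : 1 ≤ q) (x : ℝ) : |phi q x| ≤ 1 := by
  have hq' : (1 : ℝ) ≤ q := by exact_mod_cast hq
  have h1 : 0 < 1 / (q : ℝ) := by positivity
  have h2 : 1 / (q : ℝ) ≤ 1 := by
    rw [div_le_one (by linarith)]
    exact hq'
  have h3 := zi_nonneg q x
  have h4 := zi_le_one q x
  rw [abs_le]
  unfold phi
  constructor <;> linarith

/-- PROOF. `Function.Periodic.intervalIntegral_add_eq`. -/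
theorem int_shift {F : ℝ → ℝ} (hF : Function.Periodic F 1) (a : ℝ) :
    ∫ x in (0 : ℝ)..1, F (x + a) = ∫ x in (0 : ℝ)..1, F x := by
  rw [intervalIntegral.integral_comp_add_right]
  have h := hF.intervalIntegral_add_eq a 0
  rw [zero_add] at h
  rw [zero_add, add_comm 1 a]
  exact h

/-- PROOF. `intervalIntegral.integral_comp_mul_left`, and the integral over `[0, M]` is `M` times the
integral over `[0, 1]` (`Function.Periodic.intervalIntegral_add_zsmul_eq` or induction). -/
theorem int_mul {F : ℝ → ℝ} (hF : Function.Periodic F 1) (hi : ∀ a b, IntervalIntegrable F volume a b)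
    {M : ℕ} (hM : 1 ≤ M) : ∫ x in (0 : ℝ)..1, F (M * x) = ∫ x in (0 : ℝ)..1, F x := by
  have hM' : (M : ℝ) ≠ 0 := by
    have : (1 : ℝ) ≤ M := by exact_mod_cast hM
    linarith
  rw [intervalIntegral.integral_comp_mul_left F hM']
  have h := hF.intervalIntegral_add_zsmul_eq (M : ℤ) 0 hi
  simp only [zero_add, natCast_zsmul, nsmul_eq_mul, mul_one] at h
  rw [mul_zero, mul_one, h, smul_eq_mul, ← mul_assoc, inv_mul_cancel₀ hM', one_mul]

/-- PROOF. On `[0, 1)` we have `fract x = x`; split at `1/q`. -/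
theorem int_phi {q : ℕ} (hq : 1 ≤ q) : ∫ x in (0 : ℝ)..1, phi q x = 0 := by
  have hq' : (1 : ℝ) ≤ q := by exact_mod_cast hq
  have h1 : 0 < 1 / (q : ℝ) := by positivity
  have h2 : 1 / (q : ℝ) ≤ 1 := by
    rw [div_le_one (by linarith)]
    exact hq'
  have e1 : ∫ x in (0 : ℝ)..1, phi q x =
      ∫ x in (0 : ℝ)..1, ((Set.Iio (1 / (q : ℝ))).indicator (fun _ => (1 : ℝ)) x - 1 / q) := by
    apply intervalIntegral.integral_congr_ae
    have hne : ∀ᵐ x : ℝ, x ≠ 1 := by
      simp [ae_iff, measure_singleton]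
    filter_upwards [hne] with x hx1 hx
    rw [Set.uIoc_of_le zero_le_one] at hx
    have hx2 : x < 1 := lt_of_le_of_ne hx.2 hx1
    have hf : Int.fract x = x := Int.fract_eq_self.2 ⟨hx.1.le, hx2⟩
    unfold phi zi
    rw [hf, Set.indicator_apply]
    rfl
  have hi : ∀ a b : ℝ, IntervalIntegrable
      (fun x => (Set.Iio (1 / (q : ℝ))).indicator (fun _ => (1 : ℝ)) x) volume a b := by
    intro a b
    have hc : IntervalIntegrable (fun _ : ℝ => (1 : ℝ)) volume a b := intervalIntegrable_const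
    rw [intervalIntegrable_iff] at hc ⊢
    exact hc.indicator measurableSet_Iio
  rw [e1, intervalIntegral.integral_sub (hi 0 1) intervalIntegrable_const]
  have e2 : ∫ x in (0 : ℝ)..1, (Set.Iio (1 / (q : ℝ))).indicator (fun _ => (1 : ℝ)) x = 1 / q := by
    rw [intervalIntegral.integral_of_le zero_le_one, MeasureTheory.integral_Ioc_eq_integral_Ioo,
      MeasureTheory.setIntegral_indicator measurableSet_Iio]
    have e3 : Set.Ioo (0 : ℝ) 1 ∩ Set.Iio (1 / (q : ℝ)) = Set.Ioo 0 (1 / (q : ℝ)) := by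
      ext y
      simp only [Set.mem_inter_iff, Set.mem_Ioo, Set.mem_Iio]
      constructor
      · rintro ⟨⟨ha, _⟩, hb⟩; exact ⟨ha, hb⟩
      · rintro ⟨ha, hb⟩; exact ⟨⟨ha, by linarith⟩, hb⟩
    rw [e3]
    simp
  rw [e2]
  simp

theorem phi_int {q : ℕ} (hq : 1 ≤ q) (a b : ℝ) : IntervalIntegrable (phi q) volume a b := by
  have hc : IntervalIntegrable (fun _ : ℝ => (1 : ℝ)) volume a b := intervalIntegrable_const
  refine hc.mono_fun (phi_meas q).aestronglyMeasurable ?_
  filter_upwards with x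
  rw [Real.norm_eq_abs, Real.norm_eq_abs, abs_one]
  exact abs_phi_le hq x

end MP4ba111
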