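import Pool.Agent.Lib.MP_4ba111_an.RSets

/-! The deterministic part: points outside the bad set see the level set. -/

set_option autoImplicit false

open MeasureTheory Filter Topology

namespace MP4ba111

theorem rhit_zi (q : ℕ) (x : ℝ) : zi q x = 0 ∨ zi q x = 1 := by
  unfold zi
  split_ifs
  · exact Or.inr rfl
  · exact Or.inl rfl

theorem rhit_dz_le {x : ℝ} (hx : 0 ≤ x) : dz x ≤ x := by
  unfold dz
  have h := round_le x 0
  simp only [Int.cast_zero, sub_zero] at h
  exact h.trans (le_of_eq (abs_of_nonneg hx))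

theorem rhit_card (N : ℕ) {c : ℝ} (hc : 0 ≤ c) :
    ∑ n ∈ Finset.Icc 1 N, (if (n : ℝ) ≤ c then (1 : ℝ) else 0) ≤ c := by
  rw [Finset.sum_ite, Finset.sum_const_zero, add_zero, Finset.sum_const, nsmul_eq_mul, mul_one]
  have h1 : Finset.filter (fun n : ℕ => (n : ℝ) ≤ c) (Finset.Icc 1 N) ⊆ Finset.Icc 1 ⌊c⌋₊ := by
    intro n hn
    rw [Finset.mem_filter, Finset.mem_Icc] at hn
    rw [Finset.mem_Icc]
    exact ⟨hn.1.1, Nat.le_floor hn.2⟩
  have h2 := Finset.card_le_card h1
  rw [Nat.card_Icc, Nat.add_sub_cancel] at h2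
  calc ((Finset.filter (fun n : ℕ => (n : ℝ) ≤ c) (Finset.Icc 1 N)).card : ℝ) ≤ (⌊c⌋₊ : ℝ) := by
        exact_mod_cast h2
    _ ≤ c := Nat.floor_le hc

/-- PROOF. Let `w = syn r`, `u = w - v ≠ 0`. As `r ∉ BadR` there is `j < J` with label `u` and
`zi q (M j r) = 1` (`zi` is `0` or `1`). For `n ∈ [1, N j]` with `n > η N j` and `i ≠ j`, `i < J`:
`zi q (M i (r + s n)) = zi q (M i r)` by `zi_shift` with `h = M i s n`, since `dz h ≤ η`: for `i > j` by
`hb` (`n ≤ N j`), for `i < j` by `hc` (`dz h ≤ |h| = h`). So if moreover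
`zi q (M j (r + s n)) = 0` then `syn (r + s n) = w - u = v`. The number of `n ∈ [1, N j]` with
`zi q (M j (r + s n)) = 1` is `cnt q (M j) (N j) s r ≤ (1/q + δ) N j` (`r ∉ BadR`), the number of those
with `n ≤ η N j` is at most `η N j`. So `hits ≥ N j - η N j - (1/q + δ) N j`. -/
theorem hit_level {q : ℕ} (hq : 1 ≤ q) {m J : ℕ} {M N : ℕ → ℕ} {s : ℕ → ℝ}
    (hs : ∀ n, 1 ≤ n → 0 < s n) {η δ : ℝ} (hη : 0 ≤ η) (hN : ∀ j, 1 ≤ N j)
    (hb : ∀ i j, i < j → ∀ n ∈ Finset.Icc 1 (N i), dz ((M j : ℝ) * s n) ≤ η)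
    (hc : ∀ i j, i < j → ∀ n : ℕ, 1 ≤ n → η * N j < n → (M i : ℝ) * s n ≤ η) {v : ZMod m}
    {r : ℝ} (hr : r ∉ BadR q m J M N s η δ) (hv : syn q m J M r ≠ v) :
    ∃ j ∈ Finset.range J, (1 - η - (1 / q + δ)) * N j ≤
      hits s {r | syn q m J M r = v} (N j) r := by
  have hr1 : ∃ j ∈ Finset.range J, (j : ZMod m) = syn q m J M r - v ∧
      zi q ((M j : ℝ) * r) = 1 := by
    by_contra hcon
    push Not at hcon
    refine hr (Or.inl ⟨syn q m J M r - v, fun j hj hju => ?_⟩)
    exact (rhit_zi q _).resolve_right (hcon j hj hju)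
  have hr2 : ∀ j ∈ Finset.range J, η < dz ((M j : ℝ) * r) ∧ η < dz ((M j : ℝ) * r - 1 / q) := by
    intro j hj
    by_contra hcon
    refine hr (Or.inr (Or.inl ⟨j, hj, ?_⟩))
    rw [sub_zero]
    by_contra h2
    push Not at h2
    exact hcon h2
  have hr3 : ∀ j ∈ Finset.range J, cnt q (M j) (N j) s r ≤ (1 / q + δ) * N j := by
    intro j hj
    by_contra hcon
    exact hr (Or.inr (Or.inr ⟨j, hj, not_le.1 hcon⟩))
  obtain ⟨j, hj, hju, hj1⟩ := hr1
  refine ⟨j, hj, ?_⟩
  have key : ∀ n ∈ Finset.Icc 1 (N j), η * N j < n → zi q ((M j : ℝ) * (r + s n)) = 0 →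
      syn q m J M (r + s n) = v := by
    intro n hn hn2 hz
    have hn1 := (Finset.mem_Icc.1 hn).1
    have h1 : ∀ i ∈ (Finset.range J).erase j,
        (if zi q ((M i : ℝ) * (r + s n)) = 1 then (i : ZMod m) else 0) =
        if zi q ((M i : ℝ) * r) = 1 then (i : ZMod m) else 0 := by
      intro i hi
      rw [Finset.mem_erase] at hi
      have h2 : dz ((M i : ℝ) * s n) ≤ η := by
        rcases lt_or_gt_of_ne hi.1 with h | h
        · exact (rhit_dz_le (mul_nonneg (Nat.cast_nonneg _) (hs n hn1).le)).trans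
            (hc i j h n hn1 hn2)
        · exact hb j i h n hn
      have h3 := zi_shift hq (hr2 i hi.2).1 (hr2 i hi.2).2 h2
      rw [mul_add, h3]
    have h4 : syn q m J M (r + s n) =
        (if zi q ((M j : ℝ) * (r + s n)) = 1 then (j : ZMod m) else 0) +
        ∑ i ∈ (Finset.range J).erase j,
          if zi q ((M i : ℝ) * (r + s n)) = 1 then (i : ZMod m) else 0 := by
      unfold syn
      exact (Finset.add_sum_erase _ _ hj).symm
    have h5 : syn q m J M r =
        (if zi q ((M j : ℝ) * r) = 1 then (j : ZMod m) else 0) +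
        ∑ i ∈ (Finset.range J).erase j,
          if zi q ((M i : ℝ) * r) = 1 then (i : ZMod m) else 0 := by
      unfold syn
      exact (Finset.add_sum_erase _ _ hj).symm
    rw [Finset.sum_congr rfl h1] at h4
    rw [hz, if_neg (by norm_num), zero_add] at h4
    rw [hj1, if_pos rfl, ← h4, hju] at h5
    have h6 : v + (syn q m J M r - v) = syn q m J M (r + s n) + (syn q m J M r - v) := by
      calc v + (syn q m J M r - v) = syn q m J M r := by abel
        _ = (syn q m J M r - v) + syn q m J M (r + s n) := h5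
        _ = _ := add_comm _ _
    exact (add_right_cancel h6).symm
  have hpt : ∀ n ∈ Finset.Icc 1 (N j), (1 : ℝ) - (if (n : ℝ) ≤ η * N j then (1 : ℝ) else 0) -
      zi q ((M j : ℝ) * (r + s n)) ≤
      Set.indicator {r | syn q m J M r = v} (1 : ℝ → ℝ) (r + s n) := by
    intro n hn
    have h0 : (0 : ℝ) ≤ Set.indicator {r | syn q m J M r = v} (1 : ℝ → ℝ) (r + s n) :=
      Set.indicator_nonneg (fun _ _ => zero_le_one) _
    by_cases h1 : (n : ℝ) ≤ η * N j
    · rw [if_pos h1]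
      rcases rhit_zi q ((M j : ℝ) * (r + s n)) with h2 | h2 <;> rw [h2] <;> linarith
    · rw [if_neg h1]
      rcases rhit_zi q ((M j : ℝ) * (r + s n)) with h2 | h2
      · have h3 := key n hn (not_le.1 h1) h2
        have h4 : Set.indicator {r | syn q m J M r = v} (1 : ℝ → ℝ) (r + s n) = 1 :=
          Set.indicator_of_mem (show r + s n ∈ {r | syn q m J M r = v} from h3) _
        rw [h2, h4]
        norm_num
      · rw [h2]
        linarith
  have hsum := Finset.sum_le_sum hpt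
  rw [Finset.sum_sub_distrib, Finset.sum_sub_distrib, Finset.sum_const, Nat.card_Icc,
    Nat.add_sub_cancel, nsmul_eq_mul, mul_one] at hsum
  have hcard := rhit_card (N j) (mul_nonneg hη (Nat.cast_nonneg (N j)))
  have hcnt := hr3 j hj
  unfold cnt at hcnt
  unfold hits
  calc (1 - η - (1 / q + δ)) * N j = (N j : ℝ) - η * N j - (1 / q + δ) * N j := by ring
    _ ≤ _ := by linarith

end MP4ba111
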