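import Pool.Agent.Lib.MP_4ba111_an.RSets

/-! The bad set is small. -/

set_option autoImplicit false

open MeasureTheory Filter Topology

namespace MP4ba111

/-- PROOF. Union bound: `cheb` for the `J'` indices `j < m J'` of each label `u` (total
`m * (q / J')`), `near_meas` (`2 η` each, `2 m J'` sets), and `hV` (`δ` each). -/
theorem BadR_small {q : ℕ} (hq : 1 ≤ q) {m J' : ℕ} (hm : 1 ≤ m) (hJ : 1 ≤ J') {M N : ℕ → ℕ}
    {s : ℕ → ℝ} {η δ : ℝ} (hη : 0 ≤ η) (hδ : 0 ≤ δ) (h1 : ∀ j, 1 ≤ M j)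
    (hd : ∀ i j, i < j → q * M i ∣ M j)
    (hV : ∀ j, volume {r | r ∈ Set.Ico (0 : ℝ) 1 ∧ (1 / q + δ) * N j < cnt q (M j) (N j) s r} ≤
      ENNReal.ofReal δ) :
    volume (BadR q m (m * J') M N s η δ ∩ Set.Ico (0 : ℝ) 1) ≤
      ENNReal.ofReal (m * (q / J') + (m * J') * (4 * η) + (m * J') * δ) := by
  have hqJ : (0 : ℝ) ≤ (q : ℝ) / J' := by positivity
  let As : ℕ → Set ℝ := fun k => {r | r ∈ Set.Ico (0 : ℝ) 1 ∧
    ∀ i ∈ (Finset.range J').image (fun i => m * i + k), zi q ((M i : ℝ) * r) = 0}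
  let Bs : ℕ → Set ℝ := fun j => {r | r ∈ Set.Ico (0 : ℝ) 1 ∧ dz ((M j : ℝ) * r - 0) ≤ η}
  let Cs : ℕ → Set ℝ := fun j => {r | r ∈ Set.Ico (0 : ℝ) 1 ∧ dz ((M j : ℝ) * r - 1 / q) ≤ η}
  let Ds : ℕ → Set ℝ := fun j => {r | r ∈ Set.Ico (0 : ℝ) 1 ∧
    (1 / q + δ) * N j < cnt q (M j) (N j) s r}
  have hsub : BadR q m (m * J') M N s η δ ∩ Set.Ico (0 : ℝ) 1 ⊆
      ((⋃ k ∈ Finset.range m, As k) ∪ (⋃ j ∈ Finset.range (m * J'), (Bs j ∪ Cs j))) ∪
        (⋃ j ∈ Finset.range (m * J'), Ds j) := by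
    rintro r ⟨hr, hI⟩
    rcases hr with ⟨u, hu⟩ | ⟨j, hj, h⟩ | ⟨j, hj, h⟩
    · left
      left
      haveI : NeZero m := ⟨by omega⟩
      have hlt := ZMod.val_lt u
      simp only [Set.mem_iUnion]
      refine ⟨u.val, Finset.mem_range.2 hlt, hI, ?_⟩
      intro i hi
      obtain ⟨i', hi', rfl⟩ := Finset.mem_image.1 hi
      apply hu
      · rw [Finset.mem_range] at hi' ⊢
        calc m * i' + u.val < m * i' + m := by omega
          _ = m * (i' + 1) := by ring
          _ ≤ m * J' := Nat.mul_le_mul_left m hi'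
      · push_cast
        simp
    · left
      right
      simp only [Set.mem_iUnion]
      refine ⟨j, hj, ?_⟩
      rcases h with h | h
      · exact Or.inl ⟨hI, h⟩
      · exact Or.inr ⟨hI, h⟩
    · right
      simp only [Set.mem_iUnion]
      exact ⟨j, hj, hI, h⟩
  have hA : ∀ k, volume (As k) ≤ ENNReal.ofReal (q / J') := by
    intro k
    have hcard : ((Finset.range J').image (fun i => m * i + k)).card = J' := by
      rw [Finset.card_image_of_injective, Finset.card_range]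
      intro a b hab
      have : m * a = m * b := by simpa using hab
      exact Nat.eq_of_mul_eq_mul_left (by omega) this
    have hne : ((Finset.range J').image (fun i => m * i + k)).Nonempty := by
      rw [← Finset.card_pos, hcard]
      omega
    have := cheb hq hne h1 hd
    rw [hcard] at this
    exact this
  have hB : ∀ j, volume (Bs j ∪ Cs j) ≤ ENNReal.ofReal (4 * η) := by
    intro j
    calc volume (Bs j ∪ Cs j) ≤ volume (Bs j) + volume (Cs j) := measure_union_le _ _
      _ ≤ ENNReal.ofReal (2 * η) + ENNReal.ofReal (2 * η) :=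
        add_le_add (near_meas (h1 j) 0 hη) (near_meas (h1 j) (1 / q) hη)
      _ = ENNReal.ofReal (4 * η) := by
        rw [← ENNReal.ofReal_add (by positivity) (by positivity)]
        congr 1
        ring
  have hsum : ∀ (n : ℕ) (F : ℕ → Set ℝ) (x : ℝ), 0 ≤ x →
      (∀ j, volume (F j) ≤ ENNReal.ofReal x) →
      volume (⋃ j ∈ Finset.range n, F j) ≤ ENNReal.ofReal (n * x) := by
    intro n F x hx hF
    calc volume (⋃ j ∈ Finset.range n, F j) ≤ ∑ j ∈ Finset.range n, volume (F j) :=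
        measure_biUnion_finset_le _ _
      _ ≤ ∑ _j ∈ Finset.range n, ENNReal.ofReal x := Finset.sum_le_sum fun j _ => hF j
      _ = ENNReal.ofReal (n * x) := by
        rw [Finset.sum_const, Finset.card_range, nsmul_eq_mul,
          ENNReal.ofReal_mul (Nat.cast_nonneg n), ENNReal.ofReal_natCast]
  calc volume (BadR q m (m * J') M N s η δ ∩ Set.Ico (0 : ℝ) 1)
      ≤ volume (((⋃ k ∈ Finset.range m, As k) ∪ (⋃ j ∈ Finset.range (m * J'), (Bs j ∪ Cs j))) ∪
        (⋃ j ∈ Finset.range (m * J'), Ds j)) := measure_mono hsub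
    _ ≤ volume (⋃ k ∈ Finset.range m, As k) +
        volume (⋃ j ∈ Finset.range (m * J'), (Bs j ∪ Cs j)) +
        volume (⋃ j ∈ Finset.range (m * J'), Ds j) :=
      (measure_union_le _ _).trans (add_le_add (measure_union_le _ _) le_rfl)
    _ ≤ ENNReal.ofReal (m * (q / J')) + ENNReal.ofReal ((m * J' : ℕ) * (4 * η)) +
        ENNReal.ofReal ((m * J' : ℕ) * δ) :=
      add_le_add (add_le_add (hsum m As _ hqJ hA)
        (hsum (m * J') (fun j => Bs j ∪ Cs j) _ (by positivity) hB))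
        (hsum (m * J') Ds δ hδ hV)
    _ = ENNReal.ofReal (m * (q / J') + (m * J') * (4 * η) + (m * J') * δ) := by
      rw [← ENNReal.ofReal_add (by positivity) (by positivity),
        ← ENNReal.ofReal_add (by positivity) (by positivity)]
      push_cast
      rfl

end MP4ba111
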