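import Pool.Agent.Lib.MP_4ba111_an.Seq
import Pool.Agent.Lib.MP_4ba111_an.RHit
import Pool.Agent.Lib.MP_4ba111_an.RSmall

/-! The property on the line for sequences tending to zero. -/

set_option autoImplicit false

open MeasureTheory Filter Topology

namespace MP4ba111

/-- PROOF. With `e = min ε 1` choose `m, q ≥ 1` with `1/m, 1/q ≤ e/8`, then `J' ≥ 1` with
`m * (q / J') ≤ e/8`, then `η, δ > 0` with `(m J') * (4 η) ≤ e/8`, `η ≤ e/8`, `(m J') * δ ≤ e/8`,
`δ ≤ e/8`; `M, N` from `exists_seq`; `v` from `exists_level`; `B = {syn = v}`,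
`G = BadR ∪ B`, `L = 1`, `N1 = ∑ j < m J', N j`. `per_window` for the densities; `hit_level`. -/
theorem rprop_of_tendsto {s : ℕ → ℝ} (hs : ∀ n, 1 ≤ n → 0 < s n) (hinj : Set.InjOn s (Set.Ici 1))
    (hlim : Tendsto s atTop (𝓝 0)) : RProp s := by
  intro ε hε N0
  set e : ℝ := min ε 1 with he
  have he0 : 0 < e := lt_min hε one_pos
  have heε : e ≤ ε := min_le_left _ _
  have he1 : e ≤ 1 := min_le_right _ _
  -- the parameters
  obtain ⟨m, hm⟩ := exists_nat_ge (8 / e)
  have hmpos : (0 : ℝ) < m := lt_of_lt_of_le (by positivity) hm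
  have hm1 : 1 ≤ m := by
    have : 0 < m := by exact_mod_cast hmpos
    exact this
  have hinv : 1 / (m : ℝ) ≤ e / 8 := by
    rw [div_le_iff₀ hmpos]
    rw [div_le_iff₀ he0] at hm
    linarith
  obtain ⟨J', hJ⟩ := exists_nat_ge ((m : ℝ) * m * 8 / e)
  have hJpos : (0 : ℝ) < J' := lt_of_lt_of_le (by positivity) hJ
  have hJ1 : 1 ≤ J' := by
    have : 0 < J' := by exact_mod_cast hJpos
    exact this
  have hmJ : (m : ℝ) * ((m : ℝ) / J') ≤ e / 8 := by
    rw [← mul_div_assoc, div_le_iff₀ hJpos]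
    rw [div_le_iff₀ he0] at hJ
    linarith
  set P : ℝ := (m : ℝ) * J' with hP
  have hPpos : 0 < P := mul_pos hmpos hJpos
  have hP1 : 1 ≤ P := by
    have h1 : (1 : ℝ) ≤ m := by exact_mod_cast hm1
    have h2 : (1 : ℝ) ≤ J' := by exact_mod_cast hJ1
    rw [hP]
    nlinarith
  set η : ℝ := e / (32 * P) with hη
  have hη0 : 0 < η := by positivity
  have hPη : P * η = e / 32 := by
    rw [hη]
    field_simp
  have hηe : η ≤ e / 8 := by
    have : η ≤ P * η := le_mul_of_one_le_left hη0.le hP1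
    rw [hPη] at this
    linarith
  obtain ⟨M, N, h1, hN, hd, hb, hc, hV⟩ := exists_seq hs hinj hlim hm1 hη0 hη0 N0
  obtain ⟨v, hv⟩ := exists_level m (m * J') hm1 M
  have hBm := syn_meas m m (m * J') M v
  have hGm := BadR_meas m m (m * J') M N s η η
  have hBp : ∀ r : ℝ, r + 1 ∈ {r | syn m m (m * J') M r = v} ↔
      r ∈ {r | syn m m (m * J') M r = v} := by
    intro r
    show syn m m (m * J') M (r + 1) = v ↔ syn m m (m * J') M r = v
    rw [syn_periodic]
  have hB : ∀ a : ℝ, volume ({r | syn m m (m * J') M r = v} ∩ Set.Icc a (a + 1)) ≤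
      ENNReal.ofReal (e / 8) := by
    intro a
    rw [per_window hBm hBp a]
    exact hv.trans (ENNReal.ofReal_le_ofReal hinv)
  have hbad := BadR_small hm1 hm1 hJ1 hη0.le hη0.le h1 hd hV
  have hG : ∀ a : ℝ, volume (BadR m m (m * J') M N s η η ∩ Set.Icc a (a + 1)) ≤
      ENNReal.ofReal (e / 2) := by
    intro a
    rw [per_window hGm (BadR_periodic m m (m * J') M N s η η) a]
    refine hbad.trans (ENNReal.ofReal_le_ofReal ?_)
    have h4 : (m : ℝ) * J' * (4 * η) = 4 * (P * η) := by rw [hP]; ring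
    have h5 : (m : ℝ) * J' * η = P * η := by rw [hP]
    rw [h4, h5, hPη]
    linarith
  refine ⟨{r | syn m m (m * J') M r = v},
    BadR m m (m * J') M N s η η ∪ {r | syn m m (m * J') M r = v}, 1,
    ∑ j ∈ Finset.range (m * J'), N j, hBm, hGm.union hBm, one_pos, ?_, ?_, ?_⟩
  · intro a
    refine (hB a).trans (ENNReal.ofReal_le_ofReal ?_)
    linarith
  · intro a
    rw [Set.union_inter_distrib_right]
    refine (measure_union_le _ _).trans ((add_le_add (hG a) (hB a)).trans ?_)
    rw [← ENNReal.ofReal_add (by positivity) (by positivity)]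
    refine ENNReal.ofReal_le_ofReal ?_
    linarith
  · intro r hr
    rw [Set.mem_union, not_or] at hr
    obtain ⟨j, hj, hle⟩ := hit_level hm1 hs hη0.le (fun j => (hN j).2) hb hc hr.1 hr.2
    refine ⟨N j, (hN j).2, (hN j).1, ?_, ?_⟩
    · exact Finset.single_le_sum (f := N) (fun i _ => Nat.zero_le _) hj
    · refine le_trans ?_ hle
      refine mul_le_mul_of_nonneg_right ?_ (Nat.cast_nonneg _)
      linarith

end MP4ba111
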