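import Pool.Agent.Lib.MP_4ba111_an.Per

/-! The variance of the counting function. -/

set_option autoImplicit false

open MeasureTheory Filter Topology

namespace MP4ba111

/-- the number of `m ∈ [1, n]` with `fract (M (r + s_m)) < 1/q` -/
noncomputable def cnt (q M n : ℕ) (s : ℕ → ℝ) (r : ℝ) : ℝ :=
  ∑ m ∈ Finset.Icc 1 n, zi q ((M : ℝ) * (r + s m))

theorem var_pint {q : ℕ} (hq : 1 ≤ q) (u v : ℝ → ℝ) (hu : Measurable u) (hv : Measurable v)
    (c d : ℝ) : IntervalIntegrable (fun x => phi q (u x) * phi q (v x)) volume c d := by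
  refine (intervalIntegrable_const (c := (1 : ℝ))).mono_fun' ?_ ?_
  · exact (((phi_meas q).comp hu).mul ((phi_meas q).comp hv)).aestronglyMeasurable
  · refine ae_of_all _ fun x => ?_
    have h1 := abs_phi_le hq (u x)
    have h2 := abs_phi_le hq (v x)
    show ‖phi q (u x) * phi q (v x)‖ ≤ 1
    rw [Real.norm_eq_abs, abs_mul]
    calc |phi q (u x)| * |phi q (v x)| ≤ 1 * 1 :=
          mul_le_mul h1 h2 (abs_nonneg _) zero_le_one
      _ = 1 := one_mul 1

theorem var_sum_int (t : Finset ℕ) (F : ℕ → ℝ → ℝ)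
    (hF : ∀ i ∈ t, IntervalIntegrable (F i) volume 0 1) :
    IntervalIntegrable (fun x => ∑ i ∈ t, F i x) volume 0 1 := by
  have h : (fun x => ∑ i ∈ t, F i x) = ∑ i ∈ t, F i := by
    funext x
    rw [Finset.sum_apply]
  rw [h]
  exact IntervalIntegrable.sum _ hF

theorem var_cnt_sub (q M n : ℕ) (s : ℕ → ℝ) (r : ℝ) :
    cnt q M n s r - n / q = ∑ m ∈ Finset.Icc 1 n, phi q ((M : ℝ) * (r + s m)) := by
  unfold cnt phi
  rw [Finset.sum_sub_distrib, Finset.sum_const, Nat.card_Icc]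
  simp [nsmul_eq_mul, div_eq_mul_inv]

/-- PROOF. `cnt - n/q = ∑ phi (M (r + s_m))`; expand the square, and
`∫_0^1 phi (M r + M s_i) phi (M r + M s_j) dr = ∫_0^1 phi (x + M s_i) phi (x + M s_j) dx`
(`int_mul` for `F x = phi (x + M s_i) phi (x + M s_j)`) `= ∫_0^1 phi x phi (x + M (s_j - s_i)) dx`
(`int_shift`). -/
theorem var_eq {q : ℕ} (hq : 1 ≤ q) {M : ℕ} (hM : 1 ≤ M) (n : ℕ) (s : ℕ → ℝ) :
    ∫ r in (0 : ℝ)..1, (cnt q M n s r - n / q) ^ 2 =
      ∑ i ∈ Finset.Icc 1 n, ∑ j ∈ Finset.Icc 1 n, CC q ((M : ℝ) * (s j - s i)) := by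
  have hm : ∀ a : ℝ, Measurable fun r : ℝ => (M : ℝ) * (r + a) := fun a =>
    (measurable_id.add_const a).const_mul _
  have h1 : ∀ r : ℝ, (cnt q M n s r - n / q) ^ 2 =
      ∑ i ∈ Finset.Icc 1 n, ∑ j ∈ Finset.Icc 1 n,
        phi q ((M : ℝ) * (r + s i)) * phi q ((M : ℝ) * (r + s j)) := by
    intro r
    rw [var_cnt_sub, sq, Finset.sum_mul_sum]
  simp_rw [h1]
  rw [intervalIntegral.integral_finsetSum]
  · refine Finset.sum_congr rfl fun i _ => ?_
    rw [intervalIntegral.integral_finsetSum]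
    · refine Finset.sum_congr rfl fun j _ => ?_
      have hper : Function.Periodic
          (fun x : ℝ => phi q x * phi q (x + (M : ℝ) * (s j - s i))) 1 := by
        intro x
        have e1 : phi q (x + 1) = phi q x := phi_periodic q x
        have e2 : phi q (x + 1 + (M : ℝ) * (s j - s i)) = phi q (x + (M : ℝ) * (s j - s i)) := by
          rw [show x + 1 + (M : ℝ) * (s j - s i) = (x + (M : ℝ) * (s j - s i)) + 1 by ring]
          exact phi_periodic q _
        show phi q (x + 1) * phi q (x + 1 + (M : ℝ) * (s j - s i)) = _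
        rw [e1, e2]
      have hper2 : Function.Periodic
          (fun x : ℝ => phi q (x + (M : ℝ) * s i) * phi q (x + (M : ℝ) * s j)) 1 := by
        intro x
        have e1 : phi q (x + 1 + (M : ℝ) * s i) = phi q (x + (M : ℝ) * s i) := by
          rw [show x + 1 + (M : ℝ) * s i = (x + (M : ℝ) * s i) + 1 by ring]
          exact phi_periodic q _
        have e2 : phi q (x + 1 + (M : ℝ) * s j) = phi q (x + (M : ℝ) * s j) := by
          rw [show x + 1 + (M : ℝ) * s j = (x + (M : ℝ) * s j) + 1 by ring]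
          exact phi_periodic q _
        show phi q (x + 1 + (M : ℝ) * s i) * phi q (x + 1 + (M : ℝ) * s j) = _
        rw [e1, e2]
      have k1 := int_mul hper2 (fun a b => var_pint hq _ _ (measurable_id.add_const _)
        (measurable_id.add_const _) a b) hM
      have k2 := int_shift hper ((M : ℝ) * s i)
      unfold CC
      rw [← k2]
      have e3 : (fun x : ℝ => phi q (x + (M : ℝ) * s i) *
          phi q (x + (M : ℝ) * s i + (M : ℝ) * (s j - s i))) =
          fun x : ℝ => phi q (x + (M : ℝ) * s i) * phi q (x + (M : ℝ) * s j) := by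
        funext x
        rw [show x + (M : ℝ) * s i + (M : ℝ) * (s j - s i) = x + (M : ℝ) * s j by ring]
      simp only [e3]
      rw [← k1]
      refine intervalIntegral.integral_congr fun x _ => ?_
      show phi q ((M : ℝ) * (x + s i)) * phi q ((M : ℝ) * (x + s j)) =
        phi q ((M : ℝ) * x + (M : ℝ) * s i) * phi q ((M : ℝ) * x + (M : ℝ) * s j)
      rw [mul_add, mul_add]
    · intro j _
      exact var_pint hq _ _ (hm _) (hm _) 0 1
  · intro i _
    exact var_sum_int _ _ fun j _ => var_pint hq _ _ (hm _) (hm _) 0 1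

/-- PROOF. Chebyshev: on the set, `(cnt - n/q)^2 ≥ (δ n)^2`. (`0 < n`.)
`meas_ge_le_lintegral_div` or `mul_meas_ge_le_integral_of_nonneg` for `volume.restrict (Ico 0 1)`. -/
theorem var_cheb {q : ℕ} (hq : 1 ≤ q) {M : ℕ} {n : ℕ} (hn : 1 ≤ n) (s : ℕ → ℝ) {δ v : ℝ}
    (hδ : 0 < δ) (hv : ∫ r in (0 : ℝ)..1, (cnt q M n s r - n / q) ^ 2 ≤ v * (n : ℝ) ^ 2) :
    volume {r | r ∈ Set.Ico (0 : ℝ) 1 ∧ (1 / q + δ) * n < cnt q M n s r} ≤
      ENNReal.ofReal (v / δ ^ 2) := by
  have hn0 : (0 : ℝ) < n := by exact_mod_cast hn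
  have hm : ∀ a : ℝ, Measurable fun r : ℝ => (M : ℝ) * (r + a) := fun a =>
    (measurable_id.add_const a).const_mul _
  set f : ℝ → ℝ := fun r => (cnt q M n s r - n / q) ^ 2 with hf
  have hint : IntervalIntegrable f volume 0 1 := by
    have h1 : f = fun r => ∑ i ∈ Finset.Icc 1 n, ∑ j ∈ Finset.Icc 1 n,
        phi q ((M : ℝ) * (r + s i)) * phi q ((M : ℝ) * (r + s j)) := by
      funext r
      rw [hf]
      simp only
      rw [var_cnt_sub, sq, Finset.sum_mul_sum]
    rw [h1]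
    exact var_sum_int _ _ fun i _ => var_sum_int _ _ fun j _ =>
      var_pint hq _ _ (hm _) (hm _) 0 1
  have hmeas : Measurable f := by
    rw [hf]
    refine Measurable.pow_const ?_ 2
    refine Measurable.sub_const ?_ _
    exact Finset.measurable_sum _ fun m _ => (zi_meas q).comp (hm _)
  have hint2 : IntegrableOn f (Set.Ioc 0 1) volume :=
    (intervalIntegrable_iff_integrableOn_Ioc_of_le zero_le_one).1 hint
  rw [intervalIntegral.integral_of_le zero_le_one] at hv
  have hc : (0 : ℝ) < (δ * n) ^ 2 := by positivity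
  have key := mul_meas_ge_le_integral_of_nonneg (μ := volume.restrict (Set.Ioc (0 : ℝ) 1))
    (f := f) (ae_of_all _ fun r => sq_nonneg _) hint2 ((δ * n) ^ 2)
  have hset : MeasurableSet {r | (δ * n) ^ 2 ≤ f r} := measurableSet_le measurable_const hmeas
  -- compare the sets
  have hsub : {r | r ∈ Set.Ico (0 : ℝ) 1 ∧ (1 / q + δ) * n < cnt q M n s r} ⊆
      Set.Ico (0 : ℝ) 1 ∩ {r | (δ * n) ^ 2 ≤ f r} := by
    rintro r ⟨h1, h2⟩
    refine ⟨h1, ?_⟩
    have h3 : δ * n ≤ cnt q M n s r - n / q := by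
      have : (1 / (q : ℝ) + δ) * n = n / q + δ * n := by ring
      linarith
    show (δ * n) ^ 2 ≤ (cnt q M n s r - n / q) ^ 2
    exact pow_le_pow_left₀ (by positivity) h3 2
  have hvol : volume (Set.Ico (0 : ℝ) 1 ∩ {r | (δ * n) ^ 2 ≤ f r}) =
      (volume.restrict (Set.Ioc (0 : ℝ) 1)) {r | (δ * n) ^ 2 ≤ f r} := by
    rw [Measure.restrict_congr_set (Ico_ae_eq_Ioc (μ := (volume : Measure ℝ)) (a := (0:ℝ)) (b := 1)).symm,
      Measure.restrict_apply hset, Set.inter_comm]
  refine (measure_mono hsub).trans ?_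
  rw [hvol]
  have hfin : (volume.restrict (Set.Ioc (0 : ℝ) 1)) {r | (δ * n) ^ 2 ≤ f r} ≠ ⊤ :=
    measure_ne_top _ _
  refine (ENNReal.le_ofReal_iff_toReal_le hfin ?_).2 ?_
  · have h0 : (0 : ℝ) ≤ v * (n : ℝ) ^ 2 :=
      (setIntegral_nonneg measurableSet_Ioc fun r _ => sq_nonneg _).trans hv
    have : 0 ≤ v := nonneg_of_mul_nonneg_left h0 (by positivity)
    positivity
  · have h4 : (δ * n) ^ 2 * ((volume.restrict (Set.Ioc (0 : ℝ) 1)) {r | (δ * n) ^ 2 ≤ f r}).toReal
        ≤ v * (n : ℝ) ^ 2 := key.trans hv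
    rw [le_div_iff₀ (by positivity)]
    have h5 : (0 : ℝ) < (n : ℝ) ^ 2 := by positivity
    nlinarith [h4]

end MP4ba111
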