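import Pool.Agent.Lib.MP_4ba111_an.Near
import Pool.Agent.Lib.MP_4ba111_an.NearB
import Pool.Agent.Lib.MP_4ba111_an.Orth
import Pool.Agent.Lib.MP_4ba111_an.Var

/-! The syndrome function and its level sets. -/

set_option autoImplicit false

open MeasureTheory Filter Topology

namespace MP4ba111

/-- the syndrome: the sum of the labels `j mod m` over the `j < J` with `fract (M_j r) < 1/q` -/
noncomputable def syn (q m J : ℕ) (M : ℕ → ℕ) (r : ℝ) : ZMod m :=
  ∑ j ∈ Finset.range J, if zi q ((M j : ℝ) * r) = 1 then (j : ZMod m) else 0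

theorem rsets_zi_add_nat (q : ℕ) (x : ℝ) (n : ℕ) : zi q (x + n) = zi q x := by
  simp [zi]

theorem rsets_zi_mul (q M : ℕ) (r : ℝ) : zi q ((M : ℝ) * (r + 1)) = zi q ((M : ℝ) * r) := by
  rw [mul_add, mul_one, rsets_zi_add_nat]

theorem rsets_dz_mul (M : ℕ) (r a : ℝ) : dz ((M : ℝ) * (r + 1) - a) = dz ((M : ℝ) * r - a) := by
  have h : (M : ℝ) * (r + 1) - a = ((M : ℝ) * r - a) + ((M : ℤ) : ℝ) := by
    push_cast
    ring
  rw [h, dz_add_int]

theorem rsets_cnt (q M n : ℕ) (s : ℕ → ℝ) (r : ℝ) : cnt q M n s (r + 1) = cnt q M n s r := by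
  unfold cnt
  apply Finset.sum_congr rfl
  intro m _
  have h : (M : ℝ) * (r + 1 + s m) = (M : ℝ) * (r + s m) + (M : ℝ) := by ring
  rw [h, rsets_zi_add_nat]

theorem rsets_dz_meas : Measurable dz := by
  have h : dz = fun x => min (Int.fract x) (1 - Int.fract x) := by
    funext x
    exact abs_sub_round_eq_min x
  rw [h]
  exact measurable_fract.min (measurable_const.sub measurable_fract)

theorem rsets_zi_comp_meas (q M : ℕ) : Measurable fun r : ℝ => zi q ((M : ℝ) * r) :=
  (zi_meas q).comp (measurable_const.mul measurable_id)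

theorem rsets_cnt_meas (q M n : ℕ) (s : ℕ → ℝ) : Measurable (cnt q M n s) := by
  unfold cnt
  refine Finset.measurable_sum _ fun m _ => ?_
  exact (zi_meas q).comp (measurable_const.mul (measurable_id.add measurable_const))

/-- PROOF. `zi_periodic` (add the integer `M j`). -/
theorem syn_periodic (q m J : ℕ) (M : ℕ → ℕ) (r : ℝ) : syn q m J M (r + 1) = syn q m J M r := by
  unfold syn
  apply Finset.sum_congr rfl
  intro j _
  rw [rsets_zi_mul]

theorem syn_meas (q m J : ℕ) (M : ℕ → ℕ) (v : ZMod m) : MeasurableSet {r | syn q m J M r = v} := by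
  induction J generalizing v with
  | zero =>
    simp only [syn, Finset.range_zero, Finset.sum_empty]
    exact MeasurableSet.const _
  | succ J ih =>
    have h1 : MeasurableSet {r : ℝ | zi q ((M J : ℝ) * r) = 1} :=
      rsets_zi_comp_meas q (M J) (measurableSet_singleton 1)
    have h2 : {r | syn q m (J + 1) M r = v} =
        ({r : ℝ | zi q ((M J : ℝ) * r) = 1} ∩ {r | syn q m J M r = v - (J : ZMod m)}) ∪
        ({r : ℝ | zi q ((M J : ℝ) * r) = 1}ᶜ ∩ {r | syn q m J M r = v}) := by
      ext r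
      have h3 : syn q m (J + 1) M r =
          syn q m J M r + (if zi q ((M J : ℝ) * r) = 1 then (J : ZMod m) else 0) := by
        unfold syn
        rw [Finset.sum_range_succ]
      simp only [Set.mem_ofPred_eq, Set.mem_union, Set.mem_inter_iff, Set.mem_compl_iff, h3]
      by_cases h : zi q ((M J : ℝ) * r) = 1
      · simp only [h, if_true, true_and, not_true_eq_false, false_and, or_false]
        exact eq_sub_iff_add_eq.symm
      · simp only [h, if_false, add_zero, false_and, not_false_eq_true, true_and, false_or]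
    rw [h2]
    exact (h1.inter (ih _)).union (h1.compl.inter (ih _))

/-- PROOF. The `m` level sets are disjoint, with union `[0, 1)`; pigeonhole. -/
theorem exists_level (q J : ℕ) {m : ℕ} (hm : 1 ≤ m) (M : ℕ → ℕ) : ∃ v : ZMod m,
    volume ({r | syn q m J M r = v} ∩ Set.Ico (0 : ℝ) 1) ≤ ENNReal.ofReal (1 / m) := by
  have : NeZero m := ⟨by omega⟩
  by_contra hcon
  push Not at hcon
  have h1 : ∑ v : ZMod m, volume ({r | syn q m J M r = v} ∩ Set.Ico (0 : ℝ) 1) = 1 := by
    rw [← measure_biUnion_finset]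
    · have h2 : (⋃ v ∈ (Finset.univ : Finset (ZMod m)), {r | syn q m J M r = v} ∩
          Set.Ico (0 : ℝ) 1) = Set.Ico (0 : ℝ) 1 := by
        ext r
        simp
      rw [h2, Real.volume_Ico, sub_zero, ENNReal.ofReal_one]
    · intro v _ w _ hvw
      rw [Function.onFun, Set.disjoint_left]
      rintro r ⟨h3, _⟩ ⟨h4, _⟩
      exact hvw (h3.symm.trans h4)
    · intro v _
      exact (syn_meas q m J M v).inter measurableSet_Ico
  have h2 : ∑ _v : ZMod m, ENNReal.ofReal (1 / (m : ℝ)) = 1 := by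
    rw [Finset.sum_const, Finset.card_univ, ZMod.card, nsmul_eq_mul]
    have hm0 : (0 : ℝ) < m := by exact_mod_cast hm
    rw [← ENNReal.ofReal_natCast, ← ENNReal.ofReal_mul (Nat.cast_nonneg m),
      mul_one_div_cancel hm0.ne', ENNReal.ofReal_one]
  have h3 : ∑ _v : ZMod m, ENNReal.ofReal (1 / (m : ℝ)) <
      ∑ v : ZMod m, volume ({r | syn q m J M r = v} ∩ Set.Ico (0 : ℝ) 1) :=
    ENNReal.sum_lt_sum_of_nonempty Finset.univ_nonempty fun v _ => hcon v
  rw [h1, h2] at h3
  exact lt_irrefl _ h3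

/-- The bad points: a label without zero digit; near a jump; not equidistributed. -/
def BadR (q m J : ℕ) (M N : ℕ → ℕ) (s : ℕ → ℝ) (η δ : ℝ) : Set ℝ :=
  {r | (∃ u : ZMod m, ∀ j ∈ Finset.range J, (j : ZMod m) = u → zi q ((M j : ℝ) * r) = 0) ∨
    (∃ j ∈ Finset.range J, dz ((M j : ℝ) * r - 0) ≤ η ∨ dz ((M j : ℝ) * r - 1 / q) ≤ η) ∨
    ∃ j ∈ Finset.range J, (1 / q + δ) * N j < cnt q (M j) (N j) s r}

theorem BadR_periodic (q m J : ℕ) (M N : ℕ → ℕ) (s : ℕ → ℝ) (η δ : ℝ) (r : ℝ) :
    r + 1 ∈ BadR q m J M N s η δ ↔ r ∈ BadR q m J M N s η δ := by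
  simp only [BadR, Set.mem_ofPred_eq, rsets_zi_mul, rsets_dz_mul, rsets_cnt]

theorem BadR_meas (q m J : ℕ) (M N : ℕ → ℕ) (s : ℕ → ℝ) (η δ : ℝ) :
    MeasurableSet (BadR q m J M N s η δ) := by
  have hc : Countable (ZMod m) := by
    cases m with
    | zero => exact inferInstanceAs (Countable ℤ)
    | succ n => exact inferInstance
  have h1 : MeasurableSet {r : ℝ | ∃ u : ZMod m, ∀ j ∈ Finset.range J, (j : ZMod m) = u →
      zi q ((M j : ℝ) * r) = 0} := by
    have e : {r : ℝ | ∃ u : ZMod m, ∀ j ∈ Finset.range J, (j : ZMod m) = u →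
        zi q ((M j : ℝ) * r) = 0} = ⋃ u : ZMod m, ⋂ j ∈ Finset.range J,
        ⋂ (_ : (j : ZMod m) = u), {r : ℝ | zi q ((M j : ℝ) * r) = 0} := by
      ext r
      simp
    rw [e]
    refine MeasurableSet.iUnion fun u => ?_
    refine Finset.measurableSet_biInter _ fun j _ => ?_
    refine MeasurableSet.iInter fun _ => ?_
    exact rsets_zi_comp_meas q (M j) (measurableSet_singleton 0)
  have h2 : MeasurableSet {r : ℝ | ∃ j ∈ Finset.range J, dz ((M j : ℝ) * r - 0) ≤ η ∨
      dz ((M j : ℝ) * r - 1 / q) ≤ η} := by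
    have e : {r : ℝ | ∃ j ∈ Finset.range J, dz ((M j : ℝ) * r - 0) ≤ η ∨
        dz ((M j : ℝ) * r - 1 / q) ≤ η} = ⋃ j ∈ Finset.range J,
        ({r : ℝ | dz ((M j : ℝ) * r - 0) ≤ η} ∪ {r : ℝ | dz ((M j : ℝ) * r - 1 / q) ≤ η}) := by
      ext r
      simp
    rw [e]
    refine Finset.measurableSet_biUnion _ fun j _ => ?_
    refine MeasurableSet.union ?_ ?_
    · exact measurableSet_le (rsets_dz_meas.comp ((measurable_const.mul measurable_id).sub
        measurable_const)) measurable_const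
    · exact measurableSet_le (rsets_dz_meas.comp ((measurable_const.mul measurable_id).sub
        measurable_const)) measurable_const
  have h3 : MeasurableSet {r : ℝ | ∃ j ∈ Finset.range J,
      (1 / q + δ) * N j < cnt q (M j) (N j) s r} := by
    have e : {r : ℝ | ∃ j ∈ Finset.range J, (1 / q + δ) * N j < cnt q (M j) (N j) s r} =
        ⋃ j ∈ Finset.range J, {r : ℝ | (1 / q + δ) * N j < cnt q (M j) (N j) s r} := by
      ext r
      simp
    rw [e]
    refine Finset.measurableSet_biUnion _ fun j _ => ?_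
    exact measurableSet_lt measurable_const (rsets_cnt_meas q (M j) (N j) s)
  exact h1.union (h2.union h3)

end MP4ba111
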