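import Pool.Agent.Lib.MP_4ba111_an.Defs

/-! Measurability of the averaged functions (uses that `μ` is complete). -/

set_option autoImplicit false

open MeasureTheory Filter Topology
open scoped ENNReal

namespace MP4ba111

variable {X : Type} [MeasurableSpace X] {μ : Measure X} {T : ℝ → X → X}

/-- PROOF. `fun p : X × ℝ => f (T p.2 p.1)` is `AEStronglyMeasurable` for `μ.prod volume`
(`h.flow.meas`), hence for `μ.prod (volume.restrict (Ι 0 δ))`; so the integral is
`AEStronglyMeasurable` (`AEStronglyMeasurable.integral_prod_right'`), i.e. `AEMeasurable`, and `μ` is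
complete (`h.complete`; `AEMeasurable.measurable`/`NullMeasurable.measurable_of_complete`).
`intervalIntegral.intervalIntegral_eq_integral_uIoc`. -/
theorem meas_int (h : Sys μ T) {f : X → ℝ} (hf : Measurable f) (δ : ℝ) :
    Measurable (fun x => ∫ s in (0 : ℝ)..δ, f (T s x)) := by
  have hp := h.prob
  have hc := h.complete
  have h1 : NullMeasurable (fun p : X × ℝ => f (T p.2 p.1)) (μ.prod volume) := by
    intro s hs
    exact h.flow.meas (hf hs)
  have h2 : AEStronglyMeasurable (fun p : X × ℝ => f (T p.2 p.1)) (μ.prod volume) :=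
    h1.aemeasurable.aestronglyMeasurable
  have h3 : AEStronglyMeasurable (fun p : X × ℝ => f (T p.2 p.1))
      (μ.prod (volume.restrict (Set.uIoc 0 δ))) := by
    have e : μ.prod (volume.restrict (Set.uIoc 0 δ)) =
        (μ.prod volume).restrict (Set.univ ×ˢ Set.uIoc 0 δ) := by
      rw [← Measure.prod_restrict, Measure.restrict_univ]
    rw [e]
    exact h2.mono_measure Measure.restrict_le_self
  have h4 : AEStronglyMeasurable (fun x => ∫ s in Set.uIoc 0 δ, f (T s x)) μ :=
    h3.integral_prod_right'
  have h5 : Measurable (fun x => ∫ s in Set.uIoc 0 δ, f (T s x)) :=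
    (NullMeasurable.measurable_of_complete (μ := μ) h4.aemeasurable.nullMeasurable)
  simp_rw [intervalIntegral.intervalIntegral_eq_integral_uIoc]
  exact Measurable.const_smul (M := ℝ) h5 _

end MP4ba111
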