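import Pool.Agent.Lib.MP_4ba111_an.Defs

/-! Real analysis for the averaged functions along one orbit. -/

set_option autoImplicit false

open MeasureTheory Filter Topology

namespace MP4ba111

theorem sepb_intervalIntegrable {F : ℝ → ℝ} (hF : AEStronglyMeasurable F volume) {c : ℝ}
    (hb : ∀ u, |F u| ≤ c) (a b : ℝ) : IntervalIntegrable F volume a b := by
  refine IntervalIntegrable.mono_fun' (g := fun _ => c) intervalIntegrable_const hF.restrict ?_
  exact Filter.Eventually.of_forall fun u => hb u

/-- PROOF. `∫ u in 0..δ, F (u + s) = ∫ u in s..(δ+s), F u`; the difference of the two is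
`∫ in s..t - ∫ in (δ+s)..(δ+t)` up to sign (`intervalIntegral.integral_interval_sub_interval_comm`),
each at most `|s - t|` (`intervalIntegral.norm_integral_le_of_norm_le_const`). -/
theorem real_lip {F : ℝ → ℝ} (hF : AEStronglyMeasurable F volume) (hb : ∀ u, |F u| ≤ 1)
    (δ s t : ℝ) :
    |(∫ u in (0 : ℝ)..δ, F (u + s)) - ∫ u in (0 : ℝ)..δ, F (u + t)| ≤ 2 * |s - t| := by
  have hI := sepb_intervalIntegrable hF hb
  have h1 : ∀ r : ℝ, ∫ u in (0 : ℝ)..δ, F (u + r) = ∫ u in (0 + r)..(δ + r), F u := fun r =>
    intervalIntegral.integral_comp_add_right F r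
  rw [h1 s, h1 t, intervalIntegral.integral_interval_sub_interval_comm (hI _ _) (hI _ _) (hI _ _)]
  have h2 : ∀ a b : ℝ, |∫ u in a..b, F u| ≤ 1 * |b - a| := fun a b => by
    rw [← Real.norm_eq_abs (∫ u in a..b, F u)]
    exact intervalIntegral.norm_integral_le_of_norm_le_const fun u _ => hb u
  have h3 := h2 (0 + s) (0 + t)
  have h4 := h2 (δ + s) (δ + t)
  have h5 : |0 + t - (0 + s)| = |s - t| := by
    rw [show 0 + t - (0 + s) = -(s - t) by ring, abs_neg]
  have h6 : |δ + t - (δ + s)| = |s - t| := by
    rw [show δ + t - (δ + s) = -(s - t) by ring, abs_neg]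
  rw [h5] at h3
  rw [h6] at h4
  have h7 := abs_sub (∫ u in (0 + s)..(0 + t), F u) (∫ u in (δ + s)..(δ + t), F u)
  linarith

/-- PROOF. `δ ↦ ∫ u in 0..δ, (F (u + s) - F u)` is continuous
(`intervalIntegral.continuous_primitive`) and vanishes at all rationals, so it vanishes identically; a
locally integrable function with all interval integrals zero is a.e. zero (e.g. Lebesgue
differentiation `LocallyIntegrable.ae_hasDerivAt_integral`, or
`MeasureTheory.ae_eq_zero_of_forall_setIntegral_isCompact_eq_zero`, or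
`Measure.ext_of_Ioc`-type arguments). -/
theorem real_sep {F : ℝ → ℝ} (hF : AEStronglyMeasurable F volume) (hb : ∀ u, |F u| ≤ 1) (s : ℝ)
    (h : ∀ δ : ℚ, ∫ u in (0 : ℝ)..(δ : ℝ), F (u + s) = ∫ u in (0 : ℝ)..(δ : ℝ), F u) :
    ∀ᵐ u : ℝ, F (u + s) = F u := by
  have hFs : AEStronglyMeasurable (fun u => F (u + s)) volume :=
    hF.comp_quasiMeasurePreserving (measurePreserving_add_right volume s).quasiMeasurePreserving
  have hG : AEStronglyMeasurable (fun u => F (u + s) - F u) volume := hFs.sub hF
  have hGb : ∀ u, |F (u + s) - F u| ≤ 2 := fun u => by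
    have h1 := abs_sub (F (u + s)) (F u)
    have h2 := hb (u + s)
    have h3 := hb u
    linarith
  have hI := sepb_intervalIntegrable hG hGb
  have hcont : Continuous fun x : ℝ => ∫ u in (0 : ℝ)..x, (F (u + s) - F u) :=
    intervalIntegral.continuous_primitive hI 0
  have hzero : (fun x : ℝ => ∫ u in (0 : ℝ)..x, (F (u + s) - F u)) = fun _ => 0 := by
    refine Rat.denseRange_cast.equalizer hcont continuous_const ?_
    funext δ
    change ∫ u in (0 : ℝ)..(δ : ℝ), (F (u + s) - F u) = 0
    rw [intervalIntegral.integral_sub (sepb_intervalIntegrable hFs (fun u => hb (u + s)) _ _)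
      (sepb_intervalIntegrable hF hb _ _), h δ, sub_self]
  have hloc : LocallyIntegrable (fun u => F (u + s) - F u) volume := by
    refine (locallyIntegrable_const (2 : ℝ)).mono hG (Filter.Eventually.of_forall fun u => ?_)
    have h1 := hGb u
    rw [Real.norm_eq_abs, Real.norm_eq_abs, abs_two]
    exact h1
  filter_upwards [LocallyIntegrable.ae_hasDerivAt_integral hloc] with u hu
  have h1 := hu 0
  rw [hzero] at h1
  have h2 := h1.unique (hasDerivAt_const u (0 : ℝ))
  linarith

end MP4ba111
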