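import Pool.Agent.Lib.MP_4ba111_an.SepA
import Pool.Agent.Lib.MP_4ba111_an.SepA2
import Pool.Agent.Lib.MP_4ba111_an.SepB

/-! A countable family of functions, Lipschitz along the orbits, which separates the points of
each orbit. -/

set_option autoImplicit false

open MeasureTheory Filter Topology
open scoped ENNReal

namespace MP4ba111

variable {X : Type} [MeasurableSpace X] {μ : Measure X} {T : ℝ → X → X}

/-- The data: functions `g i` on `X` and an invariant conull set `X1`. -/
structure SepData (μ : Measure X) (T : ℝ → X → X) (g : ℕ → X → ℝ) (X1 : Set X) : Prop where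
  meas : ∀ i, Measurable (g i)
  mX : MeasurableSet X1
  full : μ X1ᶜ = 0
  inv : ∀ x ∈ X1, ∀ t, T t x ∈ X1
  lip : ∀ i, ∀ x ∈ X1, ∀ s t, |g i (T s x) - g i (T t x)| ≤ 2 * |s - t|
  sep : ∀ x ∈ X1, ∀ s, s ≠ 0 → ∃ i, g i (T s x) ≠ g i x

/-- the bounded injective function used to cut down the separating function -/
noncomputable def sep_phi (y : ℝ) : ℝ := y / (1 + |y|)

theorem sep_phi_meas : Measurable sep_phi := by
  unfold sep_phi
  exact measurable_id.div (measurable_const.add (measurable_id.abs))

theorem sep_phi_le (y : ℝ) : |sep_phi y| ≤ 1 := by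
  have h0 : 0 < 1 + |y| := by positivity
  unfold sep_phi
  rw [abs_div, abs_of_pos h0, div_le_one h0]
  linarith

theorem sep_phi_inj {x y : ℝ} (h : sep_phi x = sep_phi y) : x = y := by
  have hx : 0 < 1 + |x| := by positivity
  have hy : 0 < 1 + |y| := by positivity
  unfold sep_phi at h
  rw [div_eq_div_iff hx.ne' hy.ne'] at h
  rcases le_total 0 x with h1 | h1 <;> rcases le_total 0 y with h2 | h2
  · rw [abs_of_nonneg h1, abs_of_nonneg h2] at h
    linarith
  · rw [abs_of_nonneg h1, abs_of_nonpos h2] at h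
    nlinarith [mul_nonneg h1 (neg_nonneg.2 h2)]
  · rw [abs_of_nonpos h1, abs_of_nonneg h2] at h
    nlinarith [mul_nonneg (neg_nonneg.2 h1) h2]
  · rw [abs_of_nonpos h1, abs_of_nonpos h2] at h
    linarith

/-- PROOF. `h.sep` gives `f`, `X0`; replace `f` by `f' = f / (1 + |f|)` (or `arctan`-type), which is
measurable, injective on `X0`, `|f'| ≤ 1`. `X1 = Good T f' X0` is conull (`good_full`), measurable
(`h.complete`), invariant (translation invariance of Lebesgue measure: `AEStronglyMeasurable` and a.e.
statements for `s ↦ s + t`). `g i x = ∫ s in 0..(r i), f' (T s x)` with `r : ℕ → ℚ` surjective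
(`exists_surjective_nat`): measurable by `meas_int`; `g i (T s x) = ∫ u in 0..(r i), F (u + s)` with
`F u = f' (T u x)` (`h.flow.add`), so `real_lip` gives `lip`. `sep`: otherwise `real_sep` gives
`F (u + s) = F u` for a.e. `u`, and for a.e. `u` both `T (u+s) x, T u x ∈ X0`, so
`T (u+s) x = T u x` for some `u`, against `x ∈ Good`. -/
theorem exists_sep (h : Sys μ T) : ∃ (g : ℕ → X → ℝ) (X1 : Set X), SepData μ T g X1 := by
  obtain ⟨f, hf, X0, hX0, hinj⟩ := h.sep
  obtain ⟨r, hr⟩ := exists_surjective_nat ℚ
  set f' : X → ℝ := fun x => sep_phi (f x) with hf'def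
  have hf' : Measurable f' := sep_phi_meas.comp hf
  have hb : ∀ x, |f' x| ≤ 1 := fun x => sep_phi_le _
  have hinj' : Set.InjOn f' X0 := fun x hx y hy e => hinj hx hy (sep_phi_inj e)
  have hadd := h.flow.add
  refine ⟨fun i x => ∫ s in (0 : ℝ)..((r i : ℚ) : ℝ), f' (T s x), Good T f' X0, ?_, ?_, ?_, ?_, ?_, ?_⟩
  · intro i
    exact meas_int h hf' _
  · have h1 : MeasurableSet (Good T f' X0)ᶜ := h.complete.out' _ (good_full h hf' hX0)
    simpa using h1.compl
  · exact good_full h hf' hX0
  · rintro x ⟨h1, h2, h3⟩ t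
    have hmp := measurePreserving_add_right (volume : Measure ℝ) t
    refine ⟨?_, ?_, ?_⟩
    · have h4 := h1.comp_measurePreserving hmp
      have e : ((fun s : ℝ => f' (T s x)) ∘ fun s => s + t) = fun s => f' (T s (T t x)) := by
        funext s
        simp only [Function.comp_apply, hadd]
      rwa [e] at h4
    · have h4 := hmp.quasiMeasurePreserving.ae h2
      filter_upwards [h4] with s hs
      rwa [hadd] at hs
    · intro s s' hss e
      rw [← hadd, ← hadd] at e
      exact h3 (s + t) (s' + t) (fun h5 => hss (add_right_cancel h5)) e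
  · rintro i x ⟨h1, -, -⟩ s t
    have e : ∀ t : ℝ, (∫ u in (0 : ℝ)..((r i : ℚ) : ℝ), f' (T u (T t x))) =
        ∫ u in (0 : ℝ)..((r i : ℚ) : ℝ), (fun v : ℝ => f' (T v x)) (u + t) := by
      intro t
      refine intervalIntegral.integral_congr fun u _ => ?_
      simp only [hadd]
    simp only [e]
    exact real_lip h1 (fun u => hb _) _ s t
  · rintro x ⟨h1, h2, h3⟩ s hs
    by_contra hcon
    push Not at hcon
    have h4 : ∀ᵐ u : ℝ, (fun v : ℝ => f' (T v x)) (u + s) = (fun v : ℝ => f' (T v x)) u := by
      refine real_sep h1 (fun u => hb _) s fun δ => ?_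
      obtain ⟨i, hi⟩ := hr δ
      have h5 := hcon i
      rw [hi] at h5
      rw [← h5]
      refine intervalIntegral.integral_congr fun u _ => ?_
      simp only [hadd]
    have hmp := measurePreserving_add_right (volume : Measure ℝ) s
    have h6 : ∀ᵐ u : ℝ, T (u + s) x ∈ X0 := hmp.quasiMeasurePreserving.ae h2
    obtain ⟨u, hu1, hu2, hu3⟩ := (h4.and (h2.and h6)).exists
    have h7 : T (u + s) x = T u x := hinj' hu3 hu2 hu1
    exact h3 (u + s) u (by
      intro h8
      apply hs
      linarith) h7

end MP4ba111
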