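import Pool.Agent.Lib.MP_4ba111_an.Defs

/-! Good points of a flow: full measure, measurability of the averaged functions. -/

set_option autoImplicit false

open MeasureTheory Filter Topology
open scoped ENNReal

namespace MP4ba111

variable {X : Type} [MeasurableSpace X] {μ : Measure X} {T : ℝ → X → X}

/-- The points whose orbit is seen well by `f` and is free. -/
def Good (T : ℝ → X → X) (f : X → ℝ) (X0 : Set X) : Set X :=
  {x | AEStronglyMeasurable (fun s : ℝ => f (T s x)) volume ∧ (∀ᵐ s : ℝ, T s x ∈ X0) ∧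
    ∀ s t : ℝ, s ≠ t → T s x ≠ T t x}

/-- PROOF. Three conull conditions. (1) `fun p : X × ℝ => f (T p.2 p.1)` is
`AEStronglyMeasurable` for `μ.prod volume` (`h.flow.meas` null-measurable, `f` measurable into
`ℝ`; `NullMeasurable`/`AEMeasurable` for a second countable target), then
`AEStronglyMeasurable.prodMk_left`. (2) For every `s` the set `{x | T s x ∈ X0}` is conull
(`(h.flow.pres s).quasiMeasurePreserving`); `{p | T p.2 p.1 ∈ Y}` with `Y ⊇ X0ᶜ` measurable and
null (`toMeasurable`) is null-measurable in the product and has measure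
`∫⁻ s, μ {x | T s x ∈ Y} = 0` (`Measure.prod_apply_symm` for the measurable hull, or
`Measure.ae_prod_iff`, `ae_ae_comm`), so for a.e. `x` a.e. `s` has `T s x ∉ Y`. (3) `h.aper`. -/
theorem good_full (h : Sys μ T) {f : X → ℝ} (hf : Measurable f) {X0 : Set X}
    (h0 : μ X0ᶜ = 0) : μ (Good T f X0)ᶜ = 0 := by
  have := h.prob
  have a1 : ∀ᵐ x ∂μ, AEStronglyMeasurable (fun s : ℝ => f (T s x)) volume := by
    have h1 : NullMeasurable (fun p : X × ℝ => f (T p.2 p.1)) (μ.prod volume) :=
      hf.comp_nullMeasurable h.flow.meas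
    exact h1.aemeasurable.aestronglyMeasurable.prodMk_left
  have a2 : ∀ᵐ x ∂μ, ∀ᵐ s : ℝ, T s x ∈ X0 := by
    have hY : MeasurableSet (toMeasurable μ X0ᶜ) := measurableSet_toMeasurable _ _
    have hY0 : μ (toMeasurable μ X0ᶜ) = 0 := by rw [measure_toMeasurable, h0]
    have hS : NullMeasurableSet {p : X × ℝ | T p.2 p.1 ∈ toMeasurable μ X0ᶜ} (μ.prod volume) :=
      h.flow.meas hY
    obtain ⟨S, hS1, hS2, hS3⟩ := hS.exists_measurable_subset_ae_eq
    have h2 : (μ.prod volume) {p : X × ℝ | T p.2 p.1 ∈ toMeasurable μ X0ᶜ} = 0 := by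
      rw [← measure_congr hS3, Measure.prod_apply_symm hS2]
      have h3 : ∀ s : ℝ, μ ((fun x => (x, s)) ⁻¹' S) = 0 := by
        intro s
        refine measure_mono_null (t := T s ⁻¹' toMeasurable μ X0ᶜ) (fun x hx => hS1 hx) ?_
        rw [(h.flow.pres s).measure_preimage hY.nullMeasurableSet, hY0]
      simp only [h3, lintegral_zero]
    have h3 : ∀ᵐ p ∂(μ.prod volume), T p.2 p.1 ∈ X0 := by
      rw [ae_iff]
      refine measure_mono_null (fun p hp => ?_) h2
      exact subset_toMeasurable μ X0ᶜ hp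
    exact Measure.ae_ae_of_ae_prod h3
  have a3 : ∀ᵐ x ∂μ, ∀ s t : ℝ, s ≠ t → T s x ≠ T t x := by
    rw [ae_iff]
    refine measure_mono_null (fun x hx => ?_) h.aper
    simp only [Set.mem_setOf_eq] at hx ⊢
    push Not at hx
    exact hx
  have a4 : ∀ᵐ x ∂μ, x ∈ Good T f X0 := by
    filter_upwards [a1, a2, a3] with x h1 h2 h3
    exact ⟨h1, h2, h3⟩
  exact a4

end MP4ba111
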