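import Pool.Agent.Lib.MP_4ba111_an.Step

/-! The sequences of frequencies and scales. -/

set_option autoImplicit false

open MeasureTheory Filter Topology

namespace MP4ba111

/-- one step of the recursion -/
theorem seq_next {s : ℕ → ℝ} (hs : ∀ n, 1 ≤ n → 0 < s n) (hinj : Set.InjOn s (Set.Ici 1))
    (hlim : Tendsto s atTop (𝓝 0)) {q : ℕ} (hq : 1 ≤ q) {η δ : ℝ} (hη : 0 < η) (hδ : 0 < δ)
    (N0 : ℕ) {M : ℕ} (hM : 1 ≤ M) (N : ℕ) : ∃ M' N' : ℕ, 1 ≤ M' ∧ (N0 ≤ N' ∧ 1 ≤ N' ∧ N < N') ∧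
      q * M ∣ M' ∧ (∀ n ∈ Finset.Icc 1 N, dz ((M' : ℝ) * s n) ≤ η) ∧
      (∀ n : ℕ, 1 ≤ n → η * N' < n → (M : ℝ) * s n ≤ η) ∧
      volume {r | r ∈ Set.Ico (0 : ℝ) 1 ∧ (1 / q + δ) * N' < cnt q M' N' s r} ≤
        ENNReal.ofReal δ := by
  have hqM : 1 ≤ q * M := Nat.one_le_iff_ne_zero.2 (Nat.mul_ne_zero (by omega) (by omega))
  obtain ⟨Nmin, hstep⟩ := step hs hinj hlim hq hqM N hη hδ
  have hM0 : (0 : ℝ) < M := by exact_mod_cast hM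
  have h1 : ∀ᶠ n in atTop, s n < η / M := hlim.eventually (gt_mem_nhds (by positivity))
  obtain ⟨n0, hn0⟩ := eventually_atTop.1 h1
  obtain ⟨K, hK⟩ := exists_nat_gt ((n0 : ℝ) / η)
  obtain ⟨N', hN'⟩ : ∃ N' : ℕ, max (max Nmin (N + 1)) (max (max N0 1) K) ≤ N' := ⟨_, le_rfl⟩
  have e1 : Nmin ≤ N' := ((le_max_left _ _).trans (le_max_left _ _)).trans hN'
  have e2 : N + 1 ≤ N' := ((le_max_right _ _).trans (le_max_left _ _)).trans hN'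
  have e3 : N0 ≤ N' :=
    (((le_max_left _ _).trans (le_max_left _ _)).trans (le_max_right _ _)).trans hN'
  have e4 : 1 ≤ N' :=
    (((le_max_right _ _).trans (le_max_left _ _)).trans (le_max_right _ _)).trans hN'
  have e5 : K ≤ N' := ((le_max_right _ _).trans (le_max_right _ _)).trans hN'
  obtain ⟨M', h2, h3, h4, h5⟩ := hstep N' e1
  refine ⟨M', N', h2, ⟨e3, e4, by omega⟩, h3, h4, fun n _ hn => ?_, h5⟩
  have h6 : n0 ≤ n := by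
    have h7 : (K : ℝ) ≤ N' := by exact_mod_cast e5
    have h8 : (n0 : ℝ) < η * K := by
      rw [div_lt_iff₀ hη] at hK
      linarith
    have h9 : η * K ≤ η * N' := mul_le_mul_of_nonneg_left h7 hη.le
    have h10 : (n0 : ℝ) < n := by linarith
    exact_mod_cast h10.le
  have h7 := hn0 n h6
  rw [lt_div_iff₀ hM0] at h7
  linarith

/-- PROOF. Recursion for the pairs `(M j, N j)`: given `(M, N)` (start with `M = 1`, `N = 0`, or take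
the first pair from `step` with `P = 1`, `N' = 0`), apply `step` with `P = q * M`, `N' = N`, and take
`N j > N`, `N j ≥ N0 + 1`, `≥ Nmin`, and so large that `M * s n ≤ η` for all `n` with `η * N j < n`
(`s → 0`); then `M j` from `step`. So consecutive pairs satisfy: `q * M j ∣ M (j+1)`, `N j < N (j+1)`,
`dz (M (j+1) * s n) ≤ η` for `n ∈ [1, N j]`, `M j * s n ≤ η` for `n > η * N (j+1)`. For `i < j` in
general: divisibility by transitivity (so `M i ≤ M (j-1)`), `[1, N i] ⊆ [1, N (j-1)]`, and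
`M i * s n ≤ M (j-1) * s n ≤ η`. -/
theorem exists_seq {s : ℕ → ℝ} (hs : ∀ n, 1 ≤ n → 0 < s n) (hinj : Set.InjOn s (Set.Ici 1))
    (hlim : Tendsto s atTop (𝓝 0)) {q : ℕ} (hq : 1 ≤ q) {η δ : ℝ} (hη : 0 < η) (hδ : 0 < δ)
    (N0 : ℕ) : ∃ M N : ℕ → ℕ, (∀ j, 1 ≤ M j) ∧ (∀ j, N0 ≤ N j ∧ 1 ≤ N j) ∧
      (∀ i j, i < j → q * M i ∣ M j) ∧
      (∀ i j, i < j → ∀ n ∈ Finset.Icc 1 (N i), dz ((M j : ℝ) * s n) ≤ η) ∧
      (∀ i j, i < j → ∀ n : ℕ, 1 ≤ n → η * N j < n → (M i : ℝ) * s n ≤ η) ∧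
      ∀ j, volume {r | r ∈ Set.Ico (0 : ℝ) 1 ∧ (1 / q + δ) * N j < cnt q (M j) (N j) s r} ≤
        ENNReal.ofReal δ := by
  have hnext : ∀ p : {p : ℕ × ℕ // 1 ≤ p.1}, ∃ p' : {p : ℕ × ℕ // 1 ≤ p.1},
      (N0 ≤ p'.1.2 ∧ 1 ≤ p'.1.2 ∧ p.1.2 < p'.1.2) ∧ q * p.1.1 ∣ p'.1.1 ∧
      (∀ n ∈ Finset.Icc 1 p.1.2, dz ((p'.1.1 : ℝ) * s n) ≤ η) ∧
      (∀ n : ℕ, 1 ≤ n → η * p'.1.2 < n → (p.1.1 : ℝ) * s n ≤ η) ∧
      volume {r | r ∈ Set.Ico (0 : ℝ) 1 ∧ (1 / q + δ) * p'.1.2 < cnt q p'.1.1 p'.1.2 s r} ≤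
        ENNReal.ofReal δ := by
    rintro ⟨⟨M, N⟩, hM⟩
    obtain ⟨M', N', h1, h2, h3, h4, h5, h6⟩ := seq_next hs hinj hlim hq hη hδ N0 hM N
    exact ⟨⟨(M', N'), h1⟩, h2, h3, h4, h5, h6⟩
  choose f hf using hnext
  let u : ℕ → {p : ℕ × ℕ // 1 ≤ p.1} := fun j => f^[j] (f ⟨(1, 0), le_rfl⟩)
  have hu : ∀ j, u (j + 1) = f (u j) := fun j => Function.iterate_succ_apply' f j _
  have hout : ∀ j, ∃ p, u j = f p := by
    intro j
    cases j with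
    | zero => exact ⟨_, rfl⟩
    | succ j => exact ⟨_, hu j⟩
  have hN : ∀ j, (u j).1.2 < (u (j + 1)).1.2 := by
    intro j
    rw [hu]
    exact (hf (u j)).1.2.2
  have hmono : StrictMono fun j => (u j).1.2 := strictMono_nat_of_lt_succ hN
  have hdv : ∀ j, q * (u j).1.1 ∣ (u (j + 1)).1.1 := by
    intro j
    rw [hu]
    exact (hf (u j)).2.1
  have hdvd : ∀ i k, i ≤ k → (u i).1.1 ∣ (u k).1.1 := by
    intro i k hik
    induction k, hik using Nat.le_induction with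
    | base => exact dvd_rfl
    | succ k _ ih => exact ih.trans ((Dvd.intro_left q rfl).trans (hdv k))
  refine ⟨fun j => (u j).1.1, fun j => (u j).1.2, fun j => (u j).2, fun j => ?_, ?_, ?_, ?_,
    fun j => ?_⟩
  · obtain ⟨p, hp⟩ := hout j
    show N0 ≤ (u j).1.2 ∧ 1 ≤ (u j).1.2
    rw [hp]
    exact ⟨(hf p).1.1, (hf p).1.2.1⟩
  · intro i j hij
    obtain ⟨k, rfl⟩ : ∃ k, j = k + 1 := ⟨j - 1, by omega⟩
    exact (Nat.mul_dvd_mul_left q (hdvd i k (by omega))).trans (hdv k)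
  · intro i j hij n hn
    obtain ⟨k, rfl⟩ : ∃ k, j = k + 1 := ⟨j - 1, by omega⟩
    show dz (((u (k + 1)).1.1 : ℝ) * s n) ≤ η
    rw [hu]
    refine (hf (u k)).2.2.1 n ?_
    rw [Finset.mem_Icc] at hn ⊢
    exact ⟨hn.1, hn.2.trans (hmono.monotone (by omega : i ≤ k))⟩
  · intro i j hij n hn1 hn
    obtain ⟨k, rfl⟩ : ∃ k, j = k + 1 := ⟨j - 1, by omega⟩
    have h1 : ((u k).1.1 : ℝ) * s n ≤ η := by
      have h2 := (hf (u k)).2.2.2.1 n hn1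
      rw [← hu] at h2
      exact h2 hn
    refine le_trans ?_ h1
    refine mul_le_mul_of_nonneg_right ?_ (hs n hn1).le
    have h3 : (u i).1.1 ≤ (u k).1.1 := Nat.le_of_dvd (u k).2 (hdvd i k (by omega))
    exact_mod_cast h3
  · obtain ⟨p, hp⟩ := hout j
    show volume {r | r ∈ Set.Ico (0 : ℝ) 1 ∧ (1 / q + δ) * (u j).1.2 <
      cnt q (u j).1.1 (u j).1.2 s r} ≤ ENNReal.ofReal δ
    rw [hp]
    exact (hf p).2.2.2.2

end MP4ba111
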