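import Pool.Agent.Lib.MP_4ba111_an.Clock
import Pool.Agent.Lib.MP_4ba111_an.Dens

/-! From the real line to a flow. -/

set_option autoImplicit false

open MeasureTheory Filter Topology
open scoped ENNReal

namespace MP4ba111

variable {X : Type} [MeasurableSpace X] {μ : Measure X} {T : ℝ → X → X}

/-- PROOF. `RProp s` for `ε/4` and `N0` gives `B, G, L, N1`; `L' = L + ∑ m ∈ Icc 1 N1, |s m|`; a clock
`ρ, W` for `L'`, `η = ε/4` (`clock`). `E = ρ⁻¹ B`; `dens` gives `μ E ≤ ε/2`, `μ (ρ⁻¹ G) ≤ ε/2`. If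
`x ∉ W` and `ρ x ∉ G`, some `n ∈ [N0, N1]`, `n ≥ 1` has `(1 - ε/4) n ≤ hits s B n (ρ x)`, and
`hitsX T s E n x = hits s B n (ρ x)` since `ρ (T (s m) x) = ρ x + s m` (`0 < s m ≤ L'`). The set in the
claim is contained in `W ∪ ρ⁻¹ G`, of measure at most `ε/4 + ε/2 ≤ ε`. -/
theorem stage (h : Sys μ T) {s : ℕ → ℝ} (hs : ∀ n, 1 ≤ n → 0 < s n) (hR : RProp s) :
    StageProp μ T s := by
  intro ε hε N0
  obtain ⟨B, G, L, N1, hB, hG, hL, hBd, hGd, hhit⟩ := hR (ε / 4) (by positivity) N0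
  set L' : ℝ := L + ∑ m ∈ Finset.Icc 1 N1, |s m| with hL'
  have hsum : 0 ≤ ∑ m ∈ Finset.Icc 1 N1, |s m| := Finset.sum_nonneg fun _ _ => abs_nonneg _
  have hLL : L ≤ L' := by linarith
  have hL'0 : 0 < L' := by linarith
  have hη : (0 : ℝ) < ε / 4 := by positivity
  obtain ⟨ρ, W, hρ, hW, hμW, hc⟩ := clock h hL'0 hη
  have hE := dens h hρ hW hL hLL hη.le hη.le hμW hc hB hBd
  have hGE := dens h hρ hW hL hLL hη.le hη.le hμW hc hG hGd
  refine ⟨ρ ⁻¹' B, N1, hρ hB, hE.trans (ENNReal.ofReal_le_ofReal (by linarith)), ?_⟩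
  have hsub : {x | ∀ n : ℕ, 1 ≤ n → N0 ≤ n → n ≤ N1 → hitsX T s (ρ ⁻¹' B) n x < (1 - ε) * n} ⊆
      W ∪ ρ ⁻¹' G := by
    intro x hx
    by_contra hcon
    rw [Set.mem_union, not_or] at hcon
    obtain ⟨hxW, hxG⟩ := hcon
    obtain ⟨n, hn1, hn0, hnN, hn⟩ := hhit (ρ x) hxG
    have h1 : hitsX T s (ρ ⁻¹' B) n x = hits s B n (ρ x) := by
      unfold hitsX hits
      refine Finset.sum_congr rfl fun m hm => ?_
      obtain ⟨hm1, hm2⟩ := Finset.mem_Icc.1 hm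
      have h2 : |s m| ≤ ∑ m ∈ Finset.Icc 1 N1, |s m| :=
        Finset.single_le_sum (f := fun m => |s m|) (fun _ _ => abs_nonneg _)
          (Finset.mem_Icc.2 ⟨hm1, hm2.trans hnN⟩)
      have h3 := le_abs_self (s m)
      have h4 := hs m hm1
      have h5 := hc x hxW (s m) ⟨h4.le, by linarith⟩
      have h6 : (ρ ⁻¹' B).indicator (1 : X → ℝ) (T (s m) x) =
          B.indicator (1 : ℝ → ℝ) (ρ (T (s m) x)) := rfl
      rw [h6, h5]
    have h2 := hx n hn1 hn0 hnN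
    rw [h1] at h2
    have h3 : (0 : ℝ) ≤ (n : ℝ) := Nat.cast_nonneg n
    nlinarith
  refine (measure_mono hsub).trans ((measure_union_le _ _).trans ?_)
  refine (add_le_add hμW hGE).trans ?_
  rw [← ENNReal.ofReal_add hη.le (by linarith)]
  exact ENNReal.ofReal_le_ofReal (by linarith)

end MP4ba111
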