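import Pool.Agent.Lib.MP_4ba111_an.Avg
import Pool.Agent.Lib.MP_4ba111_an.Bohr
import Pool.Agent.Lib.MP_4ba111_an.Var

/-! The step: a frequency in a Bohr set which equidistributes the first `N` terms. -/

set_option autoImplicit false

open MeasureTheory Filter Topology

namespace MP4ba111

/-- the bound for one pair -/
theorem step_pair {q : ℕ} (hq : 1 ≤ q) {s : ℕ → ℝ} (hs : ∀ n, 1 ≤ n → 0 < s n)
    (hinj : Set.InjOn s (Set.Ici 1)) {P : ℕ} (hP : 1 ≤ P) {d : ℝ} (hd : 0 < d) {n1 : ℕ}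
    (hn1 : ∀ n, n1 < n → (P : ℝ) * s n ≤ d) {N : ℕ} {K : ℕ}
    (hK : ∀ i ∈ Finset.Icc 1 N, ∀ j ∈ Finset.Icc 1 N, i ≠ j →
      1 / |(P : ℝ) * (s j - s i)| ≤ K * d) {i j : ℕ} (hi : i ∈ Finset.Icc 1 N)
    (hj : j ∈ Finset.Icc 1 N) :
    ∑ k ∈ Finset.Icc 1 K, CC q ((k : ℝ) * ((P : ℝ) * (s j - s i))) ≤
      3 * d * K + ((if i = j then (K : ℝ) else 0) + ((if i ≤ n1 then (K : ℝ) else 0) +
        (if j ≤ n1 then (K : ℝ) else 0))) := by
  have hPpos : (0 : ℝ) < P := by exact_mod_cast hP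
  have hKnn : (0 : ℝ) ≤ K := Nat.cast_nonneg K
  have htriv : ∑ k ∈ Finset.Icc 1 K, CC q ((k : ℝ) * ((P : ℝ) * (s j - s i))) ≤ K := by
    calc ∑ k ∈ Finset.Icc 1 K, CC q ((k : ℝ) * ((P : ℝ) * (s j - s i)))
        ≤ ∑ k ∈ Finset.Icc 1 K, (1 : ℝ) :=
          Finset.sum_le_sum (fun k _ => (le_abs_self _).trans (abs_CC_le hq _))
      _ = K := by simp
  have h3 : 0 ≤ 3 * d * K := by positivity
  have ha : (0 : ℝ) ≤ (if i = j then (K : ℝ) else 0) := by split_ifs <;> simp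
  have hb : (0 : ℝ) ≤ (if i ≤ n1 then (K : ℝ) else 0) := by split_ifs <;> simp
  have hc : (0 : ℝ) ≤ (if j ≤ n1 then (K : ℝ) else 0) := by split_ifs <;> simp
  by_cases h1 : i = j
  · have : (if i = j then (K : ℝ) else 0) = K := if_pos h1
    linarith
  by_cases h2 : i ≤ n1
  · have : (if i ≤ n1 then (K : ℝ) else 0) = K := if_pos h2
    linarith
  by_cases h4 : j ≤ n1
  · have : (if j ≤ n1 then (K : ℝ) else 0) = K := if_pos h4
    linarith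
  have hi1 : 1 ≤ i := (Finset.mem_Icc.mp hi).1
  have hj1 : 1 ≤ j := (Finset.mem_Icc.mp hj).1
  have hne : s j - s i ≠ 0 := by
    intro h
    exact h1 (hinj hj1 hi1 (by linarith)).symm
  have hw : (P : ℝ) * (s j - s i) ≠ 0 := mul_ne_zero hPpos.ne' hne
  have hwd : |(P : ℝ) * (s j - s i)| ≤ d := by
    have e1 := hn1 i (not_le.mp h2)
    have e2 := hn1 j (not_le.mp h4)
    have e3 : 0 < (P : ℝ) * s i := mul_pos hPpos (hs i hi1)
    have e4 : 0 < (P : ℝ) * s j := mul_pos hPpos (hs j hj1)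
    rw [abs_le]
    constructor
    · have : (P : ℝ) * (s j - s i) = (P : ℝ) * s j - (P : ℝ) * s i := by ring
      linarith
    · have : (P : ℝ) * (s j - s i) = (P : ℝ) * s j - (P : ℝ) * s i := by ring
      linarith
  have hav := avg_CC hq hw K
  have hK' := hK i hi j hj h1
  have hmul : 2 * (K : ℝ) * |(P : ℝ) * (s j - s i)| ≤ 2 * K * d :=
    mul_le_mul_of_nonneg_left hwd (by positivity)
  have := le_abs_self (∑ k ∈ Finset.Icc 1 K, CC q ((k : ℝ) * ((P : ℝ) * (s j - s i))))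
  have h5 : ∑ k ∈ Finset.Icc 1 K, CC q ((k : ℝ) * ((P : ℝ) * (s j - s i))) ≤ 3 * d * K := by
    linarith
  linarith

/-- the bound for the sum over all pairs -/
theorem step_sum {q : ℕ} (hq : 1 ≤ q) {s : ℕ → ℝ} (hs : ∀ n, 1 ≤ n → 0 < s n)
    (hinj : Set.InjOn s (Set.Ici 1)) {P : ℕ} (hP : 1 ≤ P) {d : ℝ} (hd : 0 < d) {n1 : ℕ}
    (hn1 : ∀ n, n1 < n → (P : ℝ) * s n ≤ d) {N : ℕ} (hN : (1 + 2 * n1 : ℝ) ≤ d * N) {K : ℕ}
    (hK : ∀ i ∈ Finset.Icc 1 N, ∀ j ∈ Finset.Icc 1 N, i ≠ j →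
      1 / |(P : ℝ) * (s j - s i)| ≤ K * d) :
    ∑ i ∈ Finset.Icc 1 N, ∑ j ∈ Finset.Icc 1 N, ∑ k ∈ Finset.Icc 1 K,
      CC q ((k : ℝ) * ((P : ℝ) * (s j - s i))) ≤ 4 * d * K * (N : ℝ) ^ 2 := by
  have hKnn : (0 : ℝ) ≤ K := Nat.cast_nonneg K
  have hNnn : (0 : ℝ) ≤ N := Nat.cast_nonneg N
  have hcnt : ∑ i ∈ Finset.Icc 1 N, (if i ≤ n1 then (K : ℝ) else 0) ≤ n1 * K := by
    rw [← Finset.sum_filter]
    rw [Finset.sum_const, nsmul_eq_mul]
    refine mul_le_mul_of_nonneg_right ?_ hKnn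
    have : ((Finset.Icc 1 N).filter (fun i => i ≤ n1)).card ≤ (Finset.Icc 1 n1).card := by
      apply Finset.card_le_card
      intro i hi
      rw [Finset.mem_filter, Finset.mem_Icc] at hi
      rw [Finset.mem_Icc]
      exact ⟨hi.1.1, hi.2⟩
    rw [Nat.card_Icc, Nat.add_sub_cancel] at this
    exact_mod_cast this
  have hdiag : ∀ i ∈ Finset.Icc 1 N, ∑ j ∈ Finset.Icc 1 N, (if i = j then (K : ℝ) else 0) = K := by
    intro i hi
    rw [Finset.sum_ite_eq, if_pos hi]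
  have hmain : ∑ i ∈ Finset.Icc 1 N, ∑ j ∈ Finset.Icc 1 N, ∑ k ∈ Finset.Icc 1 K,
      CC q ((k : ℝ) * ((P : ℝ) * (s j - s i))) ≤
      ∑ i ∈ Finset.Icc 1 N, ∑ j ∈ Finset.Icc 1 N, (3 * d * K + ((if i = j then (K : ℝ) else 0) +
        ((if i ≤ n1 then (K : ℝ) else 0) + (if j ≤ n1 then (K : ℝ) else 0)))) :=
    Finset.sum_le_sum (fun i hi => Finset.sum_le_sum (fun j hj =>
      step_pair hq hs hinj hP hd hn1 hK hi hj))
  have hinner : ∀ i ∈ Finset.Icc 1 N, ∑ j ∈ Finset.Icc 1 N, (3 * d * K +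
      ((if i = j then (K : ℝ) else 0) +
        ((if i ≤ n1 then (K : ℝ) else 0) + (if j ≤ n1 then (K : ℝ) else 0)))) ≤
      N * (3 * d * K) + K + N * (if i ≤ n1 then (K : ℝ) else 0) + n1 * K := by
    intro i hi
    rw [Finset.sum_add_distrib, Finset.sum_add_distrib, Finset.sum_add_distrib, hdiag i hi,
      Finset.sum_const, Finset.sum_const, nsmul_eq_mul, nsmul_eq_mul, Nat.card_Icc,
      Nat.add_sub_cancel]
    linarith
  have hout : ∑ i ∈ Finset.Icc 1 N, (N * (3 * d * K) + K + N * (if i ≤ n1 then (K : ℝ) else 0) +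
      n1 * K) ≤ N * (N * (3 * d * K) + K + n1 * K) + N * (n1 * K) := by
    rw [Finset.sum_add_distrib, Finset.sum_add_distrib, Finset.sum_const, Finset.sum_const,
      ← Finset.mul_sum, nsmul_eq_mul, nsmul_eq_mul, Nat.card_Icc, Nat.add_sub_cancel]
    have := mul_le_mul_of_nonneg_left hcnt hNnn
    linarith
  have hall := hmain.trans ((Finset.sum_le_sum hinner).trans hout)
  refine hall.trans ?_
  have hNK : 0 ≤ (N : ℝ) * K := mul_nonneg hNnn hKnn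
  have := mul_le_mul_of_nonneg_left hN hNK
  nlinarith [this]

/-- PROOF. `bohr N' η` gives `c, K0` (used for `y_n = P s_n`). Put `d = c δ^3 / 8` (so `0 < d`; may
assume `d ≤ 1`). Let `n1` be such that `0 < P s_n ≤ d` for all `n > n1`. `Nmin` with
`(1 + 2 n1) / N ≤ d` for `N ≥ Nmin`, `Nmin ≥ 1`. Given `N`, let `K ≥ K0`, `K ≥ 1` be so large that
`1 / (K |w|) ≤ d` for all `w = P (s_j - s_i)`, `i ≠ j` in `[1, N]` (finitely many, nonzero by
injectivity). For `i ≠ j` both `> n1`: `|w| ≤ d`, so by `avg_CC`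
`|∑_{k ≤ K} CC (k w)| ≤ K (2d + d)`; all other pairs (at most `N + 2 n1 N` ordered pairs, including
`i = j`) contribute at most `K` each. So `∑_{k ≤ K} ∑_{i,j} CC (k P (s_j - s_i)) ≤
K N² (3 d + (1 + 2 n1)/N) ≤ 4 d K N²`. Each inner double sum is a variance, hence `≥ 0` (`var_eq` with
`M = k P`). The Bohr set has at least `c K` elements, so some `k` in it has
`∑_{i,j} CC (k P (s_j - s_i)) ≤ (4 d / c) N² ≤ δ³ N²`. Take `M = k P`; `var_cheb`. -/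
theorem step {s : ℕ → ℝ} (hs : ∀ n, 1 ≤ n → 0 < s n) (hinj : Set.InjOn s (Set.Ici 1))
    (hlim : Tendsto s atTop (𝓝 0)) {q : ℕ} (hq : 1 ≤ q) {P : ℕ} (hP : 1 ≤ P) (N' : ℕ) {η δ : ℝ}
    (hη : 0 < η) (hδ : 0 < δ) : ∃ Nmin : ℕ, ∀ N, Nmin ≤ N → ∃ M : ℕ, 1 ≤ M ∧ P ∣ M ∧
      (∀ n ∈ Finset.Icc 1 N', dz ((M : ℝ) * s n) ≤ η) ∧
      volume {r | r ∈ Set.Ico (0 : ℝ) 1 ∧ (1 / q + δ) * N < cnt q M N s r} ≤
        ENNReal.ofReal δ := by
  obtain ⟨c, hc, K0, hb⟩ := bohr N' hη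
  have hPpos : (0 : ℝ) < P := by exact_mod_cast hP
  set d : ℝ := c * δ ^ 3 / 8 with hdd
  have hd : 0 < d := by positivity
  obtain ⟨n0, hn0⟩ : ∃ n0 : ℕ, ∀ n, n0 ≤ n → s n < d / P := by
    have := hlim.eventually (gt_mem_nhds (show (0 : ℝ) < d / P by positivity))
    exact eventually_atTop.mp this
  have hn1 : ∀ n, n0 < n → (P : ℝ) * s n ≤ d := by
    intro n hn
    have h := hn0 n hn.le
    rw [lt_div_iff₀ hPpos] at h
    linarith
  obtain ⟨N2, hN2⟩ := exists_nat_ge ((1 + 2 * (n0 : ℝ)) / d)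
  refine ⟨N2 + 1, fun N hNN => ?_⟩
  have hN1 : 1 ≤ N := by omega
  have hNnn : (0 : ℝ) ≤ N := Nat.cast_nonneg N
  have hN : (1 + 2 * n0 : ℝ) ≤ d * N := by
    rw [div_le_iff₀ hd] at hN2
    have h1 : (N2 : ℝ) ≤ N := by exact_mod_cast (by omega : N2 ≤ N)
    have := mul_le_mul_of_nonneg_right h1 hd.le
    linarith
  -- the choice of K
  obtain ⟨K1, hK1⟩ := exists_nat_ge (∑ i ∈ Finset.Icc 1 N, ∑ j ∈ Finset.Icc 1 N,
    1 / |(P : ℝ) * (s j - s i)| / d)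
  set K : ℕ := K0 + K1 + 1 with hKK
  have hKpos : (0 : ℝ) < K := by
    have : 0 < K := by omega
    exact_mod_cast this
  have hK : ∀ i ∈ Finset.Icc 1 N, ∀ j ∈ Finset.Icc 1 N, i ≠ j →
      1 / |(P : ℝ) * (s j - s i)| ≤ K * d := by
    intro i hi j hj _
    have hnn : ∀ i j, 0 ≤ 1 / |(P : ℝ) * (s j - s i)| / d := fun i j => by positivity
    have h1 : 1 / |(P : ℝ) * (s j - s i)| / d ≤
        ∑ j ∈ Finset.Icc 1 N, 1 / |(P : ℝ) * (s j - s i)| / d :=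
      Finset.single_le_sum (f := fun j => 1 / |(P : ℝ) * (s j - s i)| / d)
        (fun j _ => hnn i j) hj
    have h2 : ∑ j ∈ Finset.Icc 1 N, 1 / |(P : ℝ) * (s j - s i)| / d ≤
        ∑ i ∈ Finset.Icc 1 N, ∑ j ∈ Finset.Icc 1 N, 1 / |(P : ℝ) * (s j - s i)| / d :=
      Finset.single_le_sum (f := fun i => ∑ j ∈ Finset.Icc 1 N, 1 / |(P : ℝ) * (s j - s i)| / d)
        (fun i _ => Finset.sum_nonneg (fun j _ => hnn i j)) hi
    have h3 : (K1 : ℝ) ≤ K := by exact_mod_cast (by omega : K1 ≤ K)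
    have h4 : 1 / |(P : ℝ) * (s j - s i)| / d ≤ K := h1.trans (h2.trans (hK1.trans h3))
    rwa [div_le_iff₀ hd] at h4
  have htot := step_sum hq hs hinj hP hd hn1 hN hK
  -- the variances
  set V : ℕ → ℝ := fun k => ∑ i ∈ Finset.Icc 1 N, ∑ j ∈ Finset.Icc 1 N,
    CC q ((k : ℝ) * ((P : ℝ) * (s j - s i))) with hV
  have hVeq : ∀ k : ℕ, 1 ≤ k → ∫ r in (0 : ℝ)..1, (cnt q (k * P) N s r - N / q) ^ 2 = V k := by
    intro k hk
    rw [var_eq hq (Nat.mul_pos hk hP) N s]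
    refine Finset.sum_congr rfl (fun i _ => Finset.sum_congr rfl (fun j _ => ?_))
    rw [Nat.cast_mul, mul_assoc]
  have hVnn : ∀ k : ℕ, 1 ≤ k → 0 ≤ V k := by
    intro k hk
    rw [← hVeq k hk]
    exact intervalIntegral.integral_nonneg zero_le_one (fun r _ => sq_nonneg _)
  have hsum : ∑ k ∈ Finset.Icc 1 K, V k ≤ 4 * d * K * (N : ℝ) ^ 2 := by
    have : ∑ k ∈ Finset.Icc 1 K, V k = ∑ i ∈ Finset.Icc 1 N, ∑ j ∈ Finset.Icc 1 N,
        ∑ k ∈ Finset.Icc 1 K, CC q ((k : ℝ) * ((P : ℝ) * (s j - s i))) := by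
      rw [hV, Finset.sum_comm]
      refine Finset.sum_congr rfl (fun i _ => ?_)
      rw [Finset.sum_comm]
    rw [this]
    exact htot
  -- the Bohr set
  have hbK := hb (fun n => (P : ℝ) * s n) K (by omega)
  obtain ⟨S, hSsub, hSmem, hbK'⟩ : ∃ S : Finset ℕ, S ⊆ Finset.Icc 1 K ∧
      (∀ k ∈ S, ∀ n ∈ Finset.Icc 1 N', dz ((k : ℝ) * ((P : ℝ) * s n)) ≤ η) ∧
      c * K ≤ (S.card : ℝ) := by
    refine ⟨_, ?_, ?_, hbK⟩
    · intro k hk
      simp only [Finset.mem_filter] at hk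
      exact hk.1
    · intro k hk
      simp only [Finset.mem_filter] at hk
      exact hk.2
  have hScard : 0 < (S.card : ℝ) := lt_of_lt_of_le (mul_pos hc hKpos) hbK'
  have hSne : S.Nonempty := by
    rw [← Finset.card_pos]
    exact_mod_cast hScard
  have hsumS : ∑ k ∈ S, V k ≤ 4 * d * K * (N : ℝ) ^ 2 :=
    (Finset.sum_le_sum_of_subset_of_nonneg hSsub
      (fun k hk _ => hVnn k (Finset.mem_Icc.mp hk).1)).trans hsum
  obtain ⟨k, hkS, hkV⟩ : ∃ k ∈ S, V k ≤ δ ^ 3 * (N : ℝ) ^ 2 := by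
    by_contra hcon
    push Not at hcon
    have h1 : ∑ k ∈ S, δ ^ 3 * (N : ℝ) ^ 2 < ∑ k ∈ S, V k :=
      Finset.sum_lt_sum_of_nonempty hSne hcon
    rw [Finset.sum_const, nsmul_eq_mul] at h1
    have h2 : c * K * (δ ^ 3 * (N : ℝ) ^ 2) ≤ S.card * (δ ^ 3 * (N : ℝ) ^ 2) :=
      mul_le_mul_of_nonneg_right hbK' (by positivity)
    have h3 : 4 * d * K * (N : ℝ) ^ 2 = c * K * (δ ^ 3 * (N : ℝ) ^ 2) / 2 := by
      rw [hdd]; ring
    have h4 : 0 ≤ c * K * (δ ^ 3 * (N : ℝ) ^ 2) := by positivity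
    linarith
  have hk1 : 1 ≤ k := (Finset.mem_Icc.mp (hSsub hkS)).1
  refine ⟨k * P, Nat.mul_pos hk1 hP, Dvd.intro_left k rfl, ?_, ?_⟩
  · intro n hn
    have h := hSmem k hkS n hn
    rw [Nat.cast_mul, mul_assoc]
    exact h
  · have h := var_cheb hq (M := k * P) hN1 s hδ (v := δ ^ 3) (by rw [hVeq k hk1]; exact hkV)
    have e : δ ^ 3 / δ ^ 2 = δ := by field_simp
    rw [e] at h
    exact h

end MP4ba111
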